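import Pool.Agent.Lib.MP_0c623d_al.F.Defs

/-! Block F: rotation of the root coordinate at a mirror. -/

namespace Pool.Agent.BP.F

open Complex Set Filter Topology Matrix

variable {k : ℕ}

/-- The inverse of the primitive root of unity of order `2 * k`. -/
noncomputable def om (k : ℕ) : ℂ := exp (((-(Real.pi / k) : ℝ) : ℂ) * I)

theorem arg_polar {r θ : ℝ} (hr : 0 < r) (h1 : -Real.pi < θ) (h2 : θ ≤ Real.pi) :
    arg ((r : ℂ) * exp ((θ : ℂ) * I)) = θ := by
  rw [exp_mul_I]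
  exact arg_mul_cos_add_sin_mul_I hr ⟨h1, h2⟩

theorem om_pow (hk : k ≠ 0) : om k ^ k = -1 := by
  have : (k : ℂ) ≠ 0 := Nat.cast_ne_zero.2 hk
  rw [om, ← Complex.exp_nat_mul]
  have : (k : ℂ) * (((-(Real.pi / k) : ℝ) : ℂ) * I) = -(Real.pi * I) := by
    push_cast; field_simp
  rw [this, Complex.exp_neg, exp_pi_mul_I]
  norm_num

theorem om_pow_two (hk : k ≠ 0) : om k ^ (2 * k) = 1 := by
  rw [mul_comm, pow_mul, om_pow hk]; norm_num

theorem om_ne : om k ≠ 0 := exp_ne_zero _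

theorem pi_div_le (hk : k ≠ 0) : Real.pi / k ≤ Real.pi :=
  div_le_self Real.pi_pos.le (by exact_mod_cast Nat.one_le_iff_ne_zero.2 hk)

theorem sec_slit (hk : k ≠ 0) {z : ℂ} (h0 : z ≠ 0) (h : |arg z| < Real.pi / k) :
    z ∈ slitPlane := by
  rw [mem_slitPlane_iff_arg]
  refine ⟨fun e => ?_, h0⟩
  rw [e, abs_of_pos Real.pi_pos] at h
  exact absurd (pi_div_le hk) (not_le.2 h)

theorem isOpen_sec (hk : k ≠ 0) : IsOpen {z : ℂ | z ≠ 0 ∧ |arg z| < Real.pi / k} := by
  refine isOpen_iff_mem_nhds.2 fun z hz => ?_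
  have c : ContinuousAt (fun z => |arg z|) z := (continuousAt_arg (sec_slit hk hz.1 hz.2)).abs
  exact (eventually_ne_nhds hz.1).and (c.eventually (gt_mem_nhds hz.2))

theorem sec_pow_slit (hk : k ≠ 0) {z : ℂ} (h0 : z ≠ 0) (h : |arg z| < Real.pi / k) :
    z ^ k ∈ slitPlane := by
  have hk' : (0 : ℝ) < k := by exact_mod_cast Nat.pos_of_ne_zero hk
  have e : z ^ k = ((‖z‖ ^ k : ℝ) : ℂ) * exp (((k * arg z : ℝ) : ℂ) * I) := by
    conv_lhs => rw [← norm_mul_exp_arg_mul_I z]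
    rw [mul_pow, ← Complex.exp_nat_mul]
    push_cast
    ring_nf
  rw [lt_div_iff₀ hk', mul_comm] at h
  have h' : |(k : ℝ) * arg z| < Real.pi := by rwa [abs_mul, abs_of_pos hk']
  rw [mem_slitPlane_iff_arg]
  refine ⟨?_, pow_ne_zero _ h0⟩
  rw [e, arg_polar (pow_pos (norm_pos_iff.2 h0) k) (abs_lt.1 h').1 (abs_lt.1 h').2.le]
  exact (abs_lt.1 h').2.ne

theorem isOpen_sect (hk : k ≠ 0) (d0 : E3) : IsOpen {ζ | Sect k d0 ζ} := by
  have : {ζ | Sect k d0 ζ} = ⋂ p, {ζ : E3 | d0 p = 0 → ζ p ≠ 0 ∧ |arg (ζ p)| < Real.pi / k} := by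
    ext ζ; simp [Sect]
  rw [this]
  refine isOpen_iInter_of_finite fun p => ?_
  by_cases h : d0 p = 0
  · simpa [h] using (isOpen_sec hk).preimage (continuous_apply (A := fun _ : Fin 3 => ℂ) p)
  · simp [h]

theorem lex_slit {t : ℂ} (h : LexNN t) (h0 : t ≠ 0) : t ∈ slitPlane := by
  rw [mem_slitPlane_iff]
  rcases h with h | ⟨h, h'⟩
  · exact Or.inl h
  · exact Or.inr fun e => h0 (Complex.ext h e)

theorem lex_add {s t : ℂ} (hs : LexNN s) (ht : LexNN t) : LexNN (s + t) := by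
  unfold LexNN at *
  simp only [add_re, add_im]
  rcases hs with h | ⟨h, h'⟩ <;> rcases ht with g | ⟨g, g'⟩
  · left; linarith
  · left; linarith
  · left; linarith
  · right; constructor <;> linarith

theorem lex_add_eq {s t : ℂ} (hs : LexNN s) (ht : LexNN t) (h : s + t = 0) : s = 0 ∧ t = 0 := by
  have h1 := congrArg re h
  have h2 := congrArg im h
  simp only [add_re, add_im, zero_re, zero_im] at h1 h2
  unfold LexNN at *
  rcases hs with h | ⟨h, h'⟩ <;> rcases ht with g | ⟨g, g'⟩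
  · linarith
  · linarith
  · linarith
  · exact ⟨Complex.ext h (by simp; linarith), Complex.ext g (by simp; linarith)⟩

theorem analytic_pw (d0 ζ : E3) : AnalyticAt ℂ (pw k d0) ζ := by
  refine analyticAt_pi_iff.2 fun p => ?_
  have : AnalyticAt ℂ (fun ζ : E3 => ζ p) ζ := (ContinuousLinearMap.proj (R := ℂ) p).analyticAt ζ
  unfold pw
  by_cases h : d0 p = 0
  · simp only [h, if_true]
    exact this.pow k
  · simpa only [h, if_false] using this

theorem continuous_pw (d0 : E3) : Continuous (pw k d0) :=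
  continuous_iff_continuousAt.2 fun ζ => (analytic_pw d0 ζ).continuousAt

theorem pw_self (hk : k ≠ 0) (d0 : E3) : pw k d0 d0 = d0 := by
  funext p
  unfold pw
  by_cases h : d0 p = 0
  · simp [h, hk]
  · simp [h]

/-- `cfg` as a continuous linear map. -/
noncomputable def cfgL : E3 →L[ℂ] Cf :=
  LinearMap.toContinuousLinearMap
    { toFun := cfg
      map_add' := fun a b => by
        funext i; fin_cases i <;> simp [cfg] <;> ring
      map_smul' := fun c a => by
        funext i; fin_cases i <;> simp [cfg] <;> ring }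

theorem cfgL_apply (d : E3) : cfgL d = cfg d := rfl

theorem analytic_cfg (d : E3) : AnalyticAt ℂ cfg d := cfgL.analyticAt d

theorem continuous_cfg : Continuous cfg := cfgL.continuous

theorem cfg_mem_Om {d : E3} (h0 : d 0 ∈ slitPlane) (h1 : d 1 ∈ slitPlane) (h2 : d 2 ∈ slitPlane)
    (h01 : d 0 + d 1 ∈ slitPlane) (h12 : d 1 + d 2 ∈ slitPlane)
    (h012 : d 0 + d 1 + d 2 ∈ slitPlane) : cfg d ∈ Om := by
  intro i j hij
  fin_cases i <;> fin_cases j <;> simp [cfg] at hij ⊢ <;> first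
    | assumption
    | (convert h12 using 1; ring)

/-- Near an admissible centre the principal sector maps into the slit domain. -/
theorem om_ev (hk : k ≠ 0) {d0 : E3} (h : Adm d0) :
    ∀ᶠ ζ in 𝓝 d0, Sect k d0 ζ → cfg (pw k d0 ζ) ∈ Om := by
  have c : Tendsto (pw k d0) (𝓝 d0) (𝓝 d0) := by
    simpa only [ContinuousAt, pw_self hk] using (continuous_pw (k := k) d0).continuousAt (x := d0)
  have s : ∀ p, ∀ᶠ ζ in 𝓝 d0, Sect k d0 ζ → pw k d0 ζ p ∈ slitPlane := fun p => by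
    by_cases e : d0 p = 0
    · exact Eventually.of_forall fun ζ hs => by
        simpa [pw, e] using sec_pow_slit hk (hs p e).1 (hs p e).2
    · exact (((continuous_apply p).tendsto d0).comp c).eventually
        (isOpen_slitPlane.mem_nhds (lex_slit (h.1 p) e)) |>.mono fun ζ a _ => a
  have t : ∀ f : E3 → ℂ, Continuous f → LexNN (f d0) → f d0 ≠ 0 →
      ∀ᶠ ζ in 𝓝 d0, f (pw k d0 ζ) ∈ slitPlane := fun f hf a b =>
    ((hf.tendsto d0).comp c).eventually (isOpen_slitPlane.mem_nhds (lex_slit a b))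
  filter_upwards [s 0, s 1, s 2,
    t (fun d => d 0 + d 1) (by fun_prop) (lex_add (h.1 0) (h.1 1))
      fun e => h.2.1 (lex_add_eq (h.1 0) (h.1 1) e),
    t (fun d => d 1 + d 2) (by fun_prop) (lex_add (h.1 1) (h.1 2))
      fun e => h.2.2 (lex_add_eq (h.1 1) (h.1 2) e),
    t (fun d => d 0 + d 1 + d 2) (by fun_prop) (lex_add (lex_add (h.1 0) (h.1 1)) (h.1 2))
      fun e => h.2.1 (lex_add_eq (h.1 0) (h.1 1)
        (lex_add_eq (lex_add (h.1 0) (h.1 1)) (h.1 2) e).1)] with ζ a b c d e f hs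
  exact cfg_mem_Om (a hs) (b hs) (c hs) d e f

/-- Identity theorem for germs. -/
theorem ev_eq_of_freq {E F : Type} [NormedAddCommGroup E] [NormedSpace ℂ E] [NormedAddCommGroup F]
    [NormedSpace ℂ F] [CompleteSpace F] {f g : E → F} {x : E} (hf : AnalyticAt ℂ f x)
    (hg : AnalyticAt ℂ g x) (h : ∃ᶠ z in 𝓝 x, f =ᶠ[𝓝 z] g) : f =ᶠ[𝓝 x] g := by
  obtain ⟨r, r0, hr⟩ := Metric.eventually_nhds_iff_ball.1
    (hf.eventually_analyticAt.and hg.eventually_analyticAt)
  obtain ⟨z, hz, zb⟩ := (h.and_eventually (Metric.ball_mem_nhds x r0)).exists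
  have := AnalyticOnNhd.eqOn_of_preconnected_of_eventuallyEq (𝕜 := ℂ) (U := Metric.ball x r)
    (fun y hy => (hr y hy).1) (fun y hy => (hr y hy).2) (convex_ball x r).isPreconnected zb hz
  exact Filter.mem_of_superset (Metric.ball_mem_nhds x r0) this

/-- The rotation of the coordinate `p`. -/
noncomputable def rot (k : ℕ) (p : Fin 3) (ζ : E3) : E3 := fun q =>
  if q = p then om k * ζ p else if q.val + 1 = p.val ∨ p.val + 1 = q.val then ζ q + ζ p ^ k else ζ q

theorem analytic_rot (p : Fin 3) (ζ : E3) : AnalyticAt ℂ (rot k p) ζ := by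
  refine analyticAt_pi_iff.2 fun q => ?_
  have : ∀ p, AnalyticAt ℂ (fun ζ : E3 => ζ p) ζ := fun p =>
    (ContinuousLinearMap.proj (R := ℂ) p).analyticAt ζ
  unfold rot
  by_cases h : q = p
  · simp only [h, if_true]
    exact analyticAt_const.mul (this p)
  · by_cases h' : q.val + 1 = p.val ∨ p.val + 1 = q.val
    · simp only [h, h', if_true, if_false]
      exact (this q).add ((this p).pow k)
    · simpa only [h, h', if_false] using this q

theorem continuous_rot (p : Fin 3) : Continuous (rot k p) :=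
  continuous_iff_continuousAt.2 fun ζ => (analytic_rot p ζ).continuousAt

theorem rot_self (hk : k ≠ 0) {d0 : E3} {p : Fin 3} (h : d0 p = 0) : rot k p d0 = d0 := by
  funext q
  unfold rot
  by_cases e : q = p
  · simp [e, h]
  · simp [e, h, hk]

theorem rot_same (p : Fin 3) (ζ : E3) : rot k p ζ p = om k * ζ p := by simp [rot]

theorem rot_other {d0 : E3} (hd : Adm d0) {p q : Fin 3} (hp : d0 p = 0) (hq : d0 q = 0)
    (e : q ≠ p) (ζ : E3) : rot k p ζ q = ζ q := by
  have h1 := hd.2.1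
  have h2 := hd.2.2
  unfold rot
  rw [if_neg e, if_neg]
  fin_cases p <;> fin_cases q <;> simp_all

theorem cfg_rot (hk : k ≠ 0) {d0 : E3} (hd : Adm d0) {p : Fin 3} (hp : d0 p = 0) (ζ : E3) :
    ∃ e : ℂ, cfg (pw k d0 ζ) ∘ sw p = fun i => cfg (pw k d0 (rot k p ζ)) i + e := by
  have h1 := hd.2.1
  have h2 := hd.2.2
  have o := om_pow hk
  refine ⟨cfg (pw k d0 ζ) (sw p 0), funext fun i => ?_⟩
  fin_cases p
  · have a : d0 1 ≠ 0 := fun e => h1 ⟨hp, e⟩
    have hp' : d0 0 = 0 := hp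
    fin_cases i <;>
      simp [cfg, pw, rot, sw, hp', a, mul_pow, o, Equiv.swap_apply_def] <;> ring
  · have a : d0 0 ≠ 0 := fun e => h1 ⟨e, hp⟩
    have a' : d0 2 ≠ 0 := fun e => h2 ⟨hp, e⟩
    have hp' : d0 1 = 0 := hp
    fin_cases i <;>
      simp [cfg, pw, rot, sw, hp', a, a', mul_pow, o, Equiv.swap_apply_def] <;> ring
  · have a : d0 1 ≠ 0 := fun e => h2 ⟨e, hp⟩
    have hp' : d0 2 = 0 := hp
    fin_cases i <;>
      simp [cfg, pw, rot, sw, hp', a, mul_pow, o, Equiv.swap_apply_def] <;> ring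

/-- A ray that approaches the centre inside the open chamber. -/
noncomputable def ray (k : ℕ) (d0 : E3) (ε : ℝ) : E3 := fun q =>
  if d0 q = 0 then (ε : ℂ) * exp (((Real.pi / (4 * k) : ℝ) : ℂ) * I) else d0 q + ε

theorem ray_tendsto (d0 : E3) : Tendsto (ray k d0) (𝓝[>] 0) (𝓝 d0) := by
  have : Continuous (ray k d0) := by
    refine continuous_pi fun q => ?_
    unfold ray
    by_cases h : d0 q = 0
    · simp only [h, if_true]; fun_prop
    · simp only [h, if_false]; fun_prop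
  have e : ray k d0 0 = d0 := by
    funext q
    unfold ray
    by_cases h : d0 q = 0 <;> simp [h]
  simpa only [e] using (this.tendsto 0).mono_left nhdsWithin_le_nhds

theorem ray_pow (hk : k ≠ 0) (ε : ℝ) :
    ((ε : ℂ) * exp (((Real.pi / (4 * k) : ℝ) : ℂ) * I)) ^ k =
      ((ε ^ k : ℝ) : ℂ) * exp (((Real.pi / 4 : ℝ) : ℂ) * I) := by
  have : (k : ℂ) ≠ 0 := Nat.cast_ne_zero.2 hk
  rw [mul_pow, ← Complex.exp_nat_mul]
  push_cast
  congr 2
  field_simp

theorem ray_sec (hk : k ≠ 0) {ε θ : ℝ} (hε : 0 < ε) (h : |θ| < Real.pi / k) :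
    (ε : ℂ) * exp ((θ : ℂ) * I) ≠ 0 ∧ |arg ((ε : ℂ) * exp ((θ : ℂ) * I))| < Real.pi / k := by
  have := abs_lt.1 (h.trans_le (pi_div_le hk))
  rw [arg_polar hε this.1 this.2.le]
  exact ⟨mul_ne_zero (by exact_mod_cast hε.ne') (exp_ne_zero _), h⟩

theorem quarter_lt (hk : k ≠ 0) : |Real.pi / (4 * k)| < Real.pi / k := by
  have hk' : (0 : ℝ) < k := by exact_mod_cast Nat.pos_of_ne_zero hk
  have := Real.pi_pos
  rw [abs_of_pos (by positivity)]
  exact div_lt_div_of_pos_left this hk' (by linarith)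

theorem ray_sect (hk : k ≠ 0) (d0 : E3) {ε : ℝ} (hε : 0 < ε) : Sect k d0 (ray k d0 ε) := by
  intro p hp
  simp only [ray, hp, if_true]
  exact ray_sec hk hε (quarter_lt hk)

theorem ray_re (hk : k ≠ 0) {d0 : E3} (hd : Adm d0) {ε : ℝ} (hε : 0 < ε) (q : Fin 3) :
    0 < (pw k d0 (ray k d0 ε) q).re := by
  by_cases h : d0 q = 0
  · simp only [pw, ray, h, if_true, ray_pow hk, re_ofReal_mul, exp_ofReal_mul_I_re,
      Real.cos_pi_div_four]
    positivity
  · simp only [pw, ray, h, if_false, add_re, ofReal_re]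
    rcases hd.1 q with a | a
    · linarith
    · linarith [a.1]

theorem ray_im (hk : k ≠ 0) {d0 : E3} {ε : ℝ} (hε : 0 < ε) {q : Fin 3} (h : d0 q = 0) :
    0 < (pw k d0 (ray k d0 ε) q).im := by
  simp only [pw, ray, h, if_true, ray_pow hk, im_ofReal_mul, exp_ofReal_mul_I_im,
    Real.sin_pi_div_four]
  positivity

theorem ray_rot_sect (hk : k ≠ 0) {d0 : E3} (hd : Adm d0) {p : Fin 3} (hp : d0 p = 0) {ε : ℝ}
    (hε : 0 < ε) : Sect k d0 (rot k p (ray k d0 ε)) := by
  intro q hq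
  by_cases e : q = p
  · subst e
    have hk' : (0 : ℝ) < k := by exact_mod_cast Nat.pos_of_ne_zero hk
    have : rot k q (ray k d0 ε) q =
        (ε : ℂ) * exp (((Real.pi / (4 * k) - Real.pi / k : ℝ) : ℂ) * I) := by
      simp only [rot_same, ray, hq, if_true, om]
      rw [mul_left_comm, ← Complex.exp_add]
      push_cast
      ring_nf
    rw [this]
    refine ray_sec hk hε ?_
    have a := abs_lt.1 (quarter_lt hk)
    have b : 0 < Real.pi / (4 * k) := by have := Real.pi_pos; positivity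
    rw [abs_lt]
    constructor <;> linarith
  · rw [rot_other hd hp hq e]
    exact ray_sect hk d0 hε q hq

theorem cfg_mem_Ch {d : E3} (h : ∀ q, 0 < (d q).re) : cfg d ∈ Ch := by
  have := h 0
  have := h 1
  have := h 2
  intro i j hij
  fin_cases i <;> fin_cases j <;> simp [cfg] at hij ⊢ <;> linarith

theorem cfg_sub (d : E3) (p : Fin 3) : cfg d p.succ - cfg d p.castSucc = d p := by
  fin_cases p <;> simp [cfg]

theorem Ch_sub_Om : Ch ⊆ Om := fun b hb i j hij =>
  mem_slitPlane_iff.2 (Or.inl (by simpa using hb i j hij))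

theorem analytic_mulVec (B : Mat) {G : E3 → V} {x : E3} (h : AnalyticAt ℂ G x) :
    AnalyticAt ℂ (fun ζ => B *ᵥ G ζ) x :=
  ((LinearMap.toContinuousLinearMap (Matrix.toLin' B)).analyticAt (G x)).comp h

/-- The rotation identity. -/
theorem rot_eq (hk : k ≠ 0) (A : AN k) {d0 : E3} (hd : Adm d0) {G : E3 → V}
    (hG : IsChart k A.Hm A.W d0 G) {p : Fin 3} (hp : d0 p = 0) :
    ∀ᶠ ζ in 𝓝 d0, G ζ = A.R p *ᵥ G (rot k p ζ) := by
  have tr : Tendsto (rot k p) (𝓝 d0) (𝓝 d0) := by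
    simpa only [ContinuousAt, rot_self hk hp] using
      (continuous_rot (k := k) p).continuousAt (x := d0)
  have a2 : AnalyticAt ℂ (fun ζ => A.R p *ᵥ G (rot k p ζ)) d0 :=
    analytic_mulVec _ (AnalyticAt.comp_of_eq hG.1 (analytic_rot p d0) (rot_self hk hp))
  refine ev_eq_of_freq hG.1 a2 ?_
  have e1 := (hG.2.1.and (tr.eventually (hG.2.1.and (om_ev hk hd)))).eventually_nhds
  refine (ray_tendsto (k := k) d0).frequently (Eventually.frequently ?_)
  filter_upwards [(ray_tendsto (k := k) d0).eventually e1, self_mem_nhdsWithin] with ε h1 hε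
  have o1 := (isOpen_sect hk d0).mem_nhds (ray_sect hk d0 hε)
  have o2 := ((isOpen_sect hk d0).preimage (continuous_rot (k := k) p)).mem_nhds
    (ray_rot_sect hk hd hp hε)
  have cp := continuous_pw (k := k) d0
  have o3 : ∀ᶠ ζ in 𝓝 (ray k d0 ε), ∀ q, 0 < (pw k d0 ζ q).re :=
    eventually_all.2 fun q => (by fun_prop : Continuous fun ζ => (pw k d0 ζ q).re).continuousAt.eventually
      (lt_mem_nhds (ray_re hk hd hε q))
  have o4 : ∀ᶠ ζ in 𝓝 (ray k d0 ε), 0 < (pw k d0 ζ p).im :=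
    (by fun_prop : Continuous fun ζ => (pw k d0 ζ p).im).continuousAt.eventually
      (lt_mem_nhds (ray_im hk hε hp))
  filter_upwards [h1, o1, o2, o3, o4] with ζ z1 z2 z3 z4 z5
  obtain ⟨e, he⟩ := cfg_rot hk hd hp ζ
  rw [z1.1 z2, z1.2.1 z3, ← A.transl _ (z1.2.2 z3) e, ← he]
  refine A.wall p _ ?_ fun i j hij _ => cfg_mem_Ch z4 i j hij
  rw [← cfg_sub (pw k d0 ζ) p] at z5
  simpa using z5

theorem rot_iter_self (hk : k ≠ 0) {d0 : E3} {p : Fin 3} {n : ℕ} (hp : d0 p = 0 ∨ n = 0) :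
    (rot k p)^[n] d0 = d0 := by
  rcases hp with hp | rfl
  · exact Function.iterate_fixed (rot_self hk hp) n
  · rfl

theorem rot_iter_tendsto (hk : k ≠ 0) {d0 : E3} {p : Fin 3} {n : ℕ} (hp : d0 p = 0 ∨ n = 0) :
    Tendsto (rot k p)^[n] (𝓝 d0) (𝓝 d0) := by
  simpa only [ContinuousAt, rot_iter_self hk hp] using
    ((continuous_rot (k := k) p).iterate n).continuousAt (x := d0)

theorem rot_iter_eq (hk : k ≠ 0) (A : AN k) {d0 : E3} (hd : Adm d0) {G : E3 → V}
    (hG : IsChart k A.Hm A.W d0 G) {p : Fin 3} {n : ℕ} (hp : d0 p = 0 ∨ n = 0) :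
    ∀ᶠ ζ in 𝓝 d0, G ζ = (A.R p ^ n) *ᵥ G ((rot k p)^[n] ζ) := by
  rcases hp with hp | rfl
  · induction n with
    | zero => simp
    | succ n ih =>
      filter_upwards [ih, (rot_iter_tendsto hk (n := n) (Or.inl hp)).eventually
        (rot_eq hk A hd hG hp)] with ζ a b
      rw [a, b, Function.iterate_succ_apply', mulVec_mulVec, pow_succ]
  · simp

theorem rot_iter_same (p : Fin 3) (n : ℕ) (ζ : E3) : (rot k p)^[n] ζ p = om k ^ n * ζ p := by
  induction n with
  | zero => simp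
  | succ n ih => rw [Function.iterate_succ_apply', rot_same, ih]; ring

theorem rot_iter_other {d0 : E3} (hd : Adm d0) {p q : Fin 3} {n : ℕ} (hp : d0 p = 0 ∨ n = 0)
    (hq : d0 q = 0) (e : q ≠ p) (ζ : E3) : (rot k p)^[n] ζ q = ζ q := by
  rcases hp with hp | rfl
  · induction n with
    | zero => simp
    | succ n ih => rw [Function.iterate_succ_apply', rot_other hd hp hq e, ih]
  · rfl

theorem cfg_rot_iter (hk : k ≠ 0) {d0 : E3} (hd : Adm d0) {p : Fin 3} {n : ℕ}
    (hp : d0 p = 0 ∨ n = 0) (ζ : E3) :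
    ∃ e : ℂ, cfg (pw k d0 ζ) ∘ (sw p ^ n) = fun i => cfg (pw k d0 ((rot k p)^[n] ζ)) i + e := by
  rcases hp with hp | rfl
  · induction n with
    | zero => exact ⟨0, by funext i; simp⟩
    | succ n ih =>
      obtain ⟨e, he⟩ := ih
      obtain ⟨e', he'⟩ := cfg_rot hk hd hp ((rot k p)^[n] ζ)
      refine ⟨e' + e, funext fun i => ?_⟩
      have a := congrFun he (sw p i)
      have b := congrFun he' i
      simp only [Function.comp] at a b ⊢
      rw [pow_succ, Equiv.Perm.mul_apply, a, b, Function.iterate_succ_apply', add_assoc]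
  · exact ⟨0, by funext i; simp⟩

/-- The chart function on every sector. -/
theorem rot_main (hk : k ≠ 0) (A : AN k) {d0 : E3} (hd : Adm d0) {G : E3 → V}
    (hG : IsChart k A.Hm A.W d0 G) (n : Fin 3 → ℕ) (hn : ∀ p, d0 p = 0 ∨ n p = 0) :
    ∀ᶠ ζ in 𝓝 d0, Sect k d0 (fun p => om k ^ n p * ζ p) →
      G ζ = (A.R 0 ^ n 0 * A.R 1 ^ n 1 * A.R 2 ^ n 2) *ᵥ
        A.W (cfg (pw k d0 ζ) ∘ (sw 0 ^ n 0 * sw 1 ^ n 1 * sw 2 ^ n 2 : P4)) := by
  have t0 := rot_iter_tendsto hk (hn 0)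
  have t1 := (rot_iter_tendsto hk (hn 1)).comp t0
  have t2 := (rot_iter_tendsto hk (hn 2)).comp t1
  filter_upwards [rot_iter_eq hk A hd hG (hn 0), t0.eventually (rot_iter_eq hk A hd hG (hn 1)),
    t1.eventually (rot_iter_eq hk A hd hG (hn 2)), t2.eventually (hG.2.1.and (om_ev hk hd))]
    with ζ a b c d hs
  simp only [Function.comp] at c d
  set ζ0 := (rot k 0)^[n 0] ζ with z0
  set ζ1 := (rot k 1)^[n 1] ζ0 with z1
  set ζ2 := (rot k 2)^[n 2] ζ1 with z2
  have s2 : Sect k d0 ζ2 := fun p hp => by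
    have : ζ2 p = om k ^ n p * ζ p := by
      fin_cases p
      · have hp' : d0 0 = 0 := hp
        change ζ2 0 = om k ^ n 0 * ζ 0
        rw [z2, rot_iter_other hd (hn 2) hp' (by decide), z1,
          rot_iter_other hd (hn 1) hp' (by decide), z0, rot_iter_same]
      · have hp' : d0 1 = 0 := hp
        change ζ2 1 = om k ^ n 1 * ζ 1
        rw [z2, rot_iter_other hd (hn 2) hp' (by decide), z1, rot_iter_same, z0,
          rot_iter_other hd (hn 0) hp' (by decide)]
      · have hp' : d0 2 = 0 := hp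
        change ζ2 2 = om k ^ n 2 * ζ 2
        rw [z2, rot_iter_same, z1, rot_iter_other hd (hn 1) hp' (by decide), z0,
          rot_iter_other hd (hn 0) hp' (by decide)]
    rw [this]
    exact hs p hp
  obtain ⟨e0, h0⟩ := cfg_rot_iter hk hd (hn 0) ζ
  obtain ⟨e1, h1⟩ := cfg_rot_iter hk hd (hn 1) ζ0
  obtain ⟨e2, h2⟩ := cfg_rot_iter hk hd (hn 2) ζ1
  have h : cfg (pw k d0 ζ) ∘ (sw 0 ^ n 0 * sw 1 ^ n 1 * sw 2 ^ n 2 : P4) =
      fun i => cfg (pw k d0 ζ2) i + (e2 + e1 + e0) := by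
    funext i
    have a0 := congrFun h0 ((sw 1 ^ n 1) ((sw 2 ^ n 2) i))
    have a1 := congrFun h1 ((sw 2 ^ n 2) i)
    have a2 := congrFun h2 i
    simp only [Function.comp] at a0 a1 a2 ⊢
    rw [Equiv.Perm.mul_apply, Equiv.Perm.mul_apply, a0, ← z0, a1, ← z1, a2, ← z2]
    ring
  rw [h, A.transl _ (d.2 s2), ← d.1 s2, a, b, c, mulVec_mulVec, mulVec_mulVec]

end Pool.Agent.BP.F
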