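import Pool.Agent.Lib.MP_0c623d_al.F.Pos

/-! Block F: the analytic interface `AN`, the base `Y`, the labels and the developed space. -/

namespace Pool.Agent.BP.F

open Complex Set Filter Topology Matrix

abbrev V : Type := Fin 6 → ℂ
abbrev Mat : Type := Matrix (Fin 6) (Fin 6) ℂ
abbrev Cf : Type := Fin 4 → ℂ
abbrev E3 : Type := Fin 3 → ℂ

/-- The sesquilinear pairing of a matrix. -/
def hh (Hm : Mat) (v w : V) : ℂ := star v ⬝ᵥ Hm *ᵥ w

/-- Configurations whose ordered differences avoid the closed negative axis. -/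
def Om : Set Cf := {b | ∀ i j : Fin 4, i < j → b j - b i ∈ slitPlane}

/-- The open chamber of configurations with increasing real parts. -/
def Ch : Set Cf := {b | ∀ i j : Fin 4, i < j → (b i).re < (b j).re}

/-- No three of the four points coincide. -/
def NoTriple (b : Cf) : Prop :=
  ∀ i j l : Fin 4, i ≠ j → j ≠ l → i ≠ l → ¬ (b i = b j ∧ b j = b l)

/-- The configuration with first point `0` and consecutive differences `d`. -/
def cfg (d : E3) : Cf := ![0, d 0, d 0 + d 1, d 0 + d 1 + d 2]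

/-- Lexicographically non-negative complex numbers. -/
def LexNN (t : ℂ) : Prop := 0 < t.re ∨ (t.re = 0 ∧ 0 ≤ t.im)

/-- Admissible centres of charts. -/
def Adm (d : E3) : Prop := (∀ p, LexNN (d p)) ∧ ¬ (d 0 = 0 ∧ d 1 = 0) ∧ ¬ (d 1 = 0 ∧ d 2 = 0)

/-- From chart coordinates centred at `d0` to consecutive differences. -/
noncomputable def pw (k : ℕ) (d0 ζ : E3) : E3 := fun p => if d0 p = 0 then ζ p ^ k else ζ p

/-- The principal sector at the collided positions of `d0`. -/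
def Sect (k : ℕ) (d0 ζ : E3) : Prop := ∀ p, d0 p = 0 → ζ p ≠ 0 ∧ |arg (ζ p)| < Real.pi / k

/-- `w` is positive and the part of the range of `D` orthogonal to `w` is negative definite. -/
def Spacelike (Hm : Mat) (w : V) (D : E3 →L[ℂ] V) : Prop :=
  0 < (hh Hm w w).re ∧ ∀ v, v ≠ 0 → hh Hm w (D v) = 0 → (hh Hm (D v) (D v)).re < 0

/-- The base configuration. -/
def b0 : Cf := ![0, 1, 3, 7]

/-- The consecutive differences of the base configuration. -/
def d1 : E3 := ![1, 2, 4]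

/-- `G` is a chart function for `W` centred at `d0`. -/
def IsChart (k : ℕ) (Hm : Mat) (W : Cf → V) (d0 : E3) (G : E3 → V) : Prop :=
  AnalyticAt ℂ G d0 ∧ (∀ᶠ ζ in 𝓝 d0, Sect k d0 ζ → G ζ = W (cfg (pw k d0 ζ))) ∧
    Spacelike Hm (G d0) (fderiv ℂ G d0)

/-- The invariant quadratic form, multiplied by the square of `h(w,w)`. -/
noncomputable def QQ (Hm : Mat) (w v : V) : ℝ :=
  2 * ‖hh Hm w v‖ ^ 2 - (hh Hm w w).re * (hh Hm v v).re

/-- Everything the analysis has to supply. -/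
structure AN (k : ℕ) where
  Hm : Mat
  R : Fin 3 → Mat
  W : Cf → V
  del : ℝ
  tau : Fin 4 → Cf → ℝ
  C : ℝ
  R0 : ℝ
  herm : Hm.IsHermitian
  unit : ∀ p, (R p)ᴴ * Hm * R p = Hm
  del_ne : del ≠ 0
  an : AnalyticOnNhd ℂ W Om
  transl : ∀ b ∈ Om, ∀ c : ℂ, W (fun i => b i + c) = W b
  euler : ∀ b ∈ Om, fderiv ℂ W b b = (del : ℂ) • W b
  wall : ∀ (p : Fin 3) (b : Cf), (b p.castSucc).im < (b p.succ).im →
    (∀ i j : Fin 4, i < j → ¬ (i = p.castSucc ∧ j = p.succ) → (b i).re < (b j).re) →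
    W b = R p *ᵥ W (b ∘ sw p)
  span : Submodule.span ℂ (W '' Om) = ⊤
  chart : ∀ d0, Adm d0 → ∃ G, IsChart k Hm W d0 G
  sig : ∃ U : Submodule ℂ V, Module.finrank ℂ U = 3 ∧ (∀ u ∈ U, u ≠ 0 → 0 < (hh Hm u u).re) ∧
    ∀ u ∈ U, ∀ v, hh Hm u (fderiv ℂ W b0 v) = 0
  tau_c1 : ∀ l b, NoTriple b → ContDiffAt ℝ 1 (tau l) b
  tau_perm : ∀ l b (π : Equiv.Perm (Fin 4)), tau l (b ∘ π) = tau (π l) b
  tau_add : ∀ l (b : Cf) (c : ℂ), tau l (fun i => b i + c) = tau l b
  tau_prop : ∀ R : ℝ, ∃ η : ℝ, 0 < η ∧ ∀ b, NoTriple b → (∀ l, tau l b ≤ R) →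
    ∀ i j l : Fin 4, i ≠ j → j ≠ l → i ≠ l → ∀ i' j' : Fin 4,
      η * ‖b i' - b j'‖ ≤ ‖b i - b j‖ + ‖b j - b l‖
  tau_bd : ∀ l, ∀ b ∈ Ch, R0 < tau l b → ∀ v : Cf,
    (fderiv ℝ (tau l) b v) ^ 2 * (hh Hm (W b) (W b)).re ^ 2 ≤ C * QQ Hm (W b) (fderiv ℂ W b v)

/-! ### The abstract graph theorem -/

/-- `w` is a spacelike holomorphic immersion of a cone, in charts. -/
def Charted (Hm : Mat) {X : Type} [TopologicalSpace X] (w : X → V) : Prop :=
  ∀ x, ∃ (e : OpenPartialHomeomorph X E3) (G : E3 → V), x ∈ e.source ∧ AnalyticAt ℂ G (e x) ∧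
    (∀ᶠ y in 𝓝 x, w y = G (e y)) ∧ Spacelike Hm (G (e x)) (fderiv ℂ G (e x)) ∧
    ∃ v, fderiv ℂ G (e x) v = G (e x)

/-- Curves whose image has bounded speed and stays in the positive cone converge. -/
def Compl (Hm : Mat) {X : Type} [TopologicalSpace X] (w : X → V) : Prop :=
  ∀ (c : ℝ → X) (T M ε : ℝ), 0 < T → 0 < ε → ContinuousOn c (Ico 0 T) →
    (∀ t ∈ Ico 0 T, ∃ v, HasDerivWithinAt (fun t => w (c t)) v (Ici t) t ∧ ‖v‖ ≤ M) →
    (∀ t ∈ Ico 0 T, ε ≤ (hh Hm (w (c t)) (w (c t))).re) → ∃ x, Tendsto c (𝓝[<] T) (𝓝 x)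

/-- An orthogonal splitting into a positive `4`-space and a negative `2`-space. -/
def Split (Hm : Mat) (P N : Submodule ℂ V) : Prop :=
  IsCompl P N ∧ Module.finrank ℂ N = 2 ∧ (∀ v ∈ P, v ≠ 0 → 0 < (hh Hm v v).re) ∧
    (∀ v ∈ N, v ≠ 0 → (hh Hm v v).re < 0) ∧ ∀ u ∈ P, ∀ v ∈ N, hh Hm u v = 0

/-- Statement of the graph theorem. -/
def GraphStmt : Prop :=
  ∀ (Hm : Mat), Hm.IsHermitian → ∀ (X : Type) [TopologicalSpace X] [T2Space X] (w : X → V),
    Charted Hm w → Compl Hm w → ∀ P N : Submodule ℂ V, Split Hm P N →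
    ∀ x0 x1 : X, w x0 ∈ P → w x1 ∈ P → Joined x0 x1 → JoinedIn {x | w x ∈ P} x0 x1

/-! ### The base -/

/-- Compatible systems of `k`-th roots of the differences, without triple collision. -/
def IsY (k : ℕ) (u : Fin 4 → Fin 4 → ℂ) : Prop :=
  (∀ i j, u j i = - u i j) ∧ (∀ i j l, u i j ^ k + u j l ^ k = u i l ^ k) ∧
    ∀ i j l : Fin 4, i ≠ j → j ≠ l → i ≠ l → ¬ (u i j = 0 ∧ u j l = 0)

abbrev Y (k : ℕ) : Type := {u : Fin 4 → Fin 4 → ℂ // IsY k u}

variable {k : ℕ}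

/-- The configuration under a point of `Y`. -/
noncomputable def pos (y : Y k) : Cf := fun i => y.1 0 i ^ k

/-- The sorting permutation for the lexicographic order, ties broken by the index. -/
noncomputable def srt (a : Cf) : Equiv.Perm (Fin 4) :=
  Tuple.sort fun i => (toLex ((a i).re, (a i).im) : ℝ ×ₗ ℝ)

/-- The sorting permutation of a point of `Y`. -/
noncomputable def sg (y : Y k) : Equiv.Perm (Fin 4) := srt (pos y)

/-- The root of `y'` at the pair that has position `p` at `y`. -/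
noncomputable def rt (y y' : Y k) (p : Fin 3) : ℂ := y'.1 (sg y p.castSucc) (sg y p.succ)

/-- Sorted consecutive differences. -/
noncomputable def dd (y : Y k) : E3 := fun p => rt y y p ^ k

/-- The chart centred at `y`. -/
noncomputable def zeta (y y' : Y k) : E3 :=
  fun p => if dd y p = 0 then rt y y' p else rt y y' p ^ k

/-- The number of full turns of `u ^ k`. -/
noncomputable def jj (k : ℕ) (u : ℂ) : ℤ := ⌈(k : ℝ) * arg u / (2 * Real.pi) - 3 / 4⌉

/-- The full turns at the collided positions of `y`. -/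
noncomputable def jv (y y' : Y k) (p : Fin 3) : ℤ := if dd y p = 0 then jj k (rt y y' p) else 0

/-! ### Coverings from germs of sections -/

section Tot

variable {X π : Type} [TopologicalSpace X] [Group π]

/-- The total space of the covering defined by germs of sections. -/
@[ext] structure Tot (b : X → X → π) where
  x : X
  g : π

variable {b : X → X → π}

instance : TopologicalSpace (Tot b) where
  IsOpen W := ∀ z ∈ W, ∀ᶠ y in 𝓝 z.x, (⟨y, z.g * b z.x y⟩ : Tot b) ∈ W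
  isOpen_univ _ _ := Eventually.of_forall fun _ => trivial
  isOpen_inter _ _ h h' z hz := (h z hz.1).and (h' z hz.2)
  isOpen_sUnion _ h z := fun ⟨W, a, c⟩ => (h W a z c).mono fun _ e => ⟨W, a, e⟩

/-- The cocycle property of the germs. -/
def Coc (b : X → X → π) : Prop :=
  (∀ y, b y y = 1) ∧ ∀ y, ∀ᶠ y' in 𝓝 y, ∀ᶠ y'' in 𝓝 y', b y y'' = b y y' * b y' y''

theorem tot_cont {Z : Type} [TopologicalSpace Z] (hb : ∀ x, b x x = 1) {f : Tot b → Z}
    (h : ∀ z : Tot b, ContinuousAt (fun y => f ⟨y, z.g * b z.x y⟩) z.x) : Continuous f :=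
  ⟨fun W hW z hz => h z (hW.mem_nhds (by simpa [hb] using hz))⟩

theorem tot_x_cont (hc : Coc b) : Continuous (Tot.x : Tot b → X) :=
  tot_cont hc.1 fun _ => continuousAt_id

/-- Near a point, all points lie on the section through it. -/
theorem tot_ev (hc : Coc b) (z : Tot b) : ∀ᶠ w in 𝓝 z, w.g = z.g * b z.x w.x := by
  have : IsOpen {w : Tot b | (∀ᶠ y in 𝓝 w.x, ∀ᶠ u in 𝓝 y, b z.x u = b z.x y * b y u) ∧
      w.g = z.g * b z.x w.x} := by
    intro w hw
    filter_upwards [hw.1.eventually_nhds, hw.1.self_of_nhds] with y a e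
    exact ⟨a, by rw [hw.2, e, mul_assoc]⟩
  exact Filter.mem_of_superset (this.mem_nhds ⟨hc.2 z.x, by simp [hc.1]⟩) fun w hw => hw.2

/-- Convergence in the total space. -/
theorem tot_tendsto (hc : Coc b) {α : Type} {l : Filter α} {f : α → Tot b} {z : Tot b} :
    Tendsto f l (𝓝 z) ↔ Tendsto (fun t => (f t).x) l (𝓝 z.x) ∧
      ∀ᶠ t in l, (f t).g = z.g * b z.x (f t).x := by
  refine ⟨fun h => ⟨((tot_x_cont hc).tendsto z).comp h, h.eventually (tot_ev hc z)⟩, fun h => ?_⟩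
  refine tendsto_nhds.2 fun W hW hz => ?_
  filter_upwards [h.1.eventually (hW z hz), h.2] with t a e
  rw [← e] at a
  exact a

theorem tot_t2 [T2Space X] (hc : Coc b) : T2Space (Tot b) := by
  refine t2_iff_nhds.2 fun {z w} h => ?_
  have e : z.x = w.x := tendsto_nhds_unique (l := 𝓝 z ⊓ 𝓝 w)
    (((tot_x_cont hc).tendsto z).mono_left inf_le_left)
    (((tot_x_cont hc).tendsto w).mono_left inf_le_right)
  obtain ⟨u, h1, h2⟩ := (((tot_ev hc z).filter_mono (inf_le_left (b := 𝓝 w))).and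
    ((tot_ev hc w).filter_mono (inf_le_right (a := 𝓝 z)))).exists
  rw [h1, e] at h2
  exact Tot.ext e (mul_right_cancel h2)

end Tot

/-! ### Labels -/

/-- Generators of order dividing `2 * k` that satisfy the braid relations. -/
structure Lab (k : ℕ) (H : Type) [Group H] where
  s : Fin 3 → H
  br : Br s
  ord : ∀ p, s p ^ (2 * k) = 1

variable {H : Type} [Group H]

/-- Product of powers of the generators. -/
def Sz {G : Type} [Group G] (s : Fin 3 → G) (n : Fin 3 → ℤ) : G :=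
  s 0 ^ n 0 * s 1 ^ n 1 * s 2 ^ n 2

/-- The germs of sections. -/
noncomputable def Lab.bb (L : Lab k H) (y y' : Y k) : H :=
  Sz L.s (fun p => 2 * jv y y' p) * r L.s ((sg y)⁻¹ * sg y')

/-- The developed space. -/
abbrev Lab.X (L : Lab k H) : Type := Tot L.bb

open Classical in
/-- A chosen chart function. -/
noncomputable def AN.G (A : AN k) (d0 : E3) : E3 → V :=
  if h : Adm d0 then (A.chart d0 h).choose else 0

theorem AN.G_spec (A : AN k) {d0 : E3} (h : Adm d0) : IsChart k A.Hm A.W d0 (A.G d0) := by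
  rw [AN.G, dif_pos h]
  exact (A.chart d0 h).choose_spec

/-- The developing map. -/
noncomputable def AN.dev (A : AN k) (L : Lab k H) (ρ : H →* Matˣ) (x : L.X) : V :=
  (ρ x.g : Mat) *ᵥ A.G (dd x.x) (dd x.x)

/-- The representation sends the generators to the wall matrices. -/
def AN.Rep (A : AN k) (s : Fin 3 → H) (ρ : H →* Matˣ) : Prop := ∀ p, (ρ (s p) : Mat) = A.R p

/-- The representation is unitary. -/
def AN.Uni (A : AN k) (ρ : H →* Matˣ) : Prop := ∀ g v w,
  hh A.Hm ((ρ g : Mat) *ᵥ v) ((ρ g : Mat) *ᵥ w) = hh A.Hm v w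

/-- The developing map is given by the chart function near every point. -/
def AN.Loc (A : AN k) (L : Lab k H) (ρ : H →* Matˣ) : Prop :=
  ∀ y, ∀ᶠ y' in 𝓝 y,
    (ρ (L.bb y y') : Mat) *ᵥ A.G (dd y') (dd y') = A.G (dd y) (zeta y y')

/-- The functions `zeta y` are charts of the base. -/
def ChartY (k : ℕ) : Prop :=
  ∀ y : Y k, ∃ e : OpenPartialHomeomorph (Y k) E3, y ∈ e.source ∧ ∀ y', e y' = zeta y y'

/-- The functions `zeta y` are charts of the developed space. -/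
def Lab.ChartX (L : Lab k H) : Prop :=
  ∀ x : L.X, ∃ e : OpenPartialHomeomorph L.X E3, x ∈ e.source ∧ (∀ x', e x' = zeta x.x x'.x) ∧
    ∀ x' ∈ e.source, x'.g = x.g * L.bb x.x x'.x

/-- The final statement of block F. -/
def MainStmt : Prop :=
  ∀ (k : ℕ), Odd k → ∀ (A : AN k) (H : Type) [Group H] (L : Lab k H),
    Subgroup.closure (range L.s) = ⊤ → ∀ (ρ : H →* Matˣ), A.Rep L.s ρ →
    ∀ g : H, ρ g = 1 → g ∈ Subgroup.zpowers ((L.s 0 * L.s 1 * L.s 2) ^ 4)

/-- The relations satisfied by the wall matrices. -/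
def RelStmt : Prop :=
  ∀ (k : ℕ), Odd k → ∀ A : AN k, A.R 0 * A.R 1 * A.R 0 = A.R 1 * A.R 0 * A.R 1 ∧
    A.R 1 * A.R 2 * A.R 1 = A.R 2 * A.R 1 * A.R 2 ∧ A.R 0 * A.R 2 = A.R 2 * A.R 0 ∧
    ∀ p, A.R p ^ (2 * k) = 1

end Pool.Agent.BP.F
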