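import Pool.Agent.Lib.MP_0c623d_al.F.Defs

/-! Block F: the lexicographic order of the four points under a point of the base. -/

namespace Pool.Agent.BP.F

open Equiv Filter Topology Complex

/-- The lexicographic position of a complex number. -/
def lex (z : ℂ) : ℝ ×ₗ ℝ := toLex (z.re, z.im)

theorem lex_lt {a b : ℂ} : lex a < lex b ↔ a.re < b.re ∨ (a.re = b.re ∧ a.im < b.im) :=
  Prod.Lex.toLex_lt_toLex

theorem lex_inj {a b : ℂ} : lex a = lex b ↔ a = b :=
  ⟨fun h => Complex.ext (congrArg (fun x => (ofLex x).1) h) (congrArg (fun x => (ofLex x).2) h),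
    fun h => h ▸ rfl⟩

theorem lex_lt_sub {a b : ℂ} : lex a < lex b ↔ lex 0 < lex (b - a) := by
  simp only [lex_lt, zero_re, zero_im, sub_re, sub_im, sub_pos, eq_comm (a := (0 : ℝ)), sub_eq_zero,
    eq_comm (a := a.re)]

theorem lex_le {a b : ℂ} : lex a ≤ lex b ↔ LexNN (b - a) := by
  rw [lex, lex, Prod.Lex.toLex_le_toLex]
  simp only [LexNN, sub_re, sub_im, sub_pos, sub_nonneg, sub_eq_zero, eq_comm (a := a.re)]

theorem lex_lt_iff {a b : ℂ} : lex a < lex b ↔ LexNN (b - a) ∧ b - a ≠ 0 := by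
  rw [lt_iff_le_and_ne, lex_le, Ne, lex_inj, Ne, sub_eq_zero, eq_comm]

theorem LexNN.slit {t : ℂ} (h : LexNN t) (h0 : t ≠ 0) : t ∈ slitPlane := by
  rcases h with h | h
  · exact Or.inl h
  · exact Or.inr fun e => h0 (Complex.ext h.1 e)

theorem srt_mono (a : Cf) : Monotone fun p => lex (a (srt a p)) :=
  Tuple.monotone_sort fun i => lex (a i)

theorem srt_lt' (a : Cf) (i j : Fin 4) :
    (srt a)⁻¹ i < (srt a)⁻¹ j ↔ lex (a i) < lex (a j) ∨ (a i = a j ∧ i < j) := by
  have h : ∀ i j, (srt a)⁻¹ i < (srt a)⁻¹ j → lex (a i) < lex (a j) ∨ (a i = a j ∧ i < j) := by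
    intro i j h
    have h1 := srt_mono a h.le
    have h2 := ((Tuple.eq_sort_iff (f := fun i => lex (a i)) (σ := srt a)).1 rfl).2 _ _ h
    simp only [Perm.coe_inv, apply_symm_apply] at h1 h2
    exact h1.lt_or_eq.imp id fun e => ⟨lex_inj.1 e, h2 e⟩
  refine ⟨h i j, fun h' => ?_⟩
  rcases lt_trichotomy ((srt a)⁻¹ i) ((srt a)⁻¹ j) with c | c | c
  · exact c
  · obtain rfl := (srt a)⁻¹.injective c
    simp at h'
  · rcases h j i c with d | d <;> rcases h' with h' | h'
    · exact (lt_asymm d h').elim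
    · simp [h'.1] at d
    · simp [d.1] at h'
    · exact (lt_asymm d.2 h'.2).elim

theorem srt_lt (a : Cf) (i j : Fin 4) : (srt a)⁻¹ i < (srt a)⁻¹ j ↔
    (LexNN (a j - a i) ∧ a j - a i ≠ 0) ∨ (a i = a j ∧ i < j) := by rw [srt_lt', lex_lt_iff]

theorem srt_lt_of_ne {a : Cf} {i j : Fin 4} (h : a i ≠ a j) :
    (srt a)⁻¹ i < (srt a)⁻¹ j ↔ lex (a i) < lex (a j) := by
  rw [srt_lt', or_iff_left fun e => h e.1]

theorem srt_lt_of_re {a : Cf} {i j : Fin 4} (h : (a i).re < (a j).re) :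
    (srt a)⁻¹ i < (srt a)⁻¹ j := (srt_lt' a i j).2 (Or.inl (lex_lt.2 (Or.inl h)))

theorem srt_eq {a : Cf} {σ : P4} (h : StrictMono fun p => lex (a (σ p))) : srt a = σ :=
  (Tuple.eq_sort_iff.2 ⟨h.monotone, fun _ _ hij e => ((h hij).ne e).elim⟩).symm

theorem srt_eq_of_re {a : Cf} {σ : P4} (h : ∀ p q, p < q → (a (σ p)).re < (a (σ q)).re) :
    srt a = σ := srt_eq fun p q hpq => lex_lt.2 (Or.inl (h p q hpq))

theorem srt_lexNN (a : Cf) {p q : Fin 4} (h : p ≤ q) : LexNN (a (srt a q) - a (srt a p)) :=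
  lex_le.1 (srt_mono a h)

/-- Points whose positions are not neighbours are different. -/
theorem srt_far {a : Cf} (h : NoTriple a) {p l q : Fin 4} (h1 : p < l) (h2 : l < q) :
    a (srt a q) - a (srt a p) ≠ 0 := fun e => by
  have e0 := sub_eq_zero.1 e
  have e1 : a (srt a p) = a (srt a l) := lex_inj.1 (le_antisymm (srt_mono a h1.le)
    ((srt_mono a h2.le).trans_eq (congrArg lex e0)))
  exact h _ _ _ ((srt a).injective.ne h1.ne) ((srt a).injective.ne h2.ne)
    ((srt a).injective.ne (h1.trans h2).ne) ⟨e1, e1.symm.trans e0.symm⟩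

theorem srt_adj {a : Cf} (h : NoTriple a) {i j : Fin 4} (hij : (srt a)⁻¹ i < (srt a)⁻¹ j)
    (e : a i = a j) : ∃ p : Fin 3, i = srt a p.castSucc ∧ j = srt a p.succ := by
  obtain ⟨p, rfl⟩ := (srt a).surjective i
  obtain ⟨q, rfl⟩ := (srt a).surjective j
  simp only [Perm.coe_inv, symm_apply_apply] at hij
  have : ∀ p q : Fin 4, p < q → (∀ l, p < l → ¬ l < q) →
      ∃ t : Fin 3, p = t.castSucc ∧ q = t.succ := by decide
  obtain ⟨t, rfl, rfl⟩ := this p q hij fun l h1 h2 => srt_far h h1 h2 (sub_eq_zero.2 e.symm)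
  exact ⟨t, rfl, rfl⟩

variable {k : ℕ}

theorem pos_sub (y : Y k) (i j : Fin 4) : pos y j - pos y i = y.1 i j ^ k :=
  sub_eq_iff_eq_add'.2 (y.2.2.1 0 i j).symm

theorem pos_eq_iff (hk : Odd k) (y : Y k) (i j : Fin 4) : pos y i = pos y j ↔ y.1 i j = 0 := by
  rw [eq_comm, ← sub_eq_zero, pos_sub, pow_eq_zero_iff hk.pos.ne']

theorem root_self (y : Y k) (i : Fin 4) : y.1 i i = 0 := by
  linear_combination (y.2.1 i i) / 2

theorem pos_zero (hk : Odd k) (y : Y k) : pos y 0 = 0 := by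
  rw [pos, root_self, zero_pow hk.pos.ne']

theorem noTriple_pos (hk : Odd k) (y : Y k) : NoTriple (pos y) := fun i j l a b c e =>
  y.2.2.2 i j l a b c ⟨(pos_eq_iff hk y i j).1 e.1, (pos_eq_iff hk y j l).1 e.2⟩

theorem rt_pow (y y' : Y k) (p : Fin 3) :
    rt y y' p ^ k = pos y' (sg y p.succ) - pos y' (sg y p.castSucc) := (pos_sub _ _ _).symm

theorem dd_eq (y : Y k) (p : Fin 3) : dd y p = pos y (sg y p.succ) - pos y (sg y p.castSucc) :=
  rt_pow y y p

theorem dd_eq_zero (hk : Odd k) (y : Y k) (p : Fin 3) : dd y p = 0 ↔ rt y y p = 0 :=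
  pow_eq_zero_iff hk.pos.ne'

theorem dd_eq_zero' (y : Y k) (p : Fin 3) :
    dd y p = 0 ↔ pos y (sg y p.castSucc) = pos y (sg y p.succ) := by
  rw [dd_eq, sub_eq_zero, eq_comm]

theorem sg_lexNN (y : Y k) {p q : Fin 4} (h : p ≤ q) : LexNN (pos y (sg y q) - pos y (sg y p)) :=
  srt_lexNN _ h

/-- Far pairs. -/
theorem sg_far (hk : Odd k) (y : Y k) {p q : Fin 4} (h : p.val + 1 < q.val) :
    LexNN (pos y (sg y q) - pos y (sg y p)) ∧ pos y (sg y q) - pos y (sg y p) ≠ 0 :=
  ⟨sg_lexNN y (Fin.le_def.2 (by omega)), srt_far (noTriple_pos hk y) (l := ⟨p.val + 1, by omega⟩)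
    (Fin.lt_def.2 (Nat.lt_succ_self _)) (Fin.lt_def.2 h)⟩

theorem adm_dd (hk : Odd k) (y : Y k) : Adm (dd y) := by
  refine ⟨fun p => dd_eq y p ▸ sg_lexNN y Fin.castSucc_lt_succ.le, fun e => ?_, fun e => ?_⟩
  · exact (sg_far hk y (p := 0) (q := 2) (by decide)).2 (sub_eq_zero.2
      (((dd_eq_zero' y 0).1 e.1).trans ((dd_eq_zero' y 1).1 e.2)).symm)
  · exact (sg_far hk y (p := 1) (q := 3) (by decide)).2 (sub_eq_zero.2
      (((dd_eq_zero' y 1).1 e.1).trans ((dd_eq_zero' y 2).1 e.2)).symm)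

theorem zeta_self (hk : Odd k) (y : Y k) : zeta y y = dd y := by
  funext p
  rw [zeta]
  split_ifs with h
  · rw [h, (dd_eq_zero hk y p).1 h]
  · rfl

theorem pw_zeta (y y' : Y k) : pw k (dd y) (zeta y y') = fun p => rt y y' p ^ k := by
  funext p
  rw [pw, zeta]
  split_ifs <;> rfl

theorem pos_sg (y y' : Y k) :
    pos y' ∘ sg y = fun i => cfg (pw k (dd y) (zeta y y')) i + pos y' (sg y 0) := by
  funext i
  rw [pw_zeta]
  fin_cases i <;> simp [cfg, rt_pow]

theorem pos_sg_self (y : Y k) : pos y ∘ sg y = fun i => cfg (dd y) i + pos y (sg y 0) := by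
  rw [pos_sg, pw_zeta]
  rfl

theorem cont_root (i j : Fin 4) : Continuous fun y : Y k => y.1 i j :=
  (continuous_apply j).comp ((continuous_apply i).comp continuous_subtype_val)

theorem cont_pos : Continuous (pos : Y k → Cf) := continuous_pi fun i => (cont_root 0 i).pow k

theorem cont_pos_apply (i : Fin 4) : Continuous fun y : Y k => pos y i := (cont_root 0 i).pow k

theorem cont_rt (y : Y k) (p : Fin 3) : Continuous fun y' => rt y y' p := cont_root _ _

theorem cont_zeta (y : Y k) : Continuous (zeta y) := continuous_pi fun p => by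
  unfold zeta
  split_ifs
  exacts [cont_rt y p, (cont_rt y p).pow k]

/-- Strict inequalities between real parts and between imaginary parts persist. -/
theorem ev_lt (y : Y k) : ∀ᶠ y' in 𝓝 y, ∀ i j,
    ((pos y i).re < (pos y j).re → (pos y' i).re < (pos y' j).re) ∧
    ((pos y i).im < (pos y j).im → (pos y' i).im < (pos y' j).im) := by
  simp only [eventually_all, eventually_and]
  exact fun i j => ⟨fun h => (continuous_re.comp (cont_pos_apply i)).continuousAt.eventually_lt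
    (continuous_re.comp (cont_pos_apply j)).continuousAt h,
    fun h => (continuous_im.comp (cont_pos_apply i)).continuousAt.eventually_lt
    (continuous_im.comp (cont_pos_apply j)).continuousAt h⟩

theorem ev_ne (y : Y k) : ∀ᶠ y' in 𝓝 y, ∀ i j, pos y i ≠ pos y j → pos y' i ≠ pos y' j := by
  simp only [eventually_all]
  exact fun i j h =>
    ((cont_pos_apply i).continuousAt.ne_iff_eventually_ne (cont_pos_apply j).continuousAt).1 h

end Pool.Agent.BP.F
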