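import Pool.Agent.Lib.MP_0c623d_al.F.Defs

/-! Block F8: the orthogonal splitting at the base point. -/

namespace Pool.Agent.BP.F

open Complex Set Filter Topology Matrix

namespace Spl

theorem hh_add_left (Hm : Mat) (u v w : V) : hh Hm (u + v) w = hh Hm u w + hh Hm v w := by
  simp [hh, add_dotProduct]

theorem hh_add_right (Hm : Mat) (u v w : V) : hh Hm u (v + w) = hh Hm u v + hh Hm u w := by
  simp [hh, mulVec_add, dotProduct_add]

theorem hh_smul_left (Hm : Mat) (c : ℂ) (v w : V) : hh Hm (c • v) w = star c * hh Hm v w := by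
  simp [hh, smul_dotProduct]

theorem hh_smul_right (Hm : Mat) (c : ℂ) (v w : V) : hh Hm v (c • w) = c * hh Hm v w := by
  simp [hh, mulVec_smul, dotProduct_smul]

theorem hh_zero_right (Hm : Mat) (v : V) : hh Hm v 0 = 0 := by simp [hh]

theorem hh_conj {Hm : Mat} (h : Hm.IsHermitian) (v w : V) : hh Hm w v = star (hh Hm v w) := by
  unfold hh
  rw [dotProduct_mulVec, star_dotProduct, star_star, star_mulVec, h.eq]

/-- The linear map `cfg`. -/
noncomputable def cfgL : E3 →L[ℂ] Cf :=
  LinearMap.toContinuousLinearMap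
    { toFun := cfg
      map_add' := fun u v => by
        funext i
        fin_cases i <;> simp [cfg] <;> ring
      map_smul' := fun c v => by
        funext i
        fin_cases i <;> simp [cfg] <;> ring }

theorem cfgL_apply (d : E3) : cfgL d = cfg d := rfl

theorem cfg_d1 : cfg d1 = b0 := by
  funext i
  fin_cases i <;> simp [cfg, d1, b0] <;> norm_num

theorem d1_ne (p : Fin 3) : d1 p ≠ 0 := by
  fin_cases p <;> simp [d1]

theorem adm_d1 : Adm d1 := by
  refine ⟨fun p => Or.inl ?_, fun h => d1_ne _ h.1, fun h => d1_ne _ h.1⟩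
  fin_cases p <;> simp [d1]

theorem b0_mem : b0 ∈ Om := by
  intro i j hij
  refine Or.inl ?_
  fin_cases i <;> fin_cases j <;> first | (simp at hij; done) | (simp [b0]; try norm_num)

/-- The abstract splitting. -/
theorem split_of {Hm : Mat} (hH : Hm.IsHermitian) {w : V} {D : E3 →L[ℂ] V}
    (hs : Spacelike Hm w D) {v0 : E3} (hv0 : D v0 = w) {U : Submodule ℂ V}
    (hU : Module.finrank ℂ U = 3) (hp : ∀ u ∈ U, u ≠ 0 → 0 < (hh Hm u u).re)
    (ho : ∀ u ∈ U, ∀ v, hh Hm u (D v) = 0) : ∃ P N, Split Hm P N ∧ w ∈ P := by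
  have hww : hh Hm w w ≠ 0 := fun e => by
    have := hs.1
    rw [e] at this
    simp at this
  have hw0 : w ≠ 0 := fun e => hww (by rw [e]; exact hh_zero_right _ _)
  let φ : E3 →ₗ[ℂ] ℂ :=
    { toFun := fun v => hh Hm w (D v)
      map_add' := fun u v => by rw [map_add, hh_add_right]
      map_smul' := fun c v => by rw [map_smul, hh_smul_right]; rfl }
  have hφ : ∀ v, φ v = hh Hm w (D v) := fun _ => rfl
  have hφ0 : φ ≠ 0 := fun e => hww (by rw [← hv0]; nth_rewrite 1 [hv0]; rw [← hφ, e]; rfl)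
  have hker : Module.finrank ℂ (LinearMap.ker φ) = 2 := by
    have h1 := LinearMap.finrank_range_add_finrank_ker φ
    have h2 : LinearMap.range φ = ⊤ := by
      rcases eq_bot_or_eq_top (LinearMap.range φ) with h | h
      · exact (hφ0 (LinearMap.range_eq_bot.1 h)).elim
      · exact h
    rw [h2] at h1
    simp at h1
    omega
  let N : Submodule ℂ V := (LinearMap.ker φ).map (D : E3 →ₗ[ℂ] V)
  have hneg : ∀ v ∈ N, v ≠ 0 → (hh Hm v v).re < 0 := by
    rintro _ ⟨v, hv, rfl⟩ h0
    exact hs.2 v (fun e => h0 (by rw [e, map_zero])) hv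
  have hN : Module.finrank ℂ N = 2 := by
    rw [← hker]
    have hinj : Function.Injective ((D : E3 →ₗ[ℂ] V).domRestrict (LinearMap.ker φ)) := by
      refine (injective_iff_map_eq_zero _).2 fun v hv => ?_
      by_contra h0
      have := hs.2 v.1 (fun e => h0 (Subtype.ext e)) v.2
      have hv' : D v.1 = 0 := hv
      rw [hv', hh_zero_right] at this
      simp at this
    have := LinearMap.finrank_range_of_inj hinj
    rw [LinearMap.range_domRestrict] at this
    exact this
  let P : Submodule ℂ V := (ℂ ∙ w) ⊔ U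
  have huw : ∀ u ∈ U, hh Hm u w = 0 := fun u hu => by rw [← hv0]; exact ho u hu v0
  have hwu : ∀ u ∈ U, hh Hm w u = 0 := fun u hu => by rw [hh_conj hH, huw u hu, star_zero]
  have hmem : ∀ v ∈ P, ∃ c : ℂ, ∃ u ∈ U, v = c • w + u := fun v hv => by
    obtain ⟨x, hx, u, hu, rfl⟩ := Submodule.mem_sup.1 hv
    obtain ⟨c, rfl⟩ := Submodule.mem_span_singleton.1 hx
    exact ⟨c, u, hu, rfl⟩
  have hpos : ∀ v ∈ P, v ≠ 0 → 0 < (hh Hm v v).re := by
    intro v hv h0
    obtain ⟨c, u, hu, rfl⟩ := hmem v hv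
    have e : hh Hm (c • w + u) (c • w + u) = (normSq c : ℝ) * hh Hm w w + hh Hm u u := by
      rw [hh_add_left, hh_add_right, hh_add_right, hh_smul_left, hh_smul_left, hh_smul_right,
        hh_smul_right, huw u hu, hwu u hu, normSq_eq_conj_mul_self]
      simp only [mul_zero, add_zero, zero_add, RCLike.star_def]
      ring
    rw [e, add_re, re_ofReal_mul]
    have h1 : 0 ≤ normSq c * (hh Hm w w).re := mul_nonneg (normSq_nonneg c) hs.1.le
    by_cases hu0 : u = 0
    · have hc : c ≠ 0 := fun e => h0 (by rw [e, hu0]; simp)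
      have := mul_pos (normSq_pos.2 hc) hs.1
      rw [hu0, hh_zero_right]
      simpa using this
    · linarith [hp u hu hu0]
  have hP : Module.finrank ℂ P = 4 := by
    have hd : (ℂ ∙ w) ⊓ U = ⊥ := by
      refine (Submodule.eq_bot_iff _).2 fun x hx => ?_
      obtain ⟨c, rfl⟩ := Submodule.mem_span_singleton.1 hx.1
      have := hwu _ hx.2
      rw [hh_smul_right] at this
      rcases mul_eq_zero.1 this with h | h
      · rw [h, zero_smul]
      · exact (hww h).elim
    have := Submodule.finrank_sup_add_finrank_inf_eq (ℂ ∙ w) U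
    rw [hd, finrank_bot, finrank_span_singleton hw0, hU] at this
    exact this
  have hdis : Disjoint P N := by
    refine Submodule.disjoint_def.2 fun x hx hx' => ?_
    by_contra h0
    linarith [hpos x hx h0, hneg x hx' h0]
  refine ⟨P, N, ⟨⟨hdis, ?_⟩, hN, hpos, hneg, ?_⟩,
    Submodule.mem_sup_left (Submodule.mem_span_singleton_self w)⟩
  · refine codisjoint_iff.2 (Submodule.eq_top_of_finrank_eq ?_)
    have := Submodule.finrank_sup_add_finrank_inf_eq P N
    rw [hdis.eq_bot, finrank_bot, hP, hN] at this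
    simpa using this
  · rintro x hx _ ⟨v, hv, rfl⟩
    obtain ⟨c, u, hu, rfl⟩ := hmem x hx
    have hv' : hh Hm w (D v) = 0 := hv
    change hh Hm _ (D v) = 0
    rw [hh_add_left, hh_smul_left, hv', ho u hu v]
    simp

end Spl

open Spl

/-- Near the base point the chart function is `W ∘ cfg`. -/
theorem G_d1_ev {k : ℕ} (A : AN k) : A.G d1 =ᶠ[𝓝 d1] fun ζ => A.W (cfg ζ) := by
  filter_upwards [(A.G_spec adm_d1).2.1] with ζ h
  rw [h fun p hp => (d1_ne p hp).elim]
  congr 2
  funext p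
  simp [pw, d1_ne p]

theorem G_d1 {k : ℕ} (A : AN k) : A.G d1 d1 = A.W b0 := by
  rw [(G_d1_ev A).self_of_nhds, ← cfg_d1]

theorem fderiv_G_d1 {k : ℕ} (A : AN k) (v : E3) :
    fderiv ℂ (A.G d1) d1 v = fderiv ℂ A.W b0 (cfg v) := by
  have h : HasFDerivAt A.W (fderiv ℂ A.W b0) (cfgL d1) := by
    rw [cfgL_apply, cfg_d1]
    exact (A.an b0 b0_mem).differentiableAt.hasFDerivAt
  rw [(G_d1_ev A).fderiv_eq]
  exact congrArg (fun L : E3 →L[ℂ] V => L v) (h.comp d1 cfgL.hasFDerivAt).fderiv

/-- The splitting at the base point. -/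
theorem split {k : ℕ} (A : AN k) : ∃ P N, Split A.Hm P N ∧ A.G d1 d1 ∈ P := by
  obtain ⟨U, h1, h2, h3⟩ := A.sig
  have hd : (A.del : ℂ) ≠ 0 := ofReal_ne_zero.2 A.del_ne
  refine split_of A.herm (A.G_spec adm_d1).2.2 (v0 := (A.del : ℂ)⁻¹ • d1) ?_ h1 h2 fun u hu v => ?_
  · rw [map_smul, fderiv_G_d1, cfg_d1, A.euler b0 b0_mem, smul_smul, inv_mul_cancel₀ hd, one_smul,
      G_d1]
  · rw [fderiv_G_d1]
    exact h3 u hu _

end Pool.Agent.BP.F
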