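import Pool.Agent.Lib.MP_0c623d_al.F.Defs

set_option autoImplicit false

/-! Block F: continuation of the period map through the walls. -/

namespace Pool.Agent.BP.F

open Complex Set Filter Topology Matrix

theorem slit_of_im {z w : ℂ} (h : z.im ≠ w.im) : w - z ∈ slitPlane :=
  Or.inr (by simpa [sub_eq_zero] using h.symm)

theorem slit_add {z : ℂ} (h : z ∈ slitPlane) {t : ℝ} (ht : 0 ≤ t) : z + t ∈ slitPlane := by
  rcases h with h | h
  · exact Or.inl (by simp only [add_re, ofReal_re]; linarith)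
  · exact Or.inr (by simpa using h)

theorem isOpen_Om : IsOpen Om := by
  have : Om = ⋂ i : Fin 4, ⋂ j : Fin 4, ⋂ _ : i < j,
      (fun b : Cf => b j - b i) ⁻¹' slitPlane := by
    ext b
    simp [Om]
  rw [this]
  exact isOpen_iInter_of_finite fun i => isOpen_iInter_of_finite fun j =>
    isOpen_iInter_of_finite fun _ => isOpen_slitPlane.preimage (by fun_prop)

theorem Ch_sub_Om' : Ch ⊆ Om := fun _ hb i j hij => Or.inl (by simpa using hb i j hij)

theorem b0_Ch : b0 ∈ Ch := by
  intro i j hij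
  fin_cases i <;> fin_cases j <;> simp [b0] at hij ⊢
  norm_num

theorem b0_Om : b0 ∈ Om := Ch_sub_Om' b0_Ch

theorem star_Om : StarConvex ℝ b0 Om := by
  intro b hb s t hs ht hst i j hij
  have h0 := b0_Ch i j hij
  have h1 : ∀ i, (b0 i).im = 0 := fun i => by fin_cases i <;> simp [b0]
  rcases ht.eq_or_lt with rfl | ht
  · obtain rfl : s = 1 := by linarith
    simpa using b0_Om i j hij
  rcases hb i j hij with h | h
  · refine Or.inl ?_
    simp only [Pi.add_apply, Pi.smul_apply, sub_re, add_re, smul_re, smul_eq_mul] at h ⊢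
    nlinarith [mul_nonneg hs (sub_pos.2 h0).le, mul_pos ht h]
  · refine Or.inr ?_
    simp only [Pi.add_apply, Pi.smul_apply, sub_im, add_im, smul_im, smul_eq_mul, h1] at h ⊢
    intro e
    exact mul_ne_zero ht.ne' h (by linarith)

theorem preconn_Om : IsPreconnected Om := (star_Om.isPathConnected b0_Om).isConnected.isPreconnected

theorem sw_lt : ∀ (p : Fin 3) (i j : Fin 4), i < j → ¬ (i = p.castSucc ∧ j = p.succ) →
    sw p i < sw p j ∧ ¬ (sw p i = p.castSucc ∧ sw p j = p.succ) := by decide +kernel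

theorem sw_cast (p : Fin 3) : sw p p.castSucc = p.succ := Equiv.swap_apply_left _ _

theorem sw_succ (p : Fin 3) : sw p p.succ = p.castSucc := Equiv.swap_apply_right _ _

theorem sw_sw (p : Fin 3) : sw p * sw p = 1 := Equiv.swap_mul_self _ _

theorem sw_inv (p : Fin 3) : (sw p)⁻¹ = sw p := Equiv.swap_inv _ _

theorem an_comp (π : P4) (b : Cf) : AnalyticAt ℂ (fun b : Cf => b ∘ π) b :=
  analyticAt_pi_iff.2 fun i => (ContinuousLinearMap.proj (R := ℂ) (φ := fun _ : Fin 4 => ℂ)
    (π i)).analyticAt b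

theorem an_mulVec (B : Mat) (v : V) : AnalyticAt ℂ (fun v : V => B *ᵥ v) v :=
  (LinearMap.toContinuousLinearMap (mulVecLin B)).analyticAt v

variable {k : ℕ}

/-- The wall identity on the whole domain where both sides are defined by one crossing. -/
theorem wall_ext (A : AN k) (p : Fin 3) (b : Cf) (h : (b p.castSucc).im < (b p.succ).im)
    (ho : ∀ i j : Fin 4, i < j → ¬ (i = p.castSucc ∧ j = p.succ) → b j - b i ∈ slitPlane) :
    A.W b = A.R p *ᵥ A.W (b ∘ sw p) := by
  obtain ⟨c, hc0, hc⟩ : ∃ c : Fin 4 → ℝ, c p.castSucc = c p.succ ∧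
      ∀ i j : Fin 4, i < j → ¬ (i = p.castSucc ∧ j = p.succ) → c i + 1 ≤ c j := by
    refine ⟨fun i => ((if i ≤ p.castSucc then i else i - 1 : ℤ) : ℝ), ?_, fun i j hij hn => ?_⟩
    · have : ∀ p : Fin 3, (if p.castSucc ≤ p.castSucc then p.castSucc else p.castSucc - 1 : ℤ) =
          if p.succ ≤ p.castSucc then (p.succ : ℤ) else p.succ - 1 := by decide +kernel
      simp only [this]
    · have : ∀ (p : Fin 3) (i j : Fin 4), i < j → ¬ (i = p.castSucc ∧ j = p.succ) →
          (if i ≤ p.castSucc then i else i - 1 : ℤ) + 1 ≤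
            if j ≤ p.castSucc then (j : ℤ) else j - 1 := by decide +kernel
      have h := (Int.cast_le (R := ℝ)).2 (this p i j hij hn)
      rwa [Int.cast_add, Int.cast_one] at h
  obtain ⟨f, hf⟩ : ∃ f : ℝ → Cf, f = fun t i => b i + (t * c i : ℝ) := ⟨_, rfl⟩
  have fc : Continuous f := by rw [hf]; fun_prop
  have f1 : ∀ t, (f t p.castSucc).im < (f t p.succ).im := fun t => by simpa [hf] using h
  have f2 : ∀ t ∈ Ici (0 : ℝ), ∀ i j : Fin 4, i < j → ¬ (i = p.castSucc ∧ j = p.succ) →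
      f t j - f t i ∈ slitPlane := fun t ht i j hij hn => by
    have := slit_add (ho i j hij hn) (t := t * (c j - c i))
      (mul_nonneg ht (by linarith [hc i j hij hn]))
    convert this using 1
    simp only [hf]
    push_cast
    ring
  have g1 : ∀ t ∈ Ici (0 : ℝ), f t ∈ Om := fun t ht i j hij => by
    by_cases hn : i = p.castSucc ∧ j = p.succ
    · rw [hn.1, hn.2]
      exact slit_of_im (f1 t).ne
    · exact f2 t ht i j hij hn
  have g2 : ∀ t ∈ Ici (0 : ℝ), f t ∘ sw p ∈ Om := fun t ht i j hij => by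
    by_cases hn : i = p.castSucc ∧ j = p.succ
    · simp only [hn.1, hn.2, Function.comp, sw_cast, sw_succ]
      exact slit_of_im (f1 t).ne'
    · exact f2 t ht _ _ (sw_lt p i j hij hn).1 (sw_lt p i j hij hn).2
  obtain ⟨T, hT⟩ : ∃ T : ℝ, T = 2 * ‖b‖ + 1 := ⟨_, rfl⟩
  have T0 : 0 ≤ T := by rw [hT]; positivity
  have hev : ∀ᶠ x in 𝓝 (f T), (x p.castSucc).im < (x p.succ).im ∧ ∀ i j : Fin 4, i < j →
      ¬ (i = p.castSucc ∧ j = p.succ) → (x i).re < (x j).re := by
    refine (ContinuousAt.eventually_lt (Continuous.continuousAt (by fun_prop))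
      (Continuous.continuousAt (by fun_prop)) (f1 T)).and ?_
    simp only [eventually_all]
    intro i j hij hn
    refine ContinuousAt.eventually_lt (Continuous.continuousAt (by fun_prop))
      (Continuous.continuousAt (by fun_prop)) ?_
    have a1 := (abs_le.1 ((abs_re_le_norm (b i)).trans (norm_le_pi_norm b i))).2
    have a2 := (abs_le.1 ((abs_re_le_norm (b j)).trans (norm_le_pi_norm b j))).1
    have a3 := mul_le_mul_of_nonneg_left (hc i j hij hn) T0
    simp only [hf, add_re, ofReal_re]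
    linarith
  have key := AnalyticOnNhd.eqOn_of_preconnected_of_eventuallyEq (𝕜 := ℂ) (f := A.W)
    (g := fun x => A.R p *ᵥ A.W (x ∘ sw p)) (U := f '' Ici 0)
    (by rintro _ ⟨t, ht, rfl⟩; exact A.an _ (g1 t ht))
    (by
      rintro _ ⟨t, ht, rfl⟩
      exact (an_mulVec _ _).fun_comp ((A.an _ (g2 t ht)).fun_comp (f := fun b : Cf => b ∘ sw p)
        (an_comp _ _)))
    (isPreconnected_Ici.image f fc.continuousOn) ⟨T, T0, rfl⟩
    (hev.mono fun x hx => A.wall p x hx.1 hx.2)
  exact key ⟨0, self_mem_Ici, by funext i; simp [hf]⟩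

/-- One step of the continuation along a permutation. -/
theorem wall_step (A : AN k) (c : Cf) (u : P4) (i : Fin 3)
    (h0 : (c (u i.castSucc)).im < (c (u i.succ)).im) (hc : c ∈ Om)
    (h1 : ∀ x y, x < y → u⁻¹ y < u⁻¹ x → (c x).im < (c y).im) :
    A.W (c ∘ u) = A.R i *ᵥ A.W (c ∘ (u * sw i : P4)) := by
  refine wall_ext A i (c ∘ u) h0 fun p q hpq _ => ?_
  rcases lt_trichotomy (u p) (u q) with h | h | h
  · exact hc _ _ h
  · exact absurd (u.injective h) hpq.ne
  · exact slit_of_im (h1 _ _ h (by simpa using hpq)).ne'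

variable {H : Type} [Group H]

theorem wlift' (A : AN k) {s : Fin 3 → H} {ρ : H →* Matˣ} (hs : Br s) (h : A.Rep s ρ) {c : Cf}
    (hc : c ∈ Om) : ∀ (n : ℕ) (π : P4), (wd 6 π).length ≤ n →
      (∀ x y, x < y → π⁻¹ y < π⁻¹ x → (c x).im < (c y).im) →
      A.W c = (ρ (r s π) : Mat) *ᵥ A.W (c ∘ π) := by
  intro n
  induction n using Nat.strong_induction_on with
  | _ n ih =>
  intro π hn h1
  by_cases hπ : π = 1
  · subst hπ
    simp [r_one]
  obtain ⟨i, hi, hl⟩ := exists_desc π hπ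
  obtain ⟨u, hu⟩ : ∃ u, u = π * sw i := ⟨_, rfl⟩
  rw [← hu] at hi hl
  have e : π = u * sw i := by rw [hu, mul_assoc, sw_sw, mul_one]
  have h2 : ∀ x y, x < y → u⁻¹ y < u⁻¹ x → (c x).im < (c y).im := fun x y hxy hyx => by
    refine h1 x y hxy ?_
    rw [e, _root_.mul_inv_rev, sw_inv]
    refine (sw_lt i _ _ hyx fun hn => ?_).1
    rw [← hn.1, ← hn.2] at hi
    simp only [Equiv.Perm.coe_inv, Equiv.apply_symm_apply] at hi
    exact lt_asymm hi hxy
  have h3 : (c (u i.castSucc)).im < (c (u i.succ)).im := h1 _ _ hi (by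
    rw [e, _root_.mul_inv_rev, sw_inv]
    simp [sw_cast, sw_succ])
  rw [ih _ (hl.trans_le hn) u le_rfl h2, wall_step A c u i h3 hc h2, e, r_mul_sw hs hi, map_mul,
    Units.val_mul, h i, mulVec_mulVec]

/-- Continuation along the positive lift of a permutation. -/
theorem wlift (A : AN k) {s : Fin 3 → H} {ρ : H →* Matˣ} (hs : Br s) (h : A.Rep s ρ) (c : Cf)
    (π : P4) (h1 : ∀ x y, x < y → π⁻¹ y < π⁻¹ x → (c x).im < (c y).im)
    (h2 : ∀ x y, x < y → π⁻¹ x < π⁻¹ y → c y - c x ∈ slitPlane) :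
    A.W c = (ρ (r s π) : Mat) *ᵥ A.W (c ∘ π) := by
  refine wlift' A hs h (fun x y hxy => ?_) _ π le_rfl h1
  rcases lt_trichotomy (π⁻¹ x) (π⁻¹ y) with e | e | e
  · exact h2 x y hxy e
  · exact absurd (π⁻¹.injective e) hxy.ne
  · exact slit_of_im (h1 x y hxy e).ne

/-- A matrix that kills the germ of the period map is zero. -/
theorem mat_zero (A : AN k) (B : Mat) {b : Cf} (hb : b ∈ Om)
    (h : ∀ᶠ x in 𝓝 b, B *ᵥ A.W x = 0) : B = 0 := by
  have key := AnalyticOnNhd.eqOn_zero_of_preconnected_of_eventuallyEq_zero (𝕜 := ℂ)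
    (f := fun x => B *ᵥ A.W x) (U := Om)
    (fun x hx => (an_mulVec _ _).fun_comp (A.an x hx)) preconn_Om hb h
  have : LinearMap.ker (mulVecLin B) = ⊤ := by
    rw [eq_top_iff, ← A.span, Submodule.span_le]
    rintro _ ⟨x, hx, rfl⟩
    exact key hx
  exact toLin'.map_eq_zero_iff.1 (LinearMap.ker_eq_top.1 this)

theorem mat_ext (A : AN k) {B B' : Mat} {b : Cf} (hb : b ∈ Om)
    (h : ∀ᶠ x in 𝓝 b, B *ᵥ A.W x = B' *ᵥ A.W x) : B = B' :=
  sub_eq_zero.1 (mat_zero A _ hb (h.mono fun x hx => by rw [sub_mulVec, hx, sub_self]))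

/-- Two words of wall matrices agree if they agree on configurations on a rising curve. -/
theorem mat_rel (A : AN k) {B B' : Mat} (π : P4)
    (h : ∀ c : Cf, (StrictMono fun i => (c i).im) → B *ᵥ A.W (c ∘ π) = B' *ᵥ A.W (c ∘ π)) :
    B = B' := by
  refine mat_ext A (b := fun i => ((π i : ℕ) : ℝ) * I) (fun i j hij => slit_of_im ?_) ?_
  · simpa [Fin.val_inj] using hij.ne
  · have hev : ∀ᶠ x : Cf in 𝓝 fun i => ((π i : ℕ) : ℝ) * I, ∀ i j : Fin 4, i < j →
        (x (π⁻¹ i)).im < (x (π⁻¹ j)).im := by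
      simp only [eventually_all]
      intro i j hij
      refine ContinuousAt.eventually_lt (Continuous.continuousAt (by fun_prop))
        (Continuous.continuousAt (by fun_prop)) ?_
      simpa using hij
    filter_upwards [hev] with x hx
    have := h (x ∘ (π⁻¹ : P4)) hx
    rwa [show (x ∘ (π⁻¹ : P4)) ∘ π = x by funext i; simp] at this

theorem step_im (A : AN k) {c : Cf} (hc : StrictMono fun i => (c i).im) (u : P4) (i : Fin 3)
    (h : u i.castSucc < u i.succ) : A.W (c ∘ u) = A.R i *ᵥ A.W (c ∘ (u * sw i : P4)) :=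
  wall_step A c u i (hc h) (fun _ _ e => slit_of_im (hc e).ne) fun _ _ e _ => hc e

theorem rel01 (A : AN k) : A.R 0 * A.R 1 * A.R 0 = A.R 1 * A.R 0 * A.R 1 := by
  refine mat_rel A (1 * sw 0 * sw 1 * sw 0) fun c hc => ?_
  simp only [← mulVec_mulVec]
  rw [← step_im A hc _ 0 (by decide +kernel), ← step_im A hc _ 1 (by decide +kernel),
    ← step_im A hc _ 0 (by decide +kernel),
    show 1 * sw 0 * sw 1 * sw 0 = 1 * sw 1 * sw 0 * sw 1 by decide +kernel,
    ← step_im A hc _ 1 (by decide +kernel), ← step_im A hc _ 0 (by decide +kernel),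
    ← step_im A hc _ 1 (by decide +kernel)]

theorem rel12 (A : AN k) : A.R 1 * A.R 2 * A.R 1 = A.R 2 * A.R 1 * A.R 2 := by
  refine mat_rel A (1 * sw 1 * sw 2 * sw 1) fun c hc => ?_
  simp only [← mulVec_mulVec]
  rw [← step_im A hc _ 1 (by decide +kernel), ← step_im A hc _ 2 (by decide +kernel),
    ← step_im A hc _ 1 (by decide +kernel),
    show 1 * sw 1 * sw 2 * sw 1 = 1 * sw 2 * sw 1 * sw 2 by decide +kernel,
    ← step_im A hc _ 2 (by decide +kernel), ← step_im A hc _ 1 (by decide +kernel),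
    ← step_im A hc _ 2 (by decide +kernel)]

theorem rel02 (A : AN k) : A.R 0 * A.R 2 = A.R 2 * A.R 0 := by
  refine mat_rel A (1 * sw 0 * sw 2) fun c hc => ?_
  simp only [← mulVec_mulVec]
  rw [← step_im A hc _ 2 (by decide +kernel), ← step_im A hc _ 0 (by decide +kernel),
    show 1 * sw 0 * sw 2 = 1 * sw 2 * sw 0 by decide +kernel,
    ← step_im A hc _ 0 (by decide +kernel), ← step_im A hc _ 2 (by decide +kernel)]

theorem hh_R (A : AN k) (p : Fin 3) (v w : V) :
    hh A.Hm (A.R p *ᵥ v) (A.R p *ᵥ w) = hh A.Hm v w := by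
  conv_rhs => rw [← A.unit p]
  simp only [hh, star_mulVec, ← mulVec_mulVec, dotProduct_mulVec]

/-- The representation is unitary. -/
theorem uni (A : AN k) {s : Fin 3 → H} {ρ : H →* Matˣ} (hs : Subgroup.closure (range s) = ⊤)
    (h : A.Rep s ρ) : A.Uni ρ := by
  intro g
  have hg : g ∈ Subgroup.closure (range s) := hs ▸ Subgroup.mem_top g
  induction hg using Subgroup.closure_induction with
  | mem x hx =>
    obtain ⟨p, rfl⟩ := hx
    rw [h p]
    exact hh_R A p
  | one => simp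
  | mul x y _ _ hx hy =>
    intro v w
    rw [map_mul, Units.val_mul, ← mulVec_mulVec, ← mulVec_mulVec, hx, hy]
  | inv x _ hx =>
    intro v w
    rw [← hx, mulVec_mulVec, mulVec_mulVec, ← Units.val_mul, ← map_mul, mul_inv_cancel]
    simp

end Pool.Agent.BP.F
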