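import Pool.Agent.Lib.MP_0c623d_al.F.Defs
import Pool.Agent.Lib.MP_0c623d_al.G.EndB

/-! From the analytic interface to the residual finiteness statement. -/

set_option autoImplicit false

namespace Pool.Agent.BP.F

open Pool.Agent.BP.G

theorem sep_of_AN (hM : MainStmt) (hR : RelStmt) {k : ℕ} (hk : Odd k) (A : AN k) :
    Sep (2 * k) := by
  obtain ⟨r1, r2, r3, r4⟩ := hR k hk A
  have k0 : 2 * k ≠ 0 := by have := hk.pos; omega
  let u : Fin 3 → Matˣ := fun p => Units.ofPowEqOne (A.R p) (2 * k) (r4 p) k0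
  have hb : Braid (u 0) (u 1) (u 2) := ⟨Units.ext r1, Units.ext r2, Units.ext r3⟩
  have hp : u 0 ^ (2 * k) = 1 := Units.pow_ofPowEqOne _ _
  have b := genB_braid (2 * k)
  let L : Lab k (Bm (2 * k)) := ⟨genB (2 * k), ⟨b.ab, b.bc, b.ac⟩, genB_pow_all _⟩
  have hρ : A.Rep L.s (liftB hb hp) := fun p => by
    show ((liftB hb hp (genB (2 * k) p) : Matˣ) : Mat) = _
    rw [liftB_gen]
    fin_cases p <;> rfl
  exact sep_of_matrix ((Units.coeHom Mat).comp (liftB hb hp)) fun g e =>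
    hM k hk A _ L (genB_closure _) _ hρ g (Units.ext e)

theorem fin (hM : MainStmt) (hR : RelStmt)
    (hA : ∀ k : ℕ, Odd k → 61 ≤ k → Nonempty (AN k)) :
    ¬ (∀ n : ℕ, 2 ≤ n → ∃ M : ℕ, ∀ m : ℕ, M ≤ m →
      ∃ g : FreeGroup (Fin n) ⧸ Subgroup.normalClosure
          {x : FreeGroup (Fin n) | ∃ b : FreeGroupBasis (Fin n) (FreeGroup (Fin n)),
            ∃ i : Fin n, x = (b i) ^ m},
        g ≠ 1 ∧
        ∀ H : Subgroup (FreeGroup (Fin n) ⧸ Subgroup.normalClosure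
          {x : FreeGroup (Fin n) | ∃ b : FreeGroupBasis (Fin n) (FreeGroup (Fin n)),
            ∃ i : Fin n, x = (b i) ^ m}),
          H.index ≠ 0 → g ∈ H) := by
  refine finalB fun M => ⟨2 * (6 * M + 63), by omega, by omega, ?_⟩
  have hk : Odd (6 * M + 63) := ⟨3 * M + 31, by ring⟩
  obtain ⟨A⟩ := hA _ hk (by omega)
  exact sep_of_AN hM hR hk A

end Pool.Agent.BP.F
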