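import Pool.Agent.Lib.MP_0c623d_al.F.Defs

/-! Euclidean coordinates for an orthogonal splitting. -/

namespace Pool.Agent.BP.F

open Complex Matrix

theorem ex_iso {W : Type} [AddCommGroup W] [Module ℂ W] [FiniteDimensional ℂ W] (f : W → W → ℂ)
    (h1 : ∀ x y, starRingEnd ℂ (f y x) = f x y) (h2 : ∀ x, x ≠ 0 → 0 < (f x x).re)
    (h3 : ∀ x y z, f (x + y) z = f x z + f y z)
    (h4 : ∀ x y (r : ℂ), f (r • x) y = starRingEnd ℂ r * f x y) {n : ℕ}
    (hn : Module.finrank ℂ W = n) :
    ∃ φ : W →ₗ[ℂ] EuclideanSpace ℂ (Fin n), ∀ u v, inner ℂ (φ u) (φ v) = f u v := by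
  have h0 : f 0 0 = 0 := by simpa using h4 0 0 0
  let c : InnerProductSpace.Core ℂ W :=
    { inner := f
      conj_inner_symm := h1
      re_inner_nonneg := fun x => by
        by_cases h : x = 0
        · simp [h, h0]
        · exact (h2 x h).le
      add_left := h3
      smul_left := h4
      definite := fun x h => by
        by_contra h'
        have := h2 x h'
        rw [show f x x = 0 from h] at this
        simp at this }
  letI := c.toNormedAddCommGroup
  letI : InnerProductSpace ℂ W := InnerProductSpace.ofCore c.toCore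
  exact ⟨((stdOrthonormalBasis ℂ W).reindex (finCongr hn)).repr.toLinearEquiv.toLinearMap,
    fun u v => ((stdOrthonormalBasis ℂ W).reindex (finCongr hn)).repr.inner_map_map u v⟩

namespace SplitEx

theorem add_l (Hm : Mat) (u v w : V) : hh Hm (u + v) w = hh Hm u w + hh Hm v w := by
  simp [hh, add_dotProduct]

theorem add_r (Hm : Mat) (u v w : V) : hh Hm u (v + w) = hh Hm u v + hh Hm u w := by
  simp [hh, mulVec_add, dotProduct_add]

theorem smul_l (Hm : Mat) (u v : V) (r : ℂ) : hh Hm (r • u) v = starRingEnd ℂ r * hh Hm u v := by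
  simp [hh]

theorem conj_hh {Hm : Mat} (hH : Hm.IsHermitian) (u v : V) :
    starRingEnd ℂ (hh Hm v u) = hh Hm u v := by
  rw [hh, hh, starRingEnd_apply, ← star_dotProduct_star, star_star, star_mulVec, hH.eq,
    dotProduct_comm, dotProduct_mulVec, dotProduct_comm]

end SplitEx

open SplitEx in
theorem split_ex {Hm : Mat} (hH : Hm.IsHermitian) {P N : Submodule ℂ V} (hs : Split Hm P N) :
    ∃ (al : V →L[ℂ] EuclideanSpace ℂ (Fin 6)) (be : V →L[ℂ] EuclideanSpace ℂ (Fin 2)),
      (∀ u v, hh Hm u v = inner ℂ (al u) (al v) - inner ℂ (be u) (be v)) ∧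
      (∀ v, be v = 0 ↔ v ∈ P) ∧ ∀ v, al v = 0 → be v = 0 → v = 0 := by
  obtain ⟨hc, hN, pP, pN, ho⟩ := hs
  let p : V →ₗ[ℂ] P := P.projectionOnto N hc
  let q : V →ₗ[ℂ] N := N.projectionOnto P hc.symm
  have e : ∀ v, (p v : V) + q v = v := fun v => Submodule.projection_add_projection_eq_self hc v
  have pp : ∀ v, p (p v) = p v := fun v => Submodule.projectionOnto_apply_left hc _
  have qp : ∀ v, q (p v) = 0 := fun v => Submodule.projectionOnto_apply_right hc.symm _
  have z : ∀ v, hh Hm 0 v = 0 := fun v => by simp [hh]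
  have pN' : ∀ v : N, v ≠ 0 → 0 < (-hh Hm v v).re := fun v hv => by
    have := pN v v.2 (by simpa using hv)
    simpa using this
  obtain ⟨ψ, hψ⟩ := ex_iso (W := N) (fun u v => -hh Hm u v) (fun x y => by
    rw [map_neg, conj_hh hH]) pN' (fun x y w => by rw [Submodule.coe_add, add_l, neg_add])
    (fun x y r => by rw [Submodule.coe_smul, smul_l, mul_neg]) hN
  obtain ⟨φ, hφ⟩ := ex_iso (W := V) (fun u v => hh Hm (p u) (p v) - hh Hm (q u) (q v))
    (fun x y => by rw [map_sub, conj_hh hH, conj_hh hH]) (fun x hx => by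
      rw [sub_re]
      by_cases h1 : (p x : V) = 0
      · have := pN _ (q x).2 fun h => hx (by rw [← e x, h1, h, add_zero])
        rw [h1, z, zero_re]
        linarith
      · have := pP _ (p x).2 h1
        by_cases h2 : (q x : V) = 0
        · rw [h2, z, zero_re]
          linarith
        · linarith [pN _ (q x).2 h2])
    (fun x y w => by
      simp only [map_add, Submodule.coe_add, add_l]
      ring)
    (fun x y r => by
      simp only [map_smul, Submodule.coe_smul, smul_l]
      ring) (n := 6) (by simp)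
  have k1 : ∀ u v, inner ℂ (φ (p u)) (φ (p v)) = hh Hm (p u) (p v) := fun u v => by
    rw [hφ, pp, pp, qp, Submodule.coe_zero, z, sub_zero]
  have k2 : ∀ v, ψ (q v) = 0 ↔ v ∈ P := fun v => by
    rw [← Submodule.projectionOnto_apply_eq_zero_iff hc.symm]
    refine ⟨fun h => by_contra fun h' => ?_, fun h => by rw [show q v = 0 from h, map_zero]⟩
    have := pN' _ h'
    rw [← hψ, show ψ _ = 0 from h] at this
    simp at this
  refine ⟨LinearMap.toContinuousLinearMap (φ ∘ₗ P.subtype ∘ₗ p),
    LinearMap.toContinuousLinearMap (ψ ∘ₗ q), fun u v => ?_, k2, fun v h1 h2 => ?_⟩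
  · change _ = inner ℂ (φ (p u)) (φ (p v)) - inner ℂ (ψ (q u)) (ψ (q v))
    rw [k1, hψ, sub_neg_eq_add]
    conv_lhs => rw [← e u, ← e v]
    rw [add_l, add_r, add_r, ho _ (p u).2 _ (q v).2, ← conj_hh hH (q u), ho _ (p v).2 _ (q u).2]
    simp
  · have h3 : (p v : V) = v := congrArg Subtype.val
      (Submodule.projectionOnto_apply_left hc ⟨v, (k2 v).1 h2⟩)
    by_contra h
    have := pP v ((k2 v).1 h2) h
    rw [← h3, ← k1, show φ (p v) = 0 from h1] at this
    simp at this

end Pool.Agent.BP.F
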