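import Pool.Agent.Lib.MP_0c623d_al.F.GraphB
import Pool.Agent.Lib.MP_0c623d_al.F.SplitEx

/-! The graph theorem. -/

set_option autoImplicit false

namespace Pool.Agent.BP.F

open Complex Set Filter Topology Matrix

/-- The weak form of `Spacelike`: positive, immersed, reverse Cauchy-Schwarz inequality. -/
def WSpace (Hm : Mat) (w : V) (D : E3 →L[ℂ] V) : Prop :=
  0 < (hh Hm w w).re ∧ Function.Injective D ∧
    ∀ v, (hh Hm w w).re * (hh Hm (D v) (D v)).re ≤ ‖hh Hm w (D v)‖ ^ 2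

/-- The weak form of `Charted`. -/
def WCharted (Hm : Mat) {X : Type} [TopologicalSpace X] (w : X → V) : Prop :=
  ∀ x, ∃ (e : OpenPartialHomeomorph X E3) (G : E3 → V), x ∈ e.source ∧ AnalyticAt ℂ G (e x) ∧
    (∀ᶠ y in 𝓝 x, w y = G (e y)) ∧ WSpace Hm (G (e x)) (fderiv ℂ G (e x))

theorem hh_swap {Hm : Mat} (hH : Hm.IsHermitian) (u w : V) : hh Hm u w = star (hh Hm w u) := by
  rw [hh, hh, star_dotProduct, star_mulVec, hH.eq, dotProduct_mulVec]

theorem hh_add_smul {Hm : Mat} (hH : Hm.IsHermitian) (w u : V) (c : ℂ) (h : hh Hm w u = 0) :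
    hh Hm w (u + c • w) = c * hh Hm w w ∧
      hh Hm (u + c • w) (u + c • w) = hh Hm u u + star c * c * hh Hm w w := by
  have h' : hh Hm u w = 0 := by rw [hh_swap hH, h, star_zero]
  simp only [hh] at h h' ⊢
  simp only [mulVec_add, mulVec_smul, dotProduct_add, dotProduct_smul, star_add, star_smul,
    add_dotProduct, smul_dotProduct, h, h', smul_eq_mul]
  constructor <;> ring

theorem hh_self_im {Hm : Mat} (hH : Hm.IsHermitian) (w : V) :
    hh Hm w w = ((hh Hm w w).re : ℂ) := by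
  exact (conj_eq_iff_re.1 (hh_swap hH w w).symm).symm

theorem Spacelike.weak {Hm : Mat} (hH : Hm.IsHermitian) {w : V} {D : E3 →L[ℂ] V}
    (h : Spacelike Hm w D) (he : ∃ v, D v = w) : WSpace Hm w D := by
  obtain ⟨v0, hv0⟩ := he
  refine ⟨h.1, (injective_iff_map_eq_zero D).2 fun v hv => ?_, fun v => ?_⟩
  · by_contra h0
    have := h.2 v h0 (by simp [hv, hh])
    simp [hv, hh] at this
  have w0 : hh Hm w w ≠ 0 := fun e => by have := h.1; simp [e] at this
  set c := hh Hm w (D v) / hh Hm w w with hc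
  have o : hh Hm w (D (v - c • v0)) = 0 := by
    rw [map_sub, map_smul, hv0]
    simp only [hh, mulVec_sub, mulVec_smul, dotProduct_sub, dotProduct_smul, smul_eq_mul] at hc w0 ⊢
    rw [hc]; field_simp; ring
  have n : (hh Hm (D (v - c • v0)) (D (v - c • v0))).re ≤ 0 := by
    rcases eq_or_ne (v - c • v0) 0 with e | e
    · simp [e, hh]
    · exact (h.2 _ e o).le
  obtain ⟨a, b⟩ := hh_add_smul hH w _ c o
  have e : D (v - c • v0) + c • w = D v := by rw [map_sub, map_smul, hv0, sub_add_cancel]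
  rw [e] at a b
  rw [a, b, hh_self_im hH w, show star c * c = ((‖c‖ ^ 2 : ℝ) : ℂ) by
    rw [mul_comm, ← Complex.normSq_eq_norm_sq]; exact Complex.mul_conj c, ← ofReal_mul, add_re,
    ofReal_re, ofReal_re, norm_mul, norm_real, Real.norm_eq_abs, mul_pow, sq_abs]
  nlinarith [mul_nonneg h.1.le (neg_nonneg.2 n)]

theorem Charted.weak {Hm : Mat} (hH : Hm.IsHermitian) {X : Type} [TopologicalSpace X] {w : X → V}
    (h : Charted Hm w) : WCharted Hm w := fun x => by
  obtain ⟨e, G, a, b, c, d, f⟩ := h x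
  exact ⟨e, G, a, b, c, d.weak hH f⟩

/-- The graph theorem under the weak hypotheses. -/
theorem graph_weak {Hm : Mat} (hH : Hm.IsHermitian) {X : Type} [TopologicalSpace X] [T2Space X]
    {w : X → V} (h : WCharted Hm w) (hc : Compl Hm w) {P N : Submodule ℂ V} (hs : Split Hm P N)
    {x0 x1 : X} (h0 : w x0 ∈ P) (h1 : w x1 ∈ P) (hj : Joined x0 x1) :
    JoinedIn {x | w x ∈ P} x0 x1 := by
  obtain ⟨al, be, e1, e2, e3⟩ := split_ex hH hs
  have n : ∀ v, (hh Hm v v).re = ‖al v‖ ^ 2 - ‖be v‖ ^ 2 := fun v => by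
    rw [e1, sub_re, ← @inner_self_eq_norm_sq ℂ, ← @inner_self_eq_norm_sq ℂ]; rfl
  simp only [← e2] at h0 h1 ⊢
  refine Gr.graph (E := E3) (al := al) (by simp) e3 (fun x => ?_)
    (fun c T M ε a b d f g => hc c T M ε a b d f fun t ht => by rw [n]; exact g t ht) h0 h1 hj
  obtain ⟨e, G, a, b, c, d, f, g⟩ := h x
  rw [← c.self_of_nhds] at d g
  refine ⟨e, G, _, a, b.hasStrictFDerivAt, c, ?_, f, fun v => ?_⟩
  · rw [n] at d
    exact lt_of_pow_lt_pow_left₀ 2 (norm_nonneg _) (sub_pos.1 d)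
  · have := g v
    rwa [n, n, e1] at this

theorem graph : GraphStmt := fun _ hH _ _ _ _ h hc _ _ hs _ _ h0 h1 hj =>
  graph_weak hH (h.weak hH) hc hs h0 h1 hj

end Pool.Agent.BP.F
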