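import Pool.Agent.Lib.MP_0c623d_al.F.Rot

/-! Block F: the cusp estimate, homogeneity and the Euler relation at the centre of a chart. -/

namespace Pool.Agent.BP.F

open Complex Set Filter Topology Matrix

variable {k : ℕ}

namespace Cusp

theorem ch_om {b : Cf} (hb : b ∈ Ch) : b ∈ Om := fun i j hij =>
  mem_slitPlane_iff.2 (Or.inl (by simpa using hb i j hij))

theorem ch_nt {b : Cf} (hb : b ∈ Ch) : NoTriple b := fun i j _ h _ _ e => by
  rcases lt_or_gt_of_ne h with a | a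
  · exact (hb i j a).ne (by rw [e.1])
  · exact (hb j i a).ne (by rw [e.1])

theorem adm_nt {d : E3} (h : Adm d) : NoTriple (cfg d) := by
  have a : d 0 + d 1 ≠ 0 := fun e => h.2.1 (lex_add_eq (h.1 0) (h.1 1) e)
  have b : d 1 + d 2 ≠ 0 := fun e => h.2.2 (lex_add_eq (h.1 1) (h.1 2) e)
  have c : d 0 + d 1 + d 2 ≠ 0 := fun e =>
    a (lex_add_eq (lex_add (h.1 0) (h.1 1)) (h.1 2) e).1
  have k1 : ∀ i j : Fin 4, i.val + 1 < j.val → cfg d i ≠ cfg d j := fun i j hij => by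
    fin_cases i <;> fin_cases j <;> simp [cfg] at hij ⊢
    · exact a.symm
    · exact c.symm
    · exact fun e => b (by linear_combination -e)
  intro i j l h1 h2 h3 e
  have : i.val + 1 < j.val ∨ j.val + 1 < i.val ∨ j.val + 1 < l.val ∨ l.val + 1 < j.val ∨
      i.val + 1 < l.val ∨ l.val + 1 < i.val := by
    have := Fin.val_ne_of_ne h1
    have := Fin.val_ne_of_ne h2
    have := Fin.val_ne_of_ne h3
    omega
  rcases this with u | u | u | u | u | u
  exacts [k1 _ _ u e.1, k1 _ _ u e.1.symm, k1 _ _ u e.2, k1 _ _ u e.2.symm,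
    k1 _ _ u (e.1.trans e.2), k1 _ _ u (e.1.trans e.2).symm]

theorem an_phi (d0 ζ : E3) : AnalyticAt ℂ (fun ζ => cfg (pw k d0 ζ)) ζ :=
  (analytic_cfg _).comp (analytic_pw d0 ζ)

theorem ray_ch (hk : k ≠ 0) {d0 : E3} (h : Adm d0) {ε : ℝ} (hε : 0 < ε) :
    cfg (pw k d0 (ray k d0 ε)) ∈ Ch := cfg_mem_Ch (ray_re hk h hε)

theorem near (hk : k ≠ 0) (A : AN k) {d0 : E3} (h : Adm d0) : ∀ᶠ ε in 𝓝[>] (0 : ℝ),
    A.G d0 (ray k d0 ε) = A.W (cfg (pw k d0 (ray k d0 ε))) ∧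
    ∀ ξ, fderiv ℂ (A.G d0) (ray k d0 ε) ξ = fderiv ℂ A.W (cfg (pw k d0 (ray k d0 ε)))
      (fderiv ℂ (fun ζ => cfg (pw k d0 ζ)) (ray k d0 ε) ξ) := by
  filter_upwards [(ray_tendsto d0).eventually (A.G_spec h).2.1.eventually_nhds,
    self_mem_nhdsWithin] with ε h1 hε
  have e : A.G d0 =ᶠ[𝓝 (ray k d0 ε)] fun ζ => A.W (cfg (pw k d0 ζ)) := by
    filter_upwards [h1, (isOpen_sect hk d0).mem_nhds (ray_sect hk d0 hε)] with ζ a b using a b
  refine ⟨e.self_of_nhds, fun ξ => ?_⟩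
  rw [e.fderiv_eq]
  exact DFunLike.congr_fun (fderiv_comp (f := fun ζ => cfg (pw k d0 ζ)) _
    (A.an _ (ch_om (ray_ch hk h hε))).differentiableAt (an_phi d0 _).differentiableAt) ξ

theorem om_smul {b : Cf} (hb : b ∈ Om) {t : ℝ} (ht : 0 < t) : (t : ℂ) • b ∈ Om := fun i j hij => by
  have := mem_slitPlane_iff.1 (hb i j hij)
  rw [Pi.smul_apply, Pi.smul_apply, ← smul_sub, smul_eq_mul, mem_slitPlane_iff, re_ofReal_mul,
    im_ofReal_mul]
  exact this.imp (mul_pos ht) (mul_ne_zero ht.ne')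

theorem W_smul (A : AN k) {b : Cf} (hb : b ∈ Om) {t : ℝ} (ht : 0 < t) :
    A.W ((t : ℂ) • b) = ((t ^ A.del : ℝ) : ℂ) • A.W b := by
  have hd : ∀ x : ℝ, HasDerivAt (fun x : ℝ => Real.exp (-A.del * x) •
      A.W (((Real.exp x : ℝ) : ℂ) • b)) 0 x := fun x => by
    have m := om_smul hb (Real.exp_pos x)
    have h1 : HasDerivAt (fun x : ℝ => ((Real.exp x : ℝ) : ℂ) • b) (((Real.exp x : ℝ) : ℂ) • b) x :=
      (Real.hasDerivAt_exp x).ofReal_comp.smul_const b
    have h2 := ((A.an _ m).differentiableAt.hasFDerivAt.restrictScalars ℝ).comp_hasDerivAt x h1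
    have h3 := (((hasDerivAt_id x).const_mul (-A.del)).exp.smul h2)
    refine h3.congr_deriv ?_
    rw [ContinuousLinearMap.coe_restrictScalars', A.euler _ m, coe_smul A.del, smul_smul,
      Function.comp_apply, ← add_smul]
    simp
  have := is_const_of_deriv_eq_zero (fun x => (hd x).differentiableAt) (fun x => (hd x).deriv)
    (Real.log t) 0
  simp only [Real.exp_log ht, mul_zero, Real.exp_zero, ofReal_one, one_smul] at this
  rw [← this, coe_smul (t ^ A.del), smul_smul, Real.rpow_def_of_pos ht, ← Real.exp_add]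
  simp [mul_comm]

end Cusp

open Cusp

theorem cusp_at (hk : Odd k) (A : AN k) {d0 : E3} (h : Adm d0) (l : Fin 4) :
    DifferentiableAt ℝ (fun ζ => A.tau l (cfg (pw k d0 ζ))) d0 ∧ (A.R0 < A.tau l (cfg d0) →
      ∀ ξ : E3, (fderiv ℝ (fun ζ => A.tau l (cfg (pw k d0 ζ))) d0 ξ) ^ 2 *
        (hh A.Hm (A.G d0 d0) (A.G d0 d0)).re ^ 2 ≤
          A.C * QQ A.Hm (A.G d0 d0) (fderiv ℂ (A.G d0) d0 ξ)) := by
  have hk0 : k ≠ 0 := hk.pos.ne'
  have c : ContDiffAt ℝ 1 (fun ζ => A.tau l (cfg (pw k d0 ζ))) d0 :=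
    ContDiffAt.comp (g := A.tau l) d0 (by rw [pw_self hk0]; exact A.tau_c1 l _ (adm_nt h))
      ((an_phi d0 d0).contDiffAt.restrict_scalars ℝ)
  refine ⟨c.differentiableAt one_ne_zero, fun hR ξ => ?_⟩
  have g := (A.G_spec h).1
  have c1 : ContinuousAt (fun ζ => fderiv ℝ (fun ζ => A.tau l (cfg (pw k d0 ζ))) ζ ξ) d0 :=
    (c.fderiv_right (m := 0) le_rfl).continuousAt.clm_apply continuousAt_const
  have c2 : ContinuousAt (fun ζ => (A.G d0 ζ, fderiv ℂ (A.G d0) ζ ξ)) d0 :=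
    g.continuousAt.prodMk (g.fderiv.continuousAt.clm_apply continuousAt_const)
  have c3 : Continuous fun p : V × V => (hh A.Hm p.1 p.1).re ^ 2 := by
    unfold hh
    fun_prop
  have c4 : Continuous fun p : V × V => A.C * QQ A.Hm p.1 p.2 := by
    unfold QQ hh
    fun_prop
  refine le_of_tendsto_of_tendsto
    (((c1.pow 2).mul (c3.continuousAt.comp c2)).tendsto.comp (ray_tendsto (k := k) d0))
    ((c4.continuousAt.comp c2).tendsto.comp (ray_tendsto (k := k) d0)) ?_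
  have hR' : A.R0 < A.tau l (cfg (pw k d0 d0)) := by rwa [pw_self hk0]
  filter_upwards [near hk0 A h, self_mem_nhdsWithin,
    (ray_tendsto (k := k) d0).eventually (c.continuousAt.eventually (lt_mem_nhds hR'))]
    with ε e hε hR2
  have m := ray_ch hk0 h hε
  have e2 : fderiv ℝ (fun ζ => A.tau l (cfg (pw k d0 ζ))) (ray k d0 ε) ξ =
      fderiv ℝ (A.tau l) (cfg (pw k d0 (ray k d0 ε)))
        (fderiv ℂ (fun ζ => cfg (pw k d0 ζ)) (ray k d0 ε) ξ) := by
    exact DFunLike.congr_fun (HasFDerivAt.comp (f := fun ζ => cfg (pw k d0 ζ)) _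
      ((A.tau_c1 l _ (ch_nt m)).differentiableAt one_ne_zero).hasFDerivAt
      ((an_phi d0 _).differentiableAt.hasFDerivAt.restrictScalars ℝ)).fderiv ξ
  simp only [Function.comp_apply, Pi.mul_apply, Pi.pow_apply]
  rw [e2, e.1, e.2]
  exact A.tau_bd l _ m hR2 _

theorem adm_smul {d : E3} (h : Adm d) {t : ℝ} (ht : 0 < t) : Adm ((t : ℂ) • d) := by
  have t0 : (t : ℂ) ≠ 0 := ofReal_ne_zero.2 ht.ne'
  refine ⟨fun p => ?_, by simpa [t0] using h.2.1, by simpa [t0] using h.2.2⟩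
  simp only [LexNN, Pi.smul_apply, smul_eq_mul, re_ofReal_mul, im_ofReal_mul]
  exact (h.1 p).imp (mul_pos ht) fun a => ⟨by rw [a.1, mul_zero], mul_nonneg ht.le a.2⟩

theorem G_smul (hk : Odd k) (A : AN k) {d : E3} (h : Adm d) {t : ℝ} (ht : 0 < t) :
    A.G ((t : ℂ) • d) ((t : ℂ) • d) = ((t ^ A.del : ℝ) : ℂ) • A.G d d := by
  have hk0 : k ≠ 0 := hk.pos.ne'
  have t0 : (t : ℂ) ≠ 0 := ofReal_ne_zero.2 ht.ne'
  obtain ⟨τ, hτ, eτ⟩ : ∃ τ : ℝ, 0 < τ ∧ τ ^ k = t :=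
    ⟨t ^ (k : ℝ)⁻¹, Real.rpow_pos_of_pos ht _, Real.rpow_inv_natCast_pow ht.le hk0⟩
  let σ : E3 → E3 := fun ζ p => (if d p = 0 then (τ : ℂ) else t) * ζ p
  have cσ : Continuous σ := by fun_prop
  have e0 : σ d = (t : ℂ) • d := funext fun p => by
    by_cases a : d p = 0 <;> simp [σ, a]
  have g := A.G_spec (adm_smul h ht)
  have l1 : Tendsto (fun ε => σ (ray k d ε)) (𝓝[>] 0) (𝓝 ((t : ℂ) • d)) :=
    e0 ▸ (cσ.tendsto d).comp (ray_tendsto d)
  refine tendsto_nhds_unique_of_eventuallyEq (g.1.continuousAt.tendsto.comp l1)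
    (((A.G_spec h).1.continuousAt.tendsto.comp (ray_tendsto (k := k) d)).const_smul _) ?_
  filter_upwards [near hk0 A h, self_mem_nhdsWithin, l1.eventually g.2.1] with ε e hε e1
  have e2 : pw k ((t : ℂ) • d) (σ (ray k d ε)) = (t : ℂ) • pw k d (ray k d ε) := funext fun p => by
    by_cases a : d p = 0
    · simp [σ, pw, a, mul_pow, ← eτ]
    · simp [σ, pw, a, t0]
  simp only [Function.comp_apply]
  rw [e1 fun p hp => ?_, e2, ← cfgL_apply, map_smul, cfgL_apply,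
    W_smul A (ch_om (ray_ch hk0 h hε)) ht, e.1]
  have a : d p = 0 := by simpa [t0] using hp
  have := ray_sect hk0 d hε p a
  simp only [σ, a, if_true, arg_real_mul _ hτ]
  exact ⟨mul_ne_zero (ofReal_ne_zero.2 hτ.ne') this.1, this.2⟩

theorem G_euler (hk : Odd k) (A : AN k) {d0 : E3} (h : Adm d0) :
    fderiv ℂ (A.G d0) d0 d0 = (A.del : ℂ) • A.G d0 d0 := by
  have hk0 : k ≠ 0 := hk.pos.ne'
  let e : E3 → E3 := fun ζ p => (if d0 p = 0 then (k : ℂ)⁻¹ else 1) * ζ p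
  have ce : Continuous e := by fun_prop
  have e0 : e d0 = d0 := funext fun p => by
    by_cases a : d0 p = 0 <;> simp [e, a]
  have g := (A.G_spec h).1
  have c1 : ContinuousAt (fun ζ => fderiv ℂ (A.G d0) ζ (e ζ)) d0 :=
    g.fderiv.continuousAt.clm_apply ce.continuousAt
  have d1 : ∀ ζ, fderiv ℂ (fun ζ => cfg (pw k d0 ζ)) ζ (e ζ) = cfg (pw k d0 ζ) := fun ζ => by
    have : HasFDerivAt (pw k d0) (ContinuousLinearMap.pi fun p =>
        (if d0 p = 0 then k • ζ p ^ (k - 1) else 1 : ℂ) •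
          ContinuousLinearMap.proj (R := ℂ) (φ := fun _ : Fin 3 => ℂ) p) ζ := by
      refine hasFDerivAt_pi.2 fun p => ?_
      have u := (ContinuousLinearMap.proj (R := ℂ) (φ := fun _ : Fin 3 => ℂ) p).hasFDerivAt (x := ζ)
      by_cases a : d0 p = 0
      · simp only [pw, a, if_true]
        exact u.pow k
      · simp only [pw, a, if_false, one_smul]
        exact u
    rw [show (fun ζ => cfg (pw k d0 ζ)) = cfgL ∘ pw k d0 from rfl,
      (cfgL.hasFDerivAt.comp ζ this).fderiv, ← cfgL_apply]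
    refine congrArg cfgL (funext fun p => ?_)
    have k0 : (k : ℂ) ≠ 0 := Nat.cast_ne_zero.2 hk0
    change (if d0 p = 0 then k • ζ p ^ (k - 1) else 1 : ℂ) * e ζ p = _
    by_cases a : d0 p = 0
    · simp only [pw, e, a, if_true, nsmul_eq_mul]
      conv_rhs => rw [← pow_sub_one_mul hk0 (ζ p)]
      field_simp
    · simp [pw, e, a]
  conv_lhs => rw [show fderiv ℂ (A.G d0) d0 d0 = fderiv ℂ (A.G d0) d0 (e d0) by rw [e0]]
  refine tendsto_nhds_unique_of_eventuallyEq (c1.tendsto.comp (ray_tendsto (k := k) d0))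
    ((g.continuousAt.tendsto.comp (ray_tendsto (k := k) d0)).const_smul _) ?_
  filter_upwards [near hk0 A h, self_mem_nhdsWithin] with ε u hε
  simp only [Function.comp_apply]
  rw [u.2, d1, u.1, A.euler _ (ch_om (ray_ch hk0 h hε))]

end Pool.Agent.BP.F
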