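import Pool.Agent.Lib.MP_0c623d_al.F.CScale
import Pool.Agent.Lib.MP_0c623d_al.F.CCusp

/-!
Completeness of the developing map.
-/

set_option autoImplicit false

namespace Pool.Agent.BP.F.C5

open Complex Set Filter Topology Matrix

variable {k : ℕ} {H : Type} [Group H] (A : AN k) (L : Lab k H) (ρ : H →* Matˣ)

theorem QQ_G_pos (hk : Odd k) {d : E3} (h : Adm d) {ξ : E3} (hξ : ξ ≠ 0) :
    0 < QQ A.Hm (A.G d d) (fderiv ℂ (A.G d) d ξ) := by
  refine QQ_pos A.herm (A.G_spec h).2.2 (e := (A.del : ℂ)⁻¹ • d) ?_ hξ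
  rw [map_smul, G_euler hk A h, smul_smul, inv_mul_cancel₀ (ofReal_ne_zero.2 A.del_ne), one_smul]

theorem good_near (hk : Odd k) (hc : Coc L.bb) (hU : A.Uni ρ) (hL : A.Loc L ρ) (y0 : Y k) :
    ∃ C, 0 < C ∧ ∀ᶠ y in 𝓝 y0, ∀ x : L.X, x.x = y →
      Good (fun x : L.X => x.x.1) (A.dev L ρ) (QQ A.Hm) C x := by
  obtain ⟨U, u1, u2⟩ := val_an hk y0
  obtain ⟨C, hC, h⟩ := good_of_chart (X := Y k) (u := Subtype.val)
    (w := fun y => A.G (dd y0) (zeta y0 y)) (QQ_cont A.Hm) (QQ_smul A.Hm) (x0 := y0)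
    (φ := zeta y0) (Eventually.of_forall fun y => (cont_zeta y0).continuousAt) (G_an A hk y0) u1
    (Eventually.of_forall fun _ => rfl) u2
    (fun ξ hξ => by rw [zeta_self hk]; exact QQ_G_pos A hk (adm_dd hk y0) hξ)
  refine ⟨C, hC, ?_⟩
  filter_upwards [h, dev_near A L ρ hc hL y0] with y h1 h2 x hx c t w' a b d
  obtain ⟨γ, hγ⟩ := h2 x hx
  subst b
  obtain ⟨u', e1, e2⟩ := h1 (fun s => (c s).x) t ((ρ γ : Mat) *ᵥ w')
    ((tot_x_cont hc).continuousAt.comp_continuousWithinAt a) hx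
    ((deriv_mulVec _ d).congr_of_eventuallyEq ((a.eventually hγ).mono fun s e => e.symm)
      hγ.self_of_nhds.symm)
  refine ⟨u', e1, ?_⟩
  simp only [← hx, ← hγ.self_of_nhds, QQ_uni A ρ hU] at e2
  exact e2

theorem tau_pos (l : Fin 4) (y y' : Y k) :
    A.tau l (pos y') = A.tau ((sg y)⁻¹ l) (cfg (pw k (dd y) (zeta y y'))) := by
  rw [← A.tau_add ((sg y)⁻¹ l) _ (pos y' (sg y 0)), ← pos_sg, A.tau_perm]
  simp

theorem tau_deriv (hk : Odd k) (hc : Coc L.bb) (hU : A.Uni ρ) (hL : A.Loc L ρ) (l : Fin 4)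
    {c : ℝ → L.X} {t : ℝ} {v : V} (a : ContinuousWithinAt c (Ici t) t)
    (d : HasDerivWithinAt (fun s => A.dev L ρ (c s)) v (Ici t) t) :
    ∃ f', HasDerivWithinAt (fun s => A.tau l (pos (c s).x)) f' (Ici t) t ∧
      (A.R0 < A.tau l (pos (c t).x) →
        f' ^ 2 * (hh A.Hm (A.dev L ρ (c t)) (A.dev L ρ (c t))).re ^ 2 ≤
          A.C * QQ A.Hm (A.dev L ρ (c t)) v) := by
  have had := adm_dd hk (c t).x
  have hz := zeta_self hk (c t).x
  have hi : Function.Injective (fderiv ℂ (A.G (dd (c t).x)) (zeta (c t).x (c t).x)) := by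
    rw [hz]
    refine (injective_iff_map_eq_zero _).2 fun ξ h => by_contra fun h0 => ?_
    have := QQ_G_pos A hk had h0
    rw [h] at this
    simp [QQ, hh] at this
  have inv : ∀ u : V, (ρ (c t).g⁻¹ : Mat) *ᵥ (ρ (c t).g : Mat) *ᵥ u = u := fun u => by
    rw [← rho_mul, inv_mul_cancel, map_one, Units.val_one, one_mulVec]
  obtain ⟨ξ, b1, b2⟩ := deriv_of_imm (G := A.G (dd (c t).x))
    (ζ := fun s => zeta (c t).x (c s).x) self_mem_Ici (G_an A hk _).differentiableAt hi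
    (((cont_zeta _).comp (tot_x_cont hc)).continuousAt.comp_continuousWithinAt a)
    ((a.eventually (C5.dev_ev A L ρ hc hL (c t))).mono fun s e => by rw [e, inv])
    (deriv_mulVec (ρ (c t).g⁻¹ : Mat) d)
  obtain ⟨c1, c2⟩ := cusp_at hk A had ((sg (c t).x)⁻¹ l)
  have b3 := b2 (uniqueDiffWithinAt_Ici t)
  simp only [hz] at b3
  refine ⟨fderiv ℝ (fun ζ => A.tau ((sg (c t).x)⁻¹ l) (cfg (pw k (dd (c t).x) ζ)))
    (dd (c t).x) ξ, ?_, fun h => ?_⟩
  · simp only [tau_pos A l (c t).x]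
    exact c1.hasFDerivAt.comp_hasDerivWithinAt_of_eq t b1 hz.symm
  · have h1 : A.R0 < A.tau ((sg (c t).x)⁻¹ l) (cfg (dd (c t).x)) := by
      rwa [tau_pos A l (c t).x, pw_zeta] at h
    have h2 := c2 h1 ξ
    rw [b3] at h2
    rwa [← QQ_uni A ρ hU (c t).g⁻¹, AN.dev, hU, inv]

/-- The square norm of the developing map, as a function on the base. -/
noncomputable def ph (y : Y k) : ℝ := (hh A.Hm (A.G (dd y) (dd y)) (A.G (dd y) (dd y))).re

theorem ph_cont (hk : Odd k) (hU : A.Uni ρ) (hL : A.Loc L ρ) : Continuous (ph A) := by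
  refine continuous_iff_continuousAt.2 fun y => ?_
  have h1 : ContinuousAt (fun y' => A.G (dd y) (zeta y y')) y :=
    ContinuousAt.comp (f := zeta y) (G_an A hk y).continuousAt (cont_zeta y).continuousAt
  refine (continuous_re.continuousAt.comp
    ((hh_cont A.Hm).continuousAt.comp (h1.prodMk h1))).congr ((hL y).mono fun y' e => ?_)
  simp only [Function.comp, ← e, hU _, ph]

theorem ph_scl (hk : Odd k) (r : ℝ) (hr : 0 < r) (y : Y k) :
    ph A (scl r hr y) = r ^ (k * A.del * 2) * ph A y := by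
  rw [ph, dd_scl, G_smul hk A (adm_dd hk y) (pow_pos hr k), hh_smul_l, hh_smul_r, star_def,
    conj_ofReal, re_ofReal_mul, re_ofReal_mul, ← mul_assoc, ← sq, Real.rpow_mul hr.le,
    Real.rpow_mul hr.le, Real.rpow_natCast, Real.rpow_two, ph]

end Pool.Agent.BP.F.C5

namespace Pool.Agent.BP.F

open Complex Set Filter Topology Matrix C5

/-- Completeness of the developing map. -/
theorem compl {k : ℕ} (hk : Odd k) {H : Type} [Group H] (A : AN k) (L : Lab k H) (ρ : H →* Matˣ)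
    (hc : Coc L.bb) (hU : A.Uni ρ) (hL : A.Loc L ρ) : Compl A.Hm (A.dev L ρ) := by
  intro c T M ε hT hε hcc hd hφ
  have hd' : ∀ t, ∃ v, t ∈ Ico 0 T →
      HasDerivWithinAt (fun t => A.dev L ρ (c t)) v (Ici t) t ∧ ‖v‖ ≤ M := fun t => by
    by_cases h : t ∈ Ico 0 T
    · exact (hd t h).imp fun _ a _ => a
    · exact ⟨0, fun a => (h a).elim⟩
  choose v hv using hd'
  have hM : 0 ≤ M := (norm_nonneg _).trans (hv 0 ⟨le_rfl, hT⟩).2
  have hw : ∀ t ∈ Ico 0 T, A.dev L ρ (c t) ∈ Metric.closedBall (A.dev L ρ (c 0)) (M * T) := by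
    intro t ht
    rw [mem_closedBall_iff_norm]
    exact (lip_of_deriv (u := fun t => A.dev L ρ (c t))
      ((dev_cont A L ρ hk hc hL).comp_continuousOn hcc) (fun t h => (hv t h).1)
      (fun t h => (hv t h).2) ⟨le_rfl, hT⟩ ht ht.1).trans
      (mul_le_mul_of_nonneg_left (by linarith [ht.2]) hM)
  obtain ⟨M', hM'⟩ := ((isCompact_closedBall (A.dev L ρ (c 0)) (M * T)).prod
    (isCompact_closedBall (0 : V) M)).exists_bound_of_continuousOn (QQ_cont A.Hm).continuousOn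
  have hQ : ∀ t ∈ Ico 0 T, |QQ A.Hm (A.dev L ρ (c t)) (v t)| ≤ M' := fun t ht =>
    hM' (_, _) ⟨hw t ht, by simpa using (hv t ht).2⟩
  obtain ⟨B, hB⟩ := (isCompact_closedBall (A.dev L ρ (c 0)) (M * T)).bddAbove_image
    (f := fun w => (hh A.Hm w w).re) (continuous_re.comp
      ((hh_cont A.Hm).comp (f := fun w : V => (w, w)) (by fun_prop))).continuousOn
  have hτ : ∀ l, ∃ R, ∀ t ∈ Ico 0 T, A.tau l (pos (c t).x) ≤ R := by
    intro l
    have h1 : ∀ t, ∃ f', t ∈ Ico 0 T →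
        HasDerivWithinAt (fun s => A.tau l (pos (c s).x)) f' (Ici t) t ∧
        (A.R0 < A.tau l (pos (c t).x) → f' ≤ √(|A.C| * M' / ε ^ 2)) := fun t => by
      by_cases h : t ∈ Ico 0 T
      · obtain ⟨f', a, b⟩ := tau_deriv A L ρ hk hc hU hL l (cwa_of_on hcc h) (hv t h).1
        refine ⟨f', fun _ => ⟨a, fun e => Real.le_sqrt_of_sq_le ?_⟩⟩
        rw [le_div_iff₀ (by positivity)]
        refine le_trans (mul_le_mul_of_nonneg_left (pow_le_pow_left₀ hε.le (hφ t h) 2)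
          (sq_nonneg _)) ((b e).trans ((le_abs_self _).trans ?_))
        rw [abs_mul]
        exact mul_le_mul_of_nonneg_left (hQ t h) (abs_nonneg _)
      · exact ⟨0, fun a => (h a).elim⟩
    choose f' hf using h1
    have h2 : Continuous fun y : Y k => A.tau l (pos y) := continuous_iff_continuousAt.2 fun y =>
      ContinuousAt.comp (f := pos) (A.tau_c1 l _ (noTriple_pos hk y)).continuousAt
        cont_pos.continuousAt
    exact ⟨_, exit_bound (Real.sqrt_nonneg _) ((h2.comp (tot_x_cont hc)).comp_continuousOn hcc)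
      (fun t h => (hf t h).1) fun t h => (hf t h).2⟩
  choose R hR using hτ
  obtain ⟨R', hR'⟩ := (finite_range R).bddAbove
  obtain ⟨η, hη, hwide⟩ := A.tau_prop R'
  have hW : ∀ t ∈ Ico 0 T, Wide η (pos (c t).x) := fun t ht =>
    hwide _ (noTriple_pos hk _) fun l => (hR l t ht).trans (hR' ⟨l, rfl⟩)
  obtain ⟨r1, r2, h1, hr⟩ := scale_range hk (ph_cont A L ρ hk hU hL)
    (fun y => (A.G_spec (adm_dd hk y)).2.2.1) (θ := k * A.del * 2)
    (mul_ne_zero (mul_ne_zero (Nat.cast_ne_zero.2 hk.pos.ne') A.del_ne) two_ne_zero)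
    (ph_scl A hk) (B := B) hη hε
  have hph : ∀ x : L.X, (hh A.Hm (A.dev L ρ x) (A.dev L ρ x)).re = ph A x.x := fun x => by
    rw [AN.dev, hU, ph]
  obtain ⟨y, hy⟩ := conv_of_compact (tot_x_cont hc) (u := Subtype.val) IsInducing.subtypeVal
    (compact_wide hk (r2 := r2) hη h1) (fun y0 _ => good_near A L ρ hk hc hU hL y0) hT hcc
    (fun t h => (hv t h).1) (fun t h => (le_abs_self _).trans (hQ t h)) (fun t h => by
      have := hr _ (hW t h) (hph _ ▸ hφ t h) (hph _ ▸ hB ⟨_, hw t h, rfl⟩)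
      exact ⟨this.1, this.2, hW t h⟩)
  exact lim_tot hc hT hcc hy

end Pool.Agent.BP.F
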