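import Pool.Agent.Lib.MP_0c623d_al.F.Main0
import Pool.Agent.Lib.MP_0c623d_al.F.Compl

/-! Block F: assembly, from the graph theorem. -/

namespace Pool.Agent.BP.F

theorem complStmt : ComplStmt := fun _ hk A _ _ L ρ hc _ _ hU hL => compl hk A L ρ hc hU hL

theorem main_of_graph (hG : GraphStmt) : MainStmt := main_of hG complStmt

end Pool.Agent.BP.F
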