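import Mathlib

/-!
Auxiliary real analysis for the completeness step.
-/

set_option autoImplicit false

namespace Pool.Agent.BP.F

open Set Filter Topology

/-- A function whose right derivative is bounded above a threshold stays bounded. -/
theorem exit_bound {f f' : ℝ → ℝ} {T R K : ℝ} (hK : 0 ≤ K) (hc : ContinuousOn f (Ico 0 T))
    (hd : ∀ t ∈ Ico 0 T, HasDerivWithinAt f (f' t) (Ici t) t)
    (hb : ∀ t ∈ Ico 0 T, R < f t → f' t ≤ K) :
    ∀ t ∈ Ico 0 T, f t ≤ max R (f 0) + 1 + (K + 1) * T := by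
  intro t ht
  have h := image_le_of_deriv_right_lt_deriv_boundary' (f := f) (f' := f') (a := 0) (b := t)
    (hc.mono fun x hx => ⟨hx.1, hx.2.trans_lt ht.2⟩)
    (fun x hx => hd x ⟨hx.1, hx.2.trans ht.2⟩)
    (B := fun x => max R (f 0) + 1 + (K + 1) * x) (B' := fun _ => K + 1)
    (by have := le_max_right R (f 0); simp only [mul_zero, add_zero]; linarith)
    (by fun_prop)
    (fun x _ => by
      simpa using (((hasDerivAt_id x).const_mul (K + 1)).const_add
        (max R (f 0) + 1)).hasDerivWithinAt)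
    (fun x hx e => by
      have := hb x ⟨hx.1, hx.2.trans ht.2⟩ (by
        have := le_max_left R (f 0)
        have := mul_nonneg (by linarith : 0 ≤ K + 1) hx.1
        rw [e]; linarith)
      linarith) (x := t) ⟨ht.1, le_rfl⟩
  have : (K + 1) * t ≤ (K + 1) * T := mul_le_mul_of_nonneg_left ht.2.le (by linarith)
  linarith

/-- A path with bounded right derivative is Lipschitz. -/
theorem lip_of_deriv {E : Type*} [NormedAddCommGroup E] [NormedSpace ℝ E] {u u' : ℝ → E}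
    {T K : ℝ} (hc : ContinuousOn u (Ico 0 T))
    (hd : ∀ t ∈ Ico 0 T, HasDerivWithinAt u (u' t) (Ici t) t)
    (hb : ∀ t ∈ Ico 0 T, ‖u' t‖ ≤ K) {s t : ℝ} (hs : s ∈ Ico 0 T) (ht : t ∈ Ico 0 T)
    (hst : s ≤ t) : ‖u t - u s‖ ≤ K * (t - s) :=
  norm_image_sub_le_of_norm_deriv_right_le_segment (f := u) (f' := u') (a := s) (b := t)
    (hc.mono fun _ hx => ⟨hs.1.trans hx.1, hx.2.trans_lt ht.2⟩)
    (fun x hx => hd x ⟨hs.1.trans hx.1, hx.2.trans ht.2⟩)
    (fun x hx => hb x ⟨hs.1.trans hx.1, hx.2.trans ht.2⟩) t ⟨hst, le_rfl⟩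

/-- A path with bounded right derivative has a limit at the end. -/
theorem lim_of_deriv {E : Type*} [NormedAddCommGroup E] [NormedSpace ℝ E] [CompleteSpace E]
    {u u' : ℝ → E} {T K : ℝ} (hT : 0 < T) (hc : ContinuousOn u (Ico 0 T))
    (hd : ∀ t ∈ Ico 0 T, HasDerivWithinAt u (u' t) (Ici t) t)
    (hb : ∀ t ∈ Ico 0 T, ‖u' t‖ ≤ K) : ∃ L, Tendsto u (𝓝[<] T) (𝓝 L) := by
  have hK : 0 ≤ K := (norm_nonneg _).trans (hb 0 ⟨le_rfl, hT⟩)
  have hl : LipschitzOnWith ⟨K, hK⟩ u (Ico 0 T) := by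
    refine LipschitzOnWith.of_dist_le_mul fun s hs t ht => ?_
    rcases le_total s t with h | h
    · rw [dist_comm, dist_eq_norm, Real.dist_eq, abs_sub_comm, abs_of_nonneg (sub_nonneg.2 h)]
      exact lip_of_deriv hc hd hb hs ht h
    · rw [dist_eq_norm, Real.dist_eq, abs_of_nonneg (sub_nonneg.2 h)]
      exact lip_of_deriv hc hd hb ht hs h
  have hm : Ico 0 T ∈ 𝓝[<] T := Ico_mem_nhdsLT hT
  have hcau : Cauchy (𝓝[<] T) := cauchy_nhds.mono nhdsWithin_le_nhds
  have := hcau.map_of_le hl.uniformContinuousOn (le_principal_iff.2 hm)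
  exact cauchy_map_iff_exists_tendsto.1 this

/-- A path in a covering converges when its projection does. -/
theorem lim_of_cover {X Y : Type*} [TopologicalSpace X] [TopologicalSpace Y] {p : X → Y}
    (hp : IsCoveringMap p) {c : ℝ → X} {T : ℝ} (hT : 0 < T) (hc : ContinuousOn c (Ico 0 T))
    {y : Y} (hy : Tendsto (fun t => p (c t)) (𝓝[<] T) (𝓝 y)) :
    ∃ x, Tendsto c (𝓝[<] T) (𝓝 x) := by
  obtain ⟨hd, U, hyU, hU, hpU, e, he⟩ := hp y
  have h1 : ∀ᶠ t in 𝓝[<] T, p (c t) ∈ U := hy (hU.mem_nhds hyU)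
  obtain ⟨a, ha, hsub⟩ := (mem_nhdsLT_iff_exists_Ioo_subset' hT).1 (h1.and (Ico_mem_nhdsLT hT))
  have haT : a < T := ha
  let d : Ioo a T → p ⁻¹' U := fun t => ⟨c t, (hsub t.2).1⟩
  have dc : Continuous d :=
    Continuous.subtype_mk ((hc.mono fun t ht => (hsub ht).2).domRestrict) _
  have : PreconnectedSpace (Ioo a T) := Subtype.preconnectedSpace isPreconnected_Ioo
  let t0 : Ioo a T := ⟨(a + T) / 2, by constructor <;> linarith⟩
  have hk : ∀ t, (e (d t)).2 = (e (d t0)).2 := fun t =>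
    ((IsLocallyConstant.iff_continuous _).2
      (continuous_snd.comp (e.continuous.comp dc))).apply_eq_of_preconnectedSpace t t0
  classical
  let q : ℝ → U := fun t => if h : p (c t) ∈ U then ⟨_, h⟩ else ⟨y, hyU⟩
  have hq : Tendsto q (𝓝[<] T) (𝓝 ⟨y, hyU⟩) := by
    rw [tendsto_subtype_rng]
    exact hy.congr' (h1.mono fun t ht => by simp [q, ht])
  refine ⟨(e.symm (⟨y, hyU⟩, (e (d t0)).2) : X), ?_⟩
  have h2 : Tendsto (fun t => (e.symm (q t, (e (d t0)).2) : X)) (𝓝[<] T)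
      (𝓝 (e.symm (⟨y, hyU⟩, (e (d t0)).2) : X)) :=
    ((continuous_subtype_val.comp e.symm.continuous).tendsto _).comp
      (hq.prodMk_nhds tendsto_const_nhds)
  refine h2.congr' (mem_of_superset (Ioo_mem_nhdsLT haT) fun t ht => ?_)
  have : (q t, (e (d t0)).2) = e (d ⟨t, ht⟩) := by
    refine Prod.ext (Subtype.ext ?_) (hk _).symm
    simp only [q, (hsub ht).1, dite_true]
    exact (he (d ⟨t, ht⟩)).symm
  simp only [mem_ofPred_eq, this, Homeomorph.symm_apply_apply, d]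

/-- A positive quadratic function of the differential stays uniformly positive nearby. -/
theorem unif_pos {E V : Type*} [NormedAddCommGroup E] [NormedSpace ℂ E] [FiniteDimensional ℂ E]
    [NormedAddCommGroup V] [NormedSpace ℂ V] [CompleteSpace V] {G : E → V} {d0 : E}
    (hG : AnalyticAt ℂ G d0) {N : V → V → ℝ} (hN : Continuous fun p : V × V => N p.1 p.2)
    (hh : ∀ (r : ℝ) w v, N w ((r : ℂ) • v) = r ^ 2 * N w v)
    (hp : ∀ ξ, ξ ≠ 0 → 0 < N (G d0) (fderiv ℂ G d0 ξ)) :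
    ∃ C, 0 < C ∧ ∀ᶠ d in 𝓝 d0, AnalyticAt ℂ G d ∧
      ∀ ξ, ‖ξ‖ ^ 2 ≤ C * N (G d) (fderiv ℂ G d ξ) := by
  have := FiniteDimensional.proper ℂ E
  have hS : IsCompact (Metric.sphere (0 : E) 1) := isCompact_sphere _ _
  have hc : ∀ ξ, ContinuousAt (fun p : E × E => N (G p.1) (fderiv ℂ G p.1 p.2)) (d0, ξ) := by
    intro ξ
    have h1 : ContinuousAt (fun p : E × E => G p.1) (d0, ξ) :=
      ContinuousAt.comp (f := Prod.fst) hG.continuousAt continuousAt_fst
    have h2 : ContinuousAt (fun p : E × E => fderiv ℂ G p.1) (d0, ξ) :=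
      ContinuousAt.comp (f := Prod.fst) hG.fderiv.continuousAt continuousAt_fst
    exact ContinuousAt.comp (f := fun p : E × E => (G p.1, fderiv ℂ G p.1 p.2))
      hN.continuousAt (h1.prodMk (h2.clm_apply continuousAt_snd))
  obtain ⟨c, hc0, hc1⟩ : ∃ c, 0 < c ∧ ∀ ξ ∈ Metric.sphere (0 : E) 1,
      c < N (G d0) (fderiv ℂ G d0 ξ) := by
    rcases (Metric.sphere (0 : E) 1).eq_empty_or_nonempty with e | e
    · exact ⟨1, one_pos, by simp [e]⟩
    · obtain ⟨x, hx, hm⟩ := hS.exists_isMinOn e (f := fun ξ => N (G d0) (fderiv ℂ G d0 ξ))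
        (fun ξ _ => (ContinuousAt.comp (f := fun ξ => (d0, ξ)) (hc ξ)
          (by fun_prop)).continuousWithinAt)
      have := hp x (by rintro rfl; simp at hx)
      exact ⟨_, half_pos this, fun ξ hξ => (half_lt_self this).trans_le (hm hξ)⟩
  have h3 : ∀ᶠ d in 𝓝 d0, ∀ ξ ∈ Metric.sphere (0 : E) 1, c < N (G d) (fderiv ℂ G d ξ) :=
    hS.eventually_forall_of_forall_eventually fun ξ hξ =>
      (hc ξ).eventually (lt_mem_nhds (hc1 ξ hξ))
  refine ⟨c⁻¹, inv_pos.2 hc0, ?_⟩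
  filter_upwards [h3, hG.eventually_analyticAt] with d hd ha
  refine ⟨ha, fun ξ => ?_⟩
  by_cases h0 : ξ = 0
  · have := hh 0 (G d) 0
    rw [smul_zero] at this
    rw [h0, map_zero, this]
    simp
  · have hn : 0 < ‖ξ‖ := norm_pos_iff.2 h0
    have h4 := hd (((‖ξ‖⁻¹ : ℝ) : ℂ) • ξ) (by simp [norm_smul, hn.ne'])
    rw [map_smul, hh, inv_pow, ← div_eq_inv_mul, lt_div_iff₀ (by positivity)] at h4
    rw [← div_eq_inv_mul, le_div_iff₀ hc0]
    linarith

/-- The chart coordinate of a path is differentiable when its image under an immersion is. -/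
theorem deriv_of_imm {E V : Type*} [NormedAddCommGroup E] [NormedSpace ℂ E]
    [FiniteDimensional ℂ E] [NormedAddCommGroup V] [NormedSpace ℂ V] [FiniteDimensional ℂ V]
    {G : E → V} {ζ : ℝ → E} {w : ℝ → V} {w' : V} {t : ℝ} {s : Set ℝ} (ht : t ∈ s)
    (hG : DifferentiableAt ℂ G (ζ t)) (hi : Function.Injective (fderiv ℂ G (ζ t)))
    (hζ : ContinuousWithinAt ζ s t) (he : ∀ᶠ x in 𝓝[s] t, G (ζ x) = w x)
    (hw : HasDerivWithinAt w w' s t) :
    ∃ ξ, HasDerivWithinAt ζ ξ s t ∧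
      (UniqueDiffWithinAt ℝ s t → fderiv ℂ G (ζ t) ξ = w') := by
  obtain ⟨L, hL⟩ := (fderiv ℂ G (ζ t)).toLinearMap.exists_leftInverse_of_injective
    (LinearMap.ker_eq_bot.2 hi)
  let L' : V →L[ℝ] E := (LinearMap.toContinuousLinearMap L).restrictScalars ℝ
  have h1 : HasFDerivWithinAt G ((fderiv ℂ G (ζ t)).restrictScalars ℝ) univ (ζ t) :=
    (hG.hasFDerivAt.restrictScalars ℝ).hasFDerivWithinAt
  have h2 := HasFDerivWithinAt.of_comp_of_leftInverse (f'symm := L') (g := ζ) (t := univ)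
    (by simpa using hζ.tendsto) h1 hw.hasFDerivWithinAt he
    (fun x => LinearMap.congr_fun hL x) ht
  refine ⟨_, h2.hasDerivWithinAt, fun hu => ?_⟩
  have h3 := ((hG.hasFDerivAt.restrictScalars ℝ).comp_hasDerivWithinAt t h2.hasDerivWithinAt)
  have h4 : HasDerivWithinAt (G ∘ ζ) w' s t :=
    hw.congr_of_eventuallyEq he (he.self_of_nhdsWithin ht)
  exact hu.eq_deriv _ h3 h4

end Pool.Agent.BP.F
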