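import Pool.Agent.Lib.MP_0c623d_al.F.CAux

/-!
Convergence of a path in a covering that stays over a compact set.
-/

set_option autoImplicit false

namespace Pool.Agent.BP.F

open Set Filter Topology

variable {X Y E V : Type*} [TopologicalSpace X] [TopologicalSpace Y]
  [NormedAddCommGroup E] [NormedSpace ℝ E] [NormedAddCommGroup V] [NormedSpace ℝ V]

/-- At `x` the speed of `u` along paths is controlled by `N` of the velocity of `w`. -/
def Good (u : X → E) (w : X → V) (N : V → V → ℝ) (C : ℝ) (x : X) : Prop :=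
  ∀ (c : ℝ → X) (t : ℝ) (w' : V), ContinuousWithinAt c (Ici t) t → c t = x →
    HasDerivWithinAt (fun s => w (c s)) w' (Ici t) t →
      ∃ u', HasDerivWithinAt (fun s => u (c s)) u' (Ici t) t ∧ ‖u'‖ ^ 2 ≤ C * N (w x) w'

theorem Good.mono {u : X → E} {w : X → V} {N : V → V → ℝ} {C D : ℝ} {x : X} (hC : 0 < C)
    (hD : C ≤ D) (h : Good u w N C x) : Good u w N D x := by
  intro c t w' h1 h2 h3
  obtain ⟨u', a, b⟩ := h c t w' h1 h2 h3
  exact ⟨u', a, b.trans (mul_le_mul_of_nonneg_right hD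
    (nonneg_of_mul_nonneg_right ((sq_nonneg _).trans b) hC))⟩

theorem cwa_of_on {c : ℝ → X} {T t : ℝ} (hc : ContinuousOn c (Ico 0 T)) (ht : t ∈ Ico 0 T) :
    ContinuousWithinAt c (Ici t) t :=
  (hc t ht).mono_of_mem_nhdsWithin
    (mem_of_superset (Ico_mem_nhdsGE ht.2) fun _ hx => ⟨ht.1.trans hx.1, hx.2⟩)

theorem conv_of_compact [CompleteSpace E] {p : X → Y} (hp : Continuous p) {u : Y → E}
    (hu : IsInducing u) {w : X → V} {N : V → V → ℝ} {K : Set Y} (hK : IsCompact K)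
    (hA : ∀ y0 ∈ K, ∃ C, 0 < C ∧ ∀ᶠ y in 𝓝 y0, ∀ x, p x = y → Good (fun x => u (p x)) w N C x)
    {c : ℝ → X} {w' : ℝ → V} {T M : ℝ} (hT : 0 < T) (hc : ContinuousOn c (Ico 0 T))
    (hd : ∀ t ∈ Ico 0 T, HasDerivWithinAt (fun s => w (c s)) (w' t) (Ici t) t)
    (hM : ∀ t ∈ Ico 0 T, N (w (c t)) (w' t) ≤ M) (hin : ∀ t ∈ Ico 0 T, p (c t) ∈ K) :
    ∃ y, Tendsto (fun t => p (c t)) (𝓝[<] T) (𝓝 y) := by
  obtain ⟨C, hC, hG⟩ : ∃ C, 0 < C ∧ ∀ y ∈ K, ∀ x, p x = y → Good (fun x => u (p x)) w N C x := by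
    refine hK.induction_on (p := fun S => ∃ C, 0 < C ∧ ∀ y ∈ S, ∀ x, p x = y →
      Good (fun x => u (p x)) w N C x) ⟨1, one_pos, by simp⟩ ?_ ?_ ?_
    · rintro s t hst ⟨C, a, b⟩
      exact ⟨C, a, fun y hy => b y (hst hy)⟩
    · rintro s t ⟨C, a, b⟩ ⟨D, a', b'⟩
      refine ⟨max C D, lt_max_of_lt_left a, fun y hy x hx => ?_⟩
      rcases hy with hy | hy
      · exact (b y hy x hx).mono a (le_max_left _ _)
      · exact (b' y hy x hx).mono a' (le_max_right _ _)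
    · intro y hy
      obtain ⟨C, a, b⟩ := hA y hy
      exact ⟨_, mem_nhdsWithin_of_mem_nhds b, C, a, fun y hy => hy⟩
  have h1 : ∀ t, ∃ u', t ∈ Ico 0 T → HasDerivWithinAt (fun s => u (p (c s))) u' (Ici t) t ∧
      ‖u'‖ ≤ √(C * M) := by
    intro t
    by_cases ht : t ∈ Ico 0 T
    · obtain ⟨u', a, b⟩ := hG _ (hin t ht) _ rfl c t (w' t) (cwa_of_on hc ht) rfl (hd t ht)
      exact ⟨u', fun _ => ⟨a, Real.le_sqrt_of_sq_le
        (b.trans (mul_le_mul_of_nonneg_left (hM t ht) hC.le))⟩⟩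
    · exact ⟨0, fun h => (ht h).elim⟩
  choose u' hu' using h1
  obtain ⟨L, hL⟩ := lim_of_deriv (u := fun s => u (p (c s))) hT
    ((hu.continuous.comp hp).comp_continuousOn hc) (fun t ht => (hu' t ht).1)
    (fun t ht => (hu' t ht).2)
  obtain ⟨y, -, rfl⟩ : L ∈ u '' K :=
    (hK.image hu.continuous).isClosed.mem_of_tendsto hL
      (mem_of_superset (Ico_mem_nhdsLT hT) fun t ht => ⟨_, hin t ht, rfl⟩)
  exact ⟨y, hu.tendsto_nhds_iff.2 hL⟩

/-- The bound `Good` near a point with an immersed analytic chart. -/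
theorem good_of_chart {D E V : Type*} [NormedAddCommGroup D] [NormedSpace ℂ D]
    [FiniteDimensional ℂ D] [NormedAddCommGroup E] [NormedSpace ℂ E] [CompleteSpace E]
    [NormedAddCommGroup V] [NormedSpace ℂ V] [FiniteDimensional ℂ V]
    {u : X → E} {w : X → V} {N : V → V → ℝ} (hN : Continuous fun p : V × V => N p.1 p.2)
    (hh : ∀ (r : ℝ) w v, N w ((r : ℂ) • v) = r ^ 2 * N w v) {x0 : X} {φ : X → D}
    (hφ : ∀ᶠ x in 𝓝 x0, ContinuousAt φ x) {G : D → V} (hG : AnalyticAt ℂ G (φ x0))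
    {U : D → E} (hU : AnalyticAt ℂ U (φ x0)) (hw : ∀ᶠ x in 𝓝 x0, w x = G (φ x))
    (hu : ∀ᶠ x in 𝓝 x0, u x = U (φ x))
    (hp : ∀ ξ, ξ ≠ 0 → 0 < N (G (φ x0)) (fderiv ℂ G (φ x0) ξ)) :
    ∃ C, 0 < C ∧ ∀ᶠ x in 𝓝 x0, Good u w N C x := by
  have := FiniteDimensional.complete ℂ V
  obtain ⟨C, hC, h1⟩ := unif_pos hG hN hh hp
  have h2 : ∀ᶠ d in 𝓝 (φ x0), ‖fderiv ℂ U d‖ < ‖fderiv ℂ U (φ x0)‖ + 1 :=
    hU.fderiv.continuousAt.norm.eventually (gt_mem_nhds (lt_add_one _))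
  have h0 := hφ.self_of_nhds
  refine ⟨(‖fderiv ℂ U (φ x0)‖ + 1) ^ 2 * C, by positivity, ?_⟩
  filter_upwards [hφ, h0 h1, h0 h2, h0 hU.eventually_analyticAt, hw.eventually_nhds,
    hu.eventually_nhds] with x a1 a2 a3 a4 a5 a6 c t w' hc hx hd
  subst hx
  simp only [mem_preimage, mem_ofPred_eq] at a2 a3 a4
  have hi : Function.Injective (fderiv ℂ G (φ (c t))) := by
    refine (injective_iff_map_eq_zero _).2 fun ξ h => ?_
    have e := hh 0 (G (φ (c t))) 0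
    rw [smul_zero] at e
    have := a2.2 ξ
    rw [h, e] at this
    simpa using this
  obtain ⟨ξ, b1, b2⟩ := deriv_of_imm (ζ := fun s => φ (c s)) (w := fun s => w (c s))
    self_mem_Ici a2.1.differentiableAt hi (a1.comp_continuousWithinAt hc)
    ((hc.eventually a5).mono fun s hs => hs.symm) hd
  refine ⟨fderiv ℂ U (φ (c t)) ξ, ?_, ?_⟩
  · exact ((a4.differentiableAt.hasFDerivAt.restrictScalars ℝ).comp_hasDerivWithinAt t
      b1).congr_of_eventuallyEq (hc a6) a6.self_of_nhds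
  · have e1 := a2.2 ξ
    rw [b2 (uniqueDiffWithinAt_Ici t), ← a5.self_of_nhds] at e1
    have e2 : ‖fderiv ℂ U (φ (c t)) ξ‖ ≤ (‖fderiv ℂ U (φ x0)‖ + 1) * ‖ξ‖ :=
      ((fderiv ℂ U _).le_opNorm ξ).trans (mul_le_mul_of_nonneg_right a3.le (norm_nonneg _))
    calc _ ≤ ((‖fderiv ℂ U (φ x0)‖ + 1) * ‖ξ‖) ^ 2 := by gcongr
      _ = (‖fderiv ℂ U (φ x0)‖ + 1) ^ 2 * ‖ξ‖ ^ 2 := mul_pow _ _ _
      _ ≤ _ := by rw [mul_assoc]; gcongr

/-- A continuous root of an analytic function of the chart is analytic in the chart. -/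
theorem root_an {D : Type*} [NormedAddCommGroup D] [NormedSpace ℂ D] {k : ℕ} (hk : k ≠ 0)
    {f : X → ℂ} {φ : X → D} {g : D → ℂ} {x0 : X} (hf : ContinuousAt f x0) (h0 : f x0 ≠ 0)
    (hg : AnalyticAt ℂ g (φ x0)) (he : ∀ x, f x ^ k = g (φ x)) :
    ∃ U : D → ℂ, AnalyticAt ℂ U (φ x0) ∧ ∀ᶠ x in 𝓝 x0, f x = U (φ x) := by
  have hk0 : (0 : ℝ) < k := Nat.cast_pos.2 (Nat.pos_of_ne_zero hk)
  refine ⟨fun ζ => f x0 * (g ζ / f x0 ^ k) ^ ((k : ℂ)⁻¹), ?_, ?_⟩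
  · refine analyticAt_const.mul (AnalyticAt.cpow (hg.div_const) analyticAt_const ?_)
    rw [← he, div_self (pow_ne_zero _ h0)]
    exact Complex.one_mem_slitPlane
  · have h1 : ContinuousAt (fun x => Complex.arg (f x / f x0)) x0 :=
      ContinuousAt.comp (f := fun x => f x / f x0) (Complex.continuousAt_arg (by
        rw [div_self h0]; exact Complex.one_mem_slitPlane)) (hf.div_const _)
    have h2 : Complex.arg (f x0 / f x0) ∈ Ioo (-(Real.pi / k)) (Real.pi / k) := by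
      rw [div_self h0, Complex.arg_one]
      have := div_pos Real.pi_pos hk0
      constructor <;> linarith
    filter_upwards [h1.eventually (isOpen_Ioo.mem_nhds h2)] with x hx
    rw [← he, ← div_pow, Complex.pow_cpow_nat_inv hk hx.1 hx.2.le]
    field_simp

end Pool.Agent.BP.F
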