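import Pool.Agent.Lib.MP_0c623d_al.F.CConv
import Pool.Agent.Lib.MP_0c623d_al.F.Ord

/-!
Local facts on the developed space that are used for completeness.
-/

set_option autoImplicit false

namespace Pool.Agent.BP.F.C5

open Complex Set Filter Topology Matrix

variable {k : ℕ} {H : Type} [Group H]

theorem an_pw (d0 d : E3) : AnalyticAt ℂ (pw k d0) d := by
  refine analyticAt_pi_iff.2 fun p => ?_
  unfold pw
  split_ifs
  · exact ((ContinuousLinearMap.proj (R := ℂ) (φ := fun _ : Fin 3 => ℂ) p).analyticAt d).pow k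
  · exact (ContinuousLinearMap.proj (R := ℂ) (φ := fun _ : Fin 3 => ℂ) p).analyticAt d

theorem an_cfg (d : E3) : AnalyticAt ℂ cfg d := by
  have h := fun p => (ContinuousLinearMap.proj (R := ℂ) (φ := fun _ : Fin 3 => ℂ) p).analyticAt d
  refine analyticAt_pi_iff.2 fun i => ?_
  fin_cases i
  · exact analyticAt_const
  · exact h 0
  · exact (h 0).add (h 1)
  · exact ((h 0).add (h 1)).add (h 2)

theorem pow_eq_cfg (y0 y : Y k) (i j : Fin 4) : y.1 i j ^ k =
    cfg (pw k (dd y0) (zeta y0 y)) ((sg y0)⁻¹ j) - cfg (pw k (dd y0) (zeta y0 y)) ((sg y0)⁻¹ i) := by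
  have h1 := congrFun (pos_sg y0 y) ((sg y0)⁻¹ i)
  have h2 := congrFun (pos_sg y0 y) ((sg y0)⁻¹ j)
  simp only [Function.comp, Equiv.Perm.coe_inv, Equiv.apply_symm_apply] at h1 h2 ⊢
  rw [← pos_sub, h1, h2]
  ring

/-- The roots are analytic functions of the chart. -/
theorem val_an (hk : Odd k) (y0 : Y k) : ∃ U : E3 → Fin 4 → Fin 4 → ℂ,
    AnalyticAt ℂ U (zeta y0 y0) ∧ ∀ᶠ y in 𝓝 y0, y.1 = U (zeta y0 y) := by
  have pr := fun p => (ContinuousLinearMap.proj (R := ℂ) (φ := fun _ : Fin 3 => ℂ) p).analyticAt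
    (zeta y0 y0)
  have h1 : ∀ i j, (sg y0)⁻¹ i < (sg y0)⁻¹ j → ∃ U : E3 → ℂ,
      AnalyticAt ℂ U (zeta y0 y0) ∧ ∀ᶠ y in 𝓝 y0, y.1 i j = U (zeta y0 y) := by
    intro i j hij
    by_cases h0 : y0.1 i j = 0
    · obtain ⟨p, rfl, rfl⟩ := srt_adj (noTriple_pos hk y0) hij ((pos_eq_iff hk y0 _ _).2 h0)
      refine ⟨fun ζ => ζ p, pr p, Eventually.of_forall fun y => ?_⟩
      simp only [zeta, (dd_eq_zero hk y0 p).2 h0, if_true]
      rfl
    · have a := (an_cfg _).comp (an_pw (k := k) (dd y0) (zeta y0 y0))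
      exact root_an hk.pos.ne' (f := fun y : Y k => y.1 i j) (φ := zeta y0)
        (cont_root i j).continuousAt h0
        ((analyticAt_pi_iff.1 a ((sg y0)⁻¹ j)).sub (analyticAt_pi_iff.1 a ((sg y0)⁻¹ i)))
        fun y => pow_eq_cfg y0 y i j
  have h2 : ∀ i j, ∃ U : E3 → ℂ,
      AnalyticAt ℂ U (zeta y0 y0) ∧ ∀ᶠ y in 𝓝 y0, y.1 i j = U (zeta y0 y) := by
    intro i j
    rcases lt_trichotomy ((sg y0)⁻¹ i) ((sg y0)⁻¹ j) with h | h | h
    · exact h1 i j h
    · obtain rfl : i = j := (sg y0)⁻¹.injective h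
      exact ⟨fun _ => 0, analyticAt_const, Eventually.of_forall fun y => root_self y i⟩
    · obtain ⟨U, a, b⟩ := h1 j i h
      exact ⟨fun ζ => -U ζ, a.neg, b.mono fun y e => by rw [y.2.1 j i, e]⟩
  choose U a b using h2
  refine ⟨fun ζ i j => U i j ζ, analyticAt_pi_iff.2 fun i => analyticAt_pi_iff.2 fun j => a i j, ?_⟩
  filter_upwards [eventually_all.2 fun i => eventually_all.2 fun j => b i j] with y hy
  exact funext fun i => funext fun j => hy i j

theorem hh_cont (Hm : Mat) : Continuous fun p : V × V => hh Hm p.1 p.2 := by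
  unfold hh
  fun_prop

theorem QQ_cont (Hm : Mat) : Continuous fun p : V × V => QQ Hm p.1 p.2 := by
  have h := hh_cont Hm
  have h1 : Continuous fun p : V × V => hh Hm p.1 p.1 :=
    h.comp (f := fun p : V × V => (p.1, p.1)) (by fun_prop)
  have h2 : Continuous fun p : V × V => hh Hm p.2 p.2 :=
    h.comp (f := fun p : V × V => (p.2, p.2)) (by fun_prop)
  unfold QQ
  fun_prop

theorem hh_smul_r (Hm : Mat) (c : ℂ) (v w : V) : hh Hm v (c • w) = c * hh Hm v w := by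
  simp [hh, mulVec_smul]

theorem hh_smul_l (Hm : Mat) (c : ℂ) (v w : V) : hh Hm (c • v) w = star c * hh Hm v w := by
  simp [hh]

theorem hh_add_r (Hm : Mat) (v w u : V) : hh Hm v (w + u) = hh Hm v w + hh Hm v u := by
  simp [hh, mulVec_add]

theorem hh_add_l (Hm : Mat) (v w u : V) : hh Hm (v + w) u = hh Hm v u + hh Hm w u := by
  simp [hh]

theorem hh_conj {Hm : Mat} (h : Hm.IsHermitian) (v w : V) : hh Hm w v = star (hh Hm v w) := by
  unfold hh
  rw [star_dotProduct, star_mulVec, h.eq, dotProduct_mulVec]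

theorem QQ_smul (Hm : Mat) (r : ℝ) (w v : V) : QQ Hm w ((r : ℂ) • v) = r ^ 2 * QQ Hm w v := by
  simp only [QQ, hh_smul_r, hh_smul_l, norm_mul, mul_pow, Complex.norm_real, Real.norm_eq_abs,
    sq_abs, star_def, conj_ofReal, re_ofReal_mul]
  ring

theorem QQ_pos {Hm : Mat} (h : Hm.IsHermitian) {w : V} {D : E3 →L[ℂ] V} (hs : Spacelike Hm w D)
    {e : E3} (he : D e = w) {ξ : E3} (hξ : ξ ≠ 0) : 0 < QQ Hm w (D ξ) := by
  have hr : hh Hm w w = ((hh Hm w w).re : ℂ) := (conj_eq_iff_re.1 (hh_conj h w w).symm).symm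
  obtain ⟨φ, hφ⟩ : ∃ φ, φ = (hh Hm w w).re := ⟨_, rfl⟩
  have h0 : 0 < φ := hφ ▸ hs.1
  rw [← hφ] at hr
  have hφ' : (φ : ℂ) ≠ 0 := ofReal_ne_zero.2 h0.ne'
  obtain ⟨c, hc⟩ : ∃ c : ℂ, hh Hm w (D ξ) = c * φ := ⟨_, (div_mul_cancel₀ _ hφ').symm⟩
  obtain ⟨η, hη⟩ : ∃ η, ξ = η + c • e := ⟨ξ - c • e, by simp⟩
  have hD : D ξ = D η + c • w := by rw [hη, map_add, map_smul, he]
  have h1 : hh Hm w (D η) = 0 := by
    rw [hD, hh_add_r, hh_smul_r, hr] at hc
    exact add_eq_right.1 hc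
  have h2 : hh Hm (D η) w = 0 := by rw [hh_conj h, h1, star_zero]
  have h3 : (hh Hm (D ξ) (D ξ)).re = (hh Hm (D η) (D η)).re + ‖c‖ ^ 2 * φ := by
    rw [hD]
    simp only [hh_add_l, hh_add_r, hh_smul_l, hh_smul_r, h1, h2, hr, mul_zero, add_zero, zero_add]
    rw [← mul_assoc, star_def, mul_conj', add_re]
    norm_cast
  rw [QQ, hc, h3, ← hφ, norm_mul, Complex.norm_real, Real.norm_of_nonneg h0.le]
  by_cases h4 : η = 0
  · have h5 : c ≠ 0 := by
      rintro rfl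
      simp [h4] at hη
      exact hξ hη
    have := norm_pos_iff.2 h5
    simp only [h4, map_zero, hh, mulVec_zero, dotProduct_zero, zero_re, zero_add]
    have : 0 < (‖c‖ * φ) ^ 2 := by positivity
    nlinarith
  · have := mul_pos h0 (neg_pos.2 (hs.2 η h4 h1))
    nlinarith [sq_nonneg (‖c‖ * φ)]

variable (A : AN k) (L : Lab k H) (ρ : H →* Matˣ)

theorem QQ_uni (hU : A.Uni ρ) (g : H) (w v : V) :
    QQ A.Hm ((ρ g : Mat) *ᵥ w) ((ρ g : Mat) *ᵥ v) = QQ A.Hm w v := by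
  simp only [QQ, hU g]

theorem rho_mul (g h : H) (v : V) :
    (ρ (g * h) : Mat) *ᵥ v = (ρ g : Mat) *ᵥ (ρ h : Mat) *ᵥ v := by
  rw [map_mul, Units.val_mul, mulVec_mulVec]

/-- Near every point over a neighbourhood of `y0` the developing map is a translate of the chart
function of `y0`. -/
theorem dev_near (hc : Coc L.bb) (hL : A.Loc L ρ) (y0 : Y k) : ∀ᶠ y in 𝓝 y0, ∀ x : L.X, x.x = y →
    ∃ γ : H, ∀ᶠ x' in 𝓝 x, (ρ γ : Mat) *ᵥ A.dev L ρ x' = A.G (dd y0) (zeta y0 x'.x) := by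
  filter_upwards [hc.2 y0, (hL y0).eventually_nhds] with y h1 h2 x hx
  subst hx
  refine ⟨L.bb y0 x.x * x.g⁻¹, ?_⟩
  filter_upwards [tot_ev hc x, (tot_x_cont hc).continuousAt.eventually h1,
    (tot_x_cont hc).continuousAt.eventually h2] with x' e1 e2 e3
  rw [AN.dev, ← rho_mul, e1, ← e3, e2]
  congr 3
  group

theorem dev_ev (hc : Coc L.bb) (hL : A.Loc L ρ) (x : L.X) : ∀ᶠ x' in 𝓝 x,
    A.dev L ρ x' = (ρ x.g : Mat) *ᵥ A.G (dd x.x) (zeta x.x x'.x) := by
  filter_upwards [tot_ev hc x, (tot_x_cont hc).continuousAt.eventually (hL x.x)] with x' e1 e2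
  rw [AN.dev, e1, rho_mul, e2]

theorem G_an (hk : Odd k) (y : Y k) : AnalyticAt ℂ (A.G (dd y)) (zeta y y) := by
  rw [zeta_self hk]
  exact (A.G_spec (adm_dd hk y)).1

theorem dev_cont (hk : Odd k) (hc : Coc L.bb) (hL : A.Loc L ρ) : Continuous (A.dev L ρ) := by
  refine continuous_iff_continuousAt.2 fun x => ContinuousAt.congr ?_
    ((dev_ev A L ρ hc hL x).mono fun _ e => e.symm)
  have h1 : ContinuousAt (fun x' : L.X => A.G (dd x.x) (zeta x.x x'.x)) x :=
    ContinuousAt.comp (f := fun x' : L.X => zeta x.x x'.x) (G_an A hk x.x).continuousAt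
      ((cont_zeta x.x).comp (tot_x_cont hc)).continuousAt
  exact (Continuous.matrix_mulVec continuous_const continuous_id).continuousAt.comp h1

theorem deriv_mulVec (B : Mat) {w : ℝ → V} {v : V} {s : Set ℝ} {t : ℝ}
    (h : HasDerivWithinAt w v s t) : HasDerivWithinAt (fun t => B *ᵥ w t) (B *ᵥ v) s t :=
  ((LinearMap.toContinuousLinearMap (Matrix.mulVecLin B)).restrictScalars
    ℝ).hasFDerivAt.comp_hasDerivWithinAt t h

/-- A path in the developed space converges when its projection does. -/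
theorem lim_tot {X π : Type} [TopologicalSpace X] [Group π] {b : X → X → π} (hc : Coc b)
    {c : ℝ → Tot b} {T : ℝ} (hT : 0 < T) (hcc : ContinuousOn c (Ico 0 T)) {y : X}
    (hy : Tendsto (fun t => (c t).x) (𝓝[<] T) (𝓝 y)) : ∃ x, Tendsto c (𝓝[<] T) (𝓝 x) := by
  obtain ⟨a, ha, hsub⟩ := (mem_nhdsLT_iff_exists_Ioo_subset' hT).1
    ((hy.eventually (hc.2 y)).and (Ioo_mem_nhdsLT hT))
  have haT : a < T := ha
  have : PreconnectedSpace (Ioo a T) := Subtype.preconnectedSpace isPreconnected_Ioo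
  have dc : Continuous fun t : Ioo a T => c t :=
    (hcc.mono fun t ht => Ioo_subset_Ico_self (hsub ht).2).domRestrict
  have hl : IsLocallyConstant fun t : Ioo a T => (c t).g * (b y (c t).x)⁻¹ := by
    refine (IsLocallyConstant.iff_eventually_eq _).2 fun t => ?_
    filter_upwards [dc.continuousAt.eventually (tot_ev hc (c t)),
      ((tot_x_cont hc).comp dc).continuousAt.eventually (hsub t.2).1] with s e1 e2
    simp only [Function.comp] at e2
    rw [e1, e2]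
    group
  let t0 : Ioo a T := ⟨(a + T) / 2, by constructor <;> linarith⟩
  refine ⟨⟨y, (c t0).g * (b y (c t0).x)⁻¹⟩, (tot_tendsto hc).2 ⟨hy, ?_⟩⟩
  filter_upwards [Ioo_mem_nhdsLT haT] with t ht
  rw [← hl.apply_eq_of_preconnectedSpace ⟨t, ht⟩ t0]
  simp

end Pool.Agent.BP.F.C5
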