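import Pool.Agent.Lib.MP_0c623d_al.F.CLoc

/-!
Scaling of the base and compact subsets of the base.
-/

set_option autoImplicit false

namespace Pool.Agent.BP.F.C5

open Complex Set Filter Topology Matrix

variable {k : ℕ}

/-- Scaling of the roots by a positive real number. -/
noncomputable def scl (r : ℝ) (hr : 0 < r) (y : Y k) : Y k :=
  ⟨fun i j => r * y.1 i j, fun i j => by simp only [y.2.1 i j, mul_neg], fun i j l => by
    simp only [mul_pow]; rw [← mul_add, y.2.2.1], fun i j l a b c e =>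
    y.2.2.2 i j l a b c ⟨(mul_eq_zero.1 e.1).resolve_left (ofReal_ne_zero.2 hr.ne'),
      (mul_eq_zero.1 e.2).resolve_left (ofReal_ne_zero.2 hr.ne')⟩⟩

theorem lexNN_mul {t : ℝ} (ht : 0 < t) {z : ℂ} (h : LexNN z) : LexNN (t * z) := by
  rcases h with h | h
  · exact Or.inl (by simpa using mul_pos ht h)
  · exact Or.inr ⟨by simp [h.1], by simpa using mul_nonneg ht.le h.2⟩

theorem srt_mul {t : ℝ} (ht : 0 < t) (a : Cf) : srt (fun i => t * a i) = srt a := by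
  have h := (Tuple.eq_sort_iff (f := fun i => lex (a i)) (σ := srt a)).1 rfl
  refine ((Tuple.eq_sort_iff (f := fun i => lex (t * a i))).2 ⟨fun p q hpq => ?_,
    fun i j hij e => h.2 i j hij ?_⟩).symm
  · refine lex_le.2 ?_
    rw [← mul_sub]
    exact lexNN_mul ht (srt_lexNN a hpq)
  · exact lex_inj.2 (mul_left_cancel₀ (ofReal_ne_zero.2 ht.ne') (lex_inj.1 e))

theorem pos_scl (r : ℝ) (hr : 0 < r) (y : Y k) :
    pos (scl r hr y) = fun i => ((r ^ k : ℝ) : ℂ) * pos y i := by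
  funext i
  simp [pos, scl, mul_pow]

theorem dd_scl (r : ℝ) (hr : 0 < r) (y : Y k) : dd (scl r hr y) = ((r ^ k : ℝ) : ℂ) • dd y := by
  have h : sg (scl r hr y) = sg y := by rw [sg, pos_scl, srt_mul (pow_pos hr k), sg]
  funext p
  rw [Pi.smul_apply, dd_eq, dd_eq, h, pos_scl, smul_eq_mul, mul_sub]

theorem norm_scl (r : ℝ) (hr : 0 < r) (y : Y k) : ‖(scl r hr y).1‖ = r * ‖y.1‖ := by
  have : (scl r hr y).1 = (r : ℂ) • y.1 := rfl
  rw [this, norm_smul, Complex.norm_real, Real.norm_of_nonneg hr.le]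

theorem scl_scl (r : ℝ) (hr : 0 < r) (y : Y k) : scl r hr (scl r⁻¹ (inv_pos.2 hr) y) = y := by
  refine Subtype.ext (funext fun i => funext fun j => ?_)
  have : (r : ℂ) ≠ 0 := ofReal_ne_zero.2 hr.ne'
  simp [scl, this]

theorem norm_pos (y : Y k) : 0 < ‖y.1‖ := norm_pos_iff.2 fun h =>
  y.2.2.2 0 1 2 (by decide) (by decide) (by decide) (by simp [h])

/-- All triples have relative size at least `η`. -/
def Wide (η : ℝ) (b : Cf) : Prop := ∀ i j l : Fin 4, i ≠ j → j ≠ l → i ≠ l → ∀ i' j' : Fin 4,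
  η * ‖b i' - b j'‖ ≤ ‖b i - b j‖ + ‖b j - b l‖

theorem wide_scl {η : ℝ} (r : ℝ) (hr : 0 < r) {y : Y k} (h : Wide η (pos y)) :
    Wide η (pos (scl r hr y)) := by
  intro i j l a b c i' j'
  simp only [pos_scl, ← mul_sub, norm_mul]
  rw [← mul_add, mul_left_comm]
  exact mul_le_mul_of_nonneg_left (h i j l a b c i' j') (norm_nonneg _)

theorem compact_wide (hk : Odd k) {η r1 r2 : ℝ} (hη : 0 < η) (h1 : 0 < r1) :
    IsCompact {y : Y k | r1 ≤ ‖y.1‖ ∧ ‖y.1‖ ≤ r2 ∧ Wide η (pos y)} := by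
  let K : Set (Fin 4 → Fin 4 → ℂ) := {u | (∀ i j, u j i = - u i j) ∧
    (∀ i j l, u i j ^ k + u j l ^ k = u i l ^ k) ∧ r1 ≤ ‖u‖ ∧ ‖u‖ ≤ r2 ∧
    Wide η fun i => u 0 i ^ k}
  have hc : IsClosed K := by
    simp only [K, Wide, ofPred_and, ofPred_forall]
    refine IsClosed.inter ?_ (IsClosed.inter ?_ (IsClosed.inter ?_ (IsClosed.inter ?_ ?_)))
    · exact isClosed_iInter fun i => isClosed_iInter fun j => isClosed_eq (by fun_prop) (by fun_prop)
    · exact isClosed_iInter fun i => isClosed_iInter fun j => isClosed_iInter fun l =>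
        isClosed_eq (by fun_prop) (by fun_prop)
    · exact isClosed_le (by fun_prop) (by fun_prop)
    · exact isClosed_le (by fun_prop) (by fun_prop)
    · iterate 8 refine isClosed_iInter fun _ => ?_
      exact isClosed_le (by fun_prop) (by fun_prop)
  have hK : IsCompact K := Metric.isCompact_of_isClosed_isBounded hc
    ((Metric.isBounded_closedBall (x := 0) (r := r2)).subset fun u hu => by simpa using hu.2.2.2.1)
  have hr : K ⊆ range (Subtype.val : Y k → _) := by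
    rintro u ⟨a, b, c, d, e⟩
    refine ⟨⟨u, a, b, fun i j l x y z w => ?_⟩, rfl⟩
    have s : ∀ i j, u 0 i ^ k - u 0 j ^ k = u j i ^ k := fun i j => by rw [← b 0 j i]; ring
    have h0 : u = 0 := by
      funext i' j'
      have := e i j l x y z j' i'
      simp only [s] at this
      rw [a i j, a j l, w.1, w.2, neg_zero, zero_pow hk.pos.ne', norm_zero, add_zero] at this
      have h2 := nonpos_of_mul_nonpos_right this hη
      exact pow_eq_zero_iff hk.pos.ne' |>.1 (norm_le_zero_iff.1 h2)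
    rw [h0, norm_zero] at c
    linarith
  have e : {y : Y k | r1 ≤ ‖y.1‖ ∧ ‖y.1‖ ≤ r2 ∧ Wide η (pos y)} = Subtype.val ⁻¹' K :=
    Set.ext fun y => ⟨fun h => ⟨y.2.1, y.2.2.1, h⟩, fun h => h.2.2⟩
  rw [e]
  exact IsInducing.subtypeVal.isCompact_preimage' hK hr

theorem rpow_range {θ a b : ℝ} (hθ : θ ≠ 0) (ha : 0 < a) :
    ∃ r1 r2, 0 < r1 ∧ ∀ r : ℝ, 0 < r → a ≤ r ^ θ → r ^ θ ≤ b → r1 ≤ r ∧ r ≤ r2 := by
  refine ⟨Real.exp (-((|Real.log a| + |Real.log b|) / |θ|)),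
    Real.exp ((|Real.log a| + |Real.log b|) / |θ|), Real.exp_pos _, fun r hr h1 h2 => ?_⟩
  have e1 := Real.log_le_log ha h1
  have e2 := Real.log_le_log (Real.rpow_pos_of_pos hr θ) h2
  rw [Real.log_rpow hr] at e1 e2
  have h3 : |Real.log r| ≤ (|Real.log a| + |Real.log b|) / |θ| := by
    rw [le_div_iff₀ (abs_pos.2 hθ), ← abs_mul, mul_comm, abs_le]
    constructor <;> linarith [neg_abs_le (Real.log a), le_abs_self (Real.log b),
      abs_nonneg (Real.log a), abs_nonneg (Real.log b)]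
  rw [abs_le] at h3
  exact ⟨(Real.le_log_iff_exp_le hr).1 h3.1, (Real.log_le_iff_le_exp hr).1 h3.2⟩

/-- A positive homogeneous function bounds the scale. -/
theorem scale_range (hk : Odd k) {φ : Y k → ℝ} (hc : Continuous φ) (hp : ∀ y, 0 < φ y) {θ : ℝ}
    (hθ : θ ≠ 0) (hs : ∀ r hr y, φ (scl r hr y) = r ^ θ * φ y) {η ε B : ℝ} (hη : 0 < η)
    (hε : 0 < ε) : ∃ r1 r2, 0 < r1 ∧ ∀ y, Wide η (pos y) → ε ≤ φ y → φ y ≤ B →
      r1 ≤ ‖y.1‖ ∧ ‖y.1‖ ≤ r2 := by
  have hK := compact_wide hk (r2 := 1) hη one_pos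
  obtain ⟨c2, h2⟩ := hK.bddAbove_image hc.continuousOn
  obtain ⟨c3, h3⟩ := hK.bddAbove_image
    (hc.inv₀ fun y => (hp y).ne').continuousOn
  obtain ⟨r1, r2, h1, h⟩ := rpow_range (a := ε / max c2 1) (b := B * c3) hθ (by positivity)
  refine ⟨r1, r2, h1, fun y hw a b => ?_⟩
  have hr := norm_pos y
  have hm : scl ‖y.1‖⁻¹ (inv_pos.2 hr) y ∈
      {y : Y k | 1 ≤ ‖y.1‖ ∧ ‖y.1‖ ≤ 1 ∧ Wide η (pos y)} := by
    refine ⟨?_, ?_, wide_scl _ _ hw⟩ <;> rw [norm_scl, inv_mul_cancel₀ hr.ne']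
  have e := hs _ hr (scl ‖y.1‖⁻¹ (inv_pos.2 hr) y)
  rw [scl_scl] at e
  have p1 := h2 ⟨_, hm, rfl⟩
  have p2 := h3 ⟨_, hm, rfl⟩
  have p3 := hp (scl ‖y.1‖⁻¹ (inv_pos.2 hr) y)
  have p4 := Real.rpow_pos_of_pos hr θ
  simp only [Pi.inv_apply] at p2
  generalize φ (scl ‖y.1‖⁻¹ (inv_pos.2 hr) y) = x at *
  refine h _ hr ?_ ?_
  · rw [div_le_iff₀ (by positivity)]
    exact a.trans (e.trans_le (mul_le_mul_of_nonneg_left (p1.trans (le_max_left _ _)) p4.le))
  · have : ‖y.1‖ ^ θ = φ y * x⁻¹ := by rw [e]; field_simp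
    rw [this]
    exact mul_le_mul b p2 (inv_pos.2 p3).le ((hp y).le.trans b)

end Pool.Agent.BP.F.C5
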