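import Pool.Agent.Lib.MP_0c623d_al.F.Ord

/-! Block F: charts of the base and of the developed space. -/

namespace Pool.Agent.BP.F

open Filter Topology Complex Set

/-- Two germs that are inverse to each other define a chart. -/
theorem germ_chart {X Z : Type} [TopologicalSpace X] [TopologicalSpace Z] {f : X → Z} {g : Z → X}
    {x : X} (h1 : ∀ᶠ x' in 𝓝 x, ContinuousAt f x' ∧ g (f x') = x')
    (h2 : ∀ᶠ z in 𝓝 (f x), ContinuousAt g z ∧ f (g z) = z) :
    ∃ e : OpenPartialHomeomorph X Z, x ∈ e.source ∧ (∀ x', e x' = f x') ∧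
      (∀ z, e.symm z = g z) ∧ ∀ x' ∈ e.source, g (f x') = x' := by
  obtain ⟨U, hU, oU, xU⟩ := eventually_nhds_iff.1 h1
  obtain ⟨W, hW, oW, xW⟩ := eventually_nhds_iff.1 h2
  have cf : ContinuousOn f U := fun a ha => (hU a ha).1.continuousWithinAt
  have cg : ContinuousOn g W := fun a ha => (hW a ha).1.continuousWithinAt
  refine ⟨{
    toFun := f
    invFun := g
    source := U ∩ f ⁻¹' W
    target := W ∩ g ⁻¹' U
    map_source' := fun a ha => ⟨ha.2, by rw [mem_preimage, (hU a ha.1).2]; exact ha.1⟩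
    map_target' := fun a ha => ⟨ha.2, by rw [mem_preimage, (hW a ha.1).2]; exact ha.1⟩
    left_inv' := fun a ha => (hU a ha.1).2
    right_inv' := fun a ha => (hW a ha.1).2
    open_source := cf.isOpen_inter_preimage oU oW
    open_target := cg.isOpen_inter_preimage oW oU
    continuousOn_toFun := cf.mono inter_subset_left
    continuousOn_invFun := cg.mono inter_subset_left },
    ⟨xU, xW⟩, fun _ => rfl, fun _ => rfl, fun a ha => (hU a ha.1).2⟩

namespace Chart

/-- The roots at neighbouring positions. -/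
noncomputable def col (ζ : E3) (a b : Fin 4) : ℂ :=
  ∑ p : Fin 3, ((if a = p.castSucc ∧ b = p.succ then ζ p else 0) -
    if b = p.castSucc ∧ a = p.succ then ζ p else 0)

theorem col_anti (ζ : E3) (a b : Fin 4) : col ζ b a = -col ζ a b := by
  simp only [col, ← Finset.sum_neg_distrib, neg_sub]

theorem col_self (ζ : E3) (a : Fin 4) : col ζ a a = 0 := by simp only [col, sub_self]; simp

theorem col_adj (ζ : E3) (p : Fin 3) : col ζ p.castSucc p.succ = ζ p := by
  rw [col, Fin.sum_univ_three]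
  fin_cases p <;> simp (decide := true)

theorem col_cont (a b : Fin 4) : Continuous fun ζ => col ζ a b :=
  continuous_finsetSum _ fun p _ => Continuous.sub
    (by split_ifs; exacts [continuous_apply p, continuous_const])
    (by split_ifs; exacts [continuous_apply p, continuous_const])

theorem cfg_adj (d : E3) (p : Fin 3) : cfg d p.succ - cfg d p.castSucc = d p := by
  fin_cases p <;> simp [cfg]

variable {k : ℕ}

/-- The difference of two points in the chart. -/
noncomputable def df (y : Y k) (ζ : E3) (i j : Fin 4) : ℂ :=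
  cfg (pw k (dd y) ζ) ((sg y)⁻¹ j) - cfg (pw k (dd y) ζ) ((sg y)⁻¹ i)

theorem df_cont (y : Y k) (i j : Fin 4) : Continuous fun ζ => df y ζ i j := by
  have h1 : ∀ p, Continuous fun ζ : E3 => pw k (dd y) ζ p := fun p => by
    unfold pw
    split_ifs
    exacts [(continuous_apply p).pow k, continuous_apply p]
  have h2 : ∀ a, Continuous fun ζ : E3 => cfg (pw k (dd y) ζ) a := fun a => by
    fin_cases a
    exacts [continuous_const, h1 0, (h1 0).add (h1 1), ((h1 0).add (h1 1)).add (h1 2)]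
  exact (h2 _).sub (h2 _)

theorem df_adj (y : Y k) (ζ : E3) (p : Fin 3) :
    df y ζ (sg y p.castSucc) (sg y p.succ) = pw k (dd y) ζ p := by
  simp only [df, Equiv.Perm.coe_inv, Equiv.symm_apply_apply, cfg_adj]

theorem df_zeta (y y' : Y k) (i j : Fin 4) : df y (zeta y y') i j = y'.1 i j ^ k := by
  have h := fun a => congrFun (pos_sg y y') ((sg y)⁻¹ a)
  simp only [Function.comp_apply, Equiv.Perm.coe_inv, Equiv.apply_symm_apply] at h
  rw [← pos_sub, h i, h j, add_sub_add_right_eq_sub]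
  rfl

/-- The inverse of the chart. -/
noncomputable def iv (y : Y k) (ζ : E3) (i j : Fin 4) : ℂ :=
  if y.1 i j = 0 then col ζ ((sg y)⁻¹ i) ((sg y)⁻¹ j)
  else y.1 i j * (df y ζ i j / y.1 i j ^ k) ^ ((k : ℂ)⁻¹)

theorem zero_cases (hk : Odd k) (y : Y k) {i j : Fin 4} (h : y.1 i j = 0) :
    i = j ∨ (∃ p : Fin 3, i = sg y p.castSucc ∧ j = sg y p.succ) ∨
      ∃ p : Fin 3, j = sg y p.castSucc ∧ i = sg y p.succ := by
  have e := (pos_eq_iff hk y i j).2 h
  rcases lt_trichotomy ((sg y)⁻¹ i) ((sg y)⁻¹ j) with c | c | c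
  · exact Or.inr (Or.inl (srt_adj (noTriple_pos hk y) c e))
  · exact Or.inl ((sg y)⁻¹.injective c)
  · exact Or.inr (Or.inr (srt_adj (noTriple_pos hk y) c e.symm))

theorem iv_anti (hk : Odd k) (y : Y k) (ζ : E3) (i j : Fin 4) : iv y ζ j i = -iv y ζ i j := by
  unfold iv
  rw [y.2.1 i j]
  by_cases h : y.1 i j = 0
  · rw [if_pos h, if_pos (neg_eq_zero.2 h), col_anti]
  · rw [if_neg h, if_neg (neg_ne_zero.2 h), hk.neg_pow, neg_mul,
      show df y ζ j i = -df y ζ i j from (neg_sub _ _).symm, neg_div_neg_eq]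

theorem iv_adj (y : Y k) (ζ : E3) (p : Fin 3) (h : y.1 (sg y p.castSucc) (sg y p.succ) = 0) :
    iv y ζ (sg y p.castSucc) (sg y p.succ) = ζ p := by
  simp only [iv, if_pos h, Equiv.Perm.coe_inv, Equiv.symm_apply_apply, col_adj]

theorem iv_pow (hk : Odd k) (y : Y k) (ζ : E3) (i j : Fin 4) : iv y ζ i j ^ k = df y ζ i j := by
  have key : ∀ p : Fin 3, y.1 (sg y p.castSucc) (sg y p.succ) = 0 →
      iv y ζ (sg y p.castSucc) (sg y p.succ) ^ k = df y ζ (sg y p.castSucc) (sg y p.succ) :=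
    fun p h => by rw [iv_adj y ζ p h, df_adj, pw, if_pos ((dd_eq_zero hk y p).2 h)]
  by_cases h : y.1 i j = 0
  · rcases zero_cases hk y h with rfl | ⟨p, rfl, rfl⟩ | ⟨p, rfl, rfl⟩
    · rw [iv, if_pos h, col_self, zero_pow hk.pos.ne', df, sub_self]
    · exact key p h
    · rw [iv_anti hk, hk.neg_pow, key p (by rw [y.2.1, h, neg_zero])]
      exact neg_sub _ _
  · rw [iv, if_neg h, mul_pow, cpow_nat_inv_pow _ hk.pos.ne', mul_div_cancel₀ _ (pow_ne_zero k h)]

theorem iv_left (hk : Odd k) (y : Y k) : ∀ᶠ y' in 𝓝 y, iv y (zeta y y') = y'.1 := by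
  have key : ∀ (y' : Y k) (p : Fin 3), y.1 (sg y p.castSucc) (sg y p.succ) = 0 →
      iv y (zeta y y') (sg y p.castSucc) (sg y p.succ) = y'.1 (sg y p.castSucc) (sg y p.succ) :=
    fun y' p h => by rw [iv_adj y _ p h, zeta, if_pos ((dd_eq_zero hk y p).2 h), rt]
  simp only [funext_iff, eventually_all]
  intro i j
  by_cases h : y.1 i j = 0
  · refine Eventually.of_forall fun y' => ?_
    rcases zero_cases hk y h with rfl | ⟨p, rfl, rfl⟩ | ⟨p, rfl, rfl⟩
    · rw [iv, if_pos h, col_self, root_self]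
    · exact key y' p h
    · rw [iv_anti hk, key y' p (by rw [y.2.1, h, neg_zero]), ← y'.2.1]
  · have c1 : ContinuousAt (fun y' : Y k => arg (y'.1 i j / y.1 i j)) y :=
      (continuousAt_arg (by rw [div_self h]; exact one_mem_slitPlane)).comp_of_eq
        ((cont_root i j).div_const _).continuousAt rfl
    have p0 : 0 < Real.pi / k := div_pos Real.pi_pos (Nat.cast_pos.2 hk.pos)
    have e0 : arg (y.1 i j / y.1 i j) = 0 := by rw [div_self h, arg_one]
    filter_upwards [continuousAt_const.eventually_lt c1 (e0 ▸ neg_lt_zero.2 p0),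
      c1.eventually_lt continuousAt_const (e0 ▸ p0)] with y' a b
    rw [iv, if_neg h, df_zeta, ← div_pow, pow_cpow_nat_inv hk.pos.ne' a b.le, mul_div_cancel₀ _ h]

theorem iv_cont (y : Y k) : ∀ᶠ ζ in 𝓝 (zeta y y), ContinuousAt (iv y) ζ := by
  simp only [continuousAt_pi, eventually_all]
  intro i j
  by_cases h : y.1 i j = 0
  · simp only [iv, if_pos h]
    exact Eventually.of_forall fun _ => (col_cont _ _).continuousAt
  · simp only [iv, if_neg h]
    have c1 := (df_cont y i j).div_const (y.1 i j ^ k)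
    have m : df y (zeta y y) i j / y.1 i j ^ k ∈ slitPlane := by
      rw [df_zeta, div_self (pow_ne_zero k h)]; exact one_mem_slitPlane
    filter_upwards [c1.continuousAt.eventually (isOpen_slitPlane.mem_nhds m)] with ζ hζ
    exact continuousAt_const.mul (c1.continuousAt.cpow continuousAt_const hζ)

theorem iv_mem (hk : Odd k) (y : Y k) : ∀ᶠ ζ in 𝓝 (zeta y y), IsY k (iv y ζ) := by
  have h0 := (iv_left hk y).self_of_nhds
  have h1 := continuousAt_pi.1 (iv_cont y).self_of_nhds
  have h2 : ∀ᶠ ζ in 𝓝 (zeta y y), ∀ i j, y.1 i j ≠ 0 → iv y ζ i j ≠ 0 := by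
    simp only [eventually_all]
    exact fun i j h => (continuousAt_pi.1 (h1 i) j).eventually_ne (by rwa [h0])
  filter_upwards [h2] with ζ hζ
  refine ⟨iv_anti hk y ζ, fun i j l => ?_, fun i j l a b c e => y.2.2.2 i j l a b c
    ⟨by_contra fun q => hζ _ _ q e.1, by_contra fun q => hζ _ _ q e.2⟩⟩
  simp only [iv_pow hk, df]
  ring

open Classical in
/-- The inverse of the chart, with values in the base. -/
noncomputable def iy (y : Y k) (ζ : E3) : Y k := if h : IsY k (iv y ζ) then ⟨iv y ζ, h⟩ else y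

theorem iy_val {y : Y k} {ζ : E3} (h : IsY k (iv y ζ)) : (iy y ζ).1 = iv y ζ := by
  rw [iy, dif_pos h]

end Chart

open Chart

variable {k : ℕ}

theorem chartY (hk : Odd k) : ChartY k := fun y => by
  have h1 : ∀ᶠ y' in 𝓝 y, ContinuousAt (zeta y) y' ∧ iy y (zeta y y') = y' :=
    (iv_left hk y).mono fun y' e =>
      ⟨(cont_zeta y).continuousAt, Subtype.ext ((iy_val (e ▸ y'.2)).trans e)⟩
  have h2 : ∀ᶠ ζ in 𝓝 (zeta y y), ContinuousAt (iy y) ζ ∧ zeta y (iy y ζ) = ζ := by
    filter_upwards [iv_cont y, (iv_mem hk y).eventually_nhds] with ζ a b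
    refine ⟨IsInducing.subtypeVal.continuousAt_iff.2 (a.congr (b.mono fun _ q => (iy_val q).symm)),
      funext fun p => ?_⟩
    rw [zeta, rt, iy_val b.self_of_nhds]
    split_ifs with h
    · exact iv_adj y ζ p ((dd_eq_zero hk y p).1 h)
    · rw [iv_pow hk, df_adj, pw, if_neg h]
  obtain ⟨e, a, b, -⟩ := germ_chart h1 h2
  exact ⟨e, a, b⟩

/-- A chart of the base lifts to the total space. -/
theorem tot_chart {X Z π : Type} [TopologicalSpace X] [TopologicalSpace Z] [Group π]
    {b : X → X → π} (hc : Coc b) (x : Tot b) (e : OpenPartialHomeomorph X Z)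
    (hx : x.x ∈ e.source) : ∃ e' : OpenPartialHomeomorph (Tot b) Z, x ∈ e'.source ∧
      (∀ x', e' x' = e x'.x) ∧ (∀ z, e'.symm z = ⟨e.symm z, x.g * b x.x (e.symm z)⟩) ∧
      ∀ x' ∈ e'.source, x'.g = x.g * b x.x x'.x := by
  have h1 : ∀ᶠ x' in 𝓝 x, ContinuousAt (fun x' : Tot b => e x'.x) x' ∧
      (⟨e.symm (e x'.x), x.g * b x.x (e.symm (e x'.x))⟩ : Tot b) = x' := by
    filter_upwards [(tot_x_cont hc).continuousAt.eventually (e.open_source.mem_nhds hx),
      tot_ev hc x] with x' a c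
    refine ⟨(e.continuousAt a).comp (tot_x_cont hc).continuousAt, ?_⟩
    rw [e.left_inv a, ← c]
  have h2 : ∀ᶠ z in 𝓝 (e x.x),
      ContinuousAt (fun z => (⟨e.symm z, x.g * b x.x (e.symm z)⟩ : Tot b)) z ∧
        e (e.symm z) = z := by
    filter_upwards [e.open_target.mem_nhds (e.map_source hx),
      (e.tendsto_symm hx).eventually (hc.2 x.x)] with z a c
    have t := e.continuousAt_symm a
    refine ⟨(tot_tendsto hc).2 ⟨t, (t.eventually c).mono fun z' q => ?_⟩, e.right_inv a⟩
    exact (congrArg (x.g * ·) q).trans (mul_assoc _ _ _).symm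
  obtain ⟨e', a, c, d, f⟩ := germ_chart (f := fun x' : Tot b => e x'.x)
    (g := fun z => (⟨e.symm z, x.g * b x.x (e.symm z)⟩ : Tot b)) h1 h2
  refine ⟨e', a, c, d, fun x' hx' => ?_⟩
  have q := f x' hx'
  have q1 : e.symm (e x'.x) = x'.x := congrArg Tot.x q
  rw [q1] at q
  exact (congrArg Tot.g q).symm

theorem chartX {H : Type} [Group H] {L : Lab k H} (hc : Coc L.bb) (hY : ChartY k) : L.ChartX :=
  fun x => by
  obtain ⟨e, a, b⟩ := hY x.x
  obtain ⟨e', c, d, -, f⟩ := tot_chart hc x e a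
  exact ⟨e', c, fun x' => (d x').trans (b _), f⟩

end Pool.Agent.BP.F
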