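import Pool.Agent.Lib.MP_0c623d_al.F.Ord

/-! Block F: sector numbers and the local cocycle identity for the labels of the covering. -/

namespace Pool.Agent.BP.F

open Equiv Filter Topology Complex
open scoped Real

/-- The sector number. -/
noncomputable def nn (k : ℕ) (u : ℂ) : ℤ := ⌈k * arg u / π - 1 / 2⌉

theorem nn_zero (k : ℕ) : nn k 0 = 0 := by
  rw [nn, arg_zero, Int.ceil_eq_iff]; norm_num

theorem nn_spec (k : ℕ) (u : ℂ) :
    -(π / 2) < k * arg u - π * nn k u ∧ k * arg u - π * nn k u ≤ π / 2 := by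
  have h1 := Int.ceil_lt_add_one (k * arg u / π - 1 / 2 : ℝ)
  have h2 := Int.le_ceil (k * arg u / π - 1 / 2 : ℝ)
  have e : k * arg u = π * (k * arg u / π) := by field_simp
  have := Real.pi_pos
  rw [← nn] at h1 h2
  constructor <;> nlinarith

theorem nn_eq {k : ℕ} {u : ℂ} {n : ℤ} (h1 : -(π / 2) < k * arg u - π * n)
    (h2 : k * arg u - π * n ≤ π / 2) : nn k u = n := by
  have e : k * arg u = π * (k * arg u / π) := by field_simp
  have := Real.pi_pos
  rw [nn, Int.ceil_eq_iff]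
  constructor <;> nlinarith

theorem pow_eq_nn (k : ℕ) (u : ℂ) : u ^ k =
    (-1) ^ nn k u * ((‖u‖ ^ k : ℝ) * exp ((k * arg u - π * nn k u : ℝ) * I)) := by
  nth_rewrite 1 [← norm_mul_exp_arg_mul_I u]
  rw [mul_pow, ← exp_nat_mul, ← exp_pi_mul_I, ← exp_int_mul, mul_left_comm (exp _),
    ← Complex.exp_add]
  push_cast
  congr 2
  ring

theorem lex_pos_exp {c t : ℝ} (hc : 0 < c) (h1 : -(π / 2) < t) (h2 : t ≤ π / 2) :
    lex 0 < lex (c * exp (t * I)) := by
  rw [lex_lt]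
  simp only [zero_re, zero_im, re_ofReal_mul, im_ofReal_mul, exp_ofReal_mul_I_re,
    exp_ofReal_mul_I_im]
  rcases h2.lt_or_eq with h | h
  · exact Or.inl (mul_pos hc (Real.cos_pos_of_mem_Ioo ⟨h1, h⟩))
  · exact Or.inr (by simp [h, hc])

theorem nn_even_iff (k : ℕ) {u : ℂ} (hu : u ≠ 0) : Even (nn k u) ↔ lex 0 < lex (u ^ k) := by
  have h := lex_pos_exp (pow_pos (norm_pos_iff.2 hu) k) (nn_spec k u).1 (nn_spec k u).2
  rw [pow_eq_nn k u]
  rcases Int.even_or_odd (nn k u) with e | e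
  · rw [e.neg_one_zpow, one_mul]
    exact iff_of_true e h
  · rw [e.neg_one_zpow, neg_one_mul]
    refine iff_of_false (Int.not_even_iff_odd.2 e) fun h' => ?_
    rw [lex_lt] at h h'
    simp only [zero_re, zero_im, neg_re, neg_im] at h h'
    rcases h with h | h <;> rcases h' with h' | h' <;> linarith [h, h']

theorem nn_near (k : ℕ) {u : ℂ} (hu : u ≠ 0) : ∀ᶠ v in 𝓝 u,
    nn k v ≡ nn k u [ZMOD 2 * k] ∨ nn k v ≡ nn k u + 1 [ZMOD 2 * k] := by
  have c : ContinuousAt (fun v => k * (arg (v / u) + arg u) / π - 1 / 2) u := by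
    have : ContinuousAt (fun v => arg (v / u)) u :=
      ContinuousAt.comp (f := fun v => v / u)
        (continuousAt_arg (by simp [hu])) (by fun_prop)
    fun_prop
  have h1 := Int.ceil_lt_add_one (k * arg u / π - 1 / 2 : ℝ)
  have h2 := Int.le_ceil (k * arg u / π - 1 / 2 : ℝ)
  rw [← nn] at h1 h2
  have l := c.eventually (Ioo_mem_nhds (a := (nn k u : ℝ) - 1) (b := nn k u + 1)
    (by simp only [div_self hu, arg_one, zero_add]; linarith)
    (by simp only [div_self hu, arg_one, zero_add]; linarith))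
  filter_upwards [l, eventually_ne_nhds hu] with v hv h0
  obtain ⟨j, hj⟩ := Real.Angle.angle_eq_iff_two_pi_dvd_sub.1
    (show ((arg v : ℝ) : Real.Angle) = (arg (v / u) + arg u : ℝ) by
      rw [Real.Angle.coe_add, arg_div_coe_angle h0 hu, sub_add_cancel])
  have e : k * arg v / π - 1 / 2 = (k * (arg (v / u) + arg u) / π - 1 / 2) + ((2 * k * j : ℤ) : ℝ) := by
    rw [sub_eq_iff_eq_add'.1 hj]
    push_cast
    field_simp
    ring
  have e2 : nn k v = ⌈k * (arg (v / u) + arg u) / π - 1 / 2⌉ + 2 * k * j := by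
    rw [nn, e, Int.ceil_add_intCast]
  have a1 : nn k u - 1 < ⌈k * (arg (v / u) + arg u) / π - 1 / 2⌉ :=
    Int.lt_ceil.2 (by push_cast; exact hv.1)
  have a2 : ⌈k * (arg (v / u) + arg u) / π - 1 / 2⌉ ≤ nn k u + 1 :=
    Int.ceil_le.2 (by push_cast; exact hv.2.le)
  rw [e2]
  rcases a2.lt_or_eq with a | a
  · left
    rw [show ⌈k * (arg (v / u) + arg u) / π - 1 / 2⌉ = nn k u by omega]
    exact (Int.modEq_iff_dvd.2 ⟨-j, by ring⟩)
  · right
    rw [a]
    exact (Int.modEq_iff_dvd.2 ⟨-j, by ring⟩)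

/-- The rotation into the principal sector. -/
noncomputable def nrot (k : ℕ) (u : ℂ) : ℂ := u * exp (-(π * nn k u / k : ℝ) * I)

theorem nrot_eq (k : ℕ) (u : ℂ) :
    nrot k u = exp (((-(π / k) : ℝ) : ℂ) * I) ^ nn k u * u := by
  rw [nrot, ← exp_int_mul, mul_comm]
  push_cast
  congr 2
  ring

theorem nrot_zero (k : ℕ) : nrot k 0 = 0 := zero_mul _

theorem norm_nrot (k : ℕ) (u : ℂ) : ‖nrot k u‖ = ‖u‖ := by
  rw [nrot, norm_mul, ← ofReal_neg, norm_exp_ofReal_mul_I, mul_one]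

theorem nrot_pow {k : ℕ} (hk : k ≠ 0) (u : ℂ) : nrot k u ^ k = (-1) ^ nn k u * u ^ k := by
  have : (k : ℂ) ≠ 0 := Nat.cast_ne_zero.2 hk
  rw [nrot, mul_pow, ← exp_nat_mul, mul_comm, ← inv_neg_one, ← exp_pi_mul_I, ← Complex.exp_neg,
    ← exp_int_mul]
  push_cast
  congr 2
  field_simp

theorem arg_nrot {k : ℕ} (hk : k ≠ 0) {u : ℂ} (hu : u ≠ 0) :
    arg (nrot k u) = arg u - π * nn k u / k ∧ -(π / (2 * k)) < arg (nrot k u) ∧
      arg (nrot k u) ≤ π / (2 * k) := by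
  have k1 : (1 : ℝ) ≤ k := by exact_mod_cast Nat.one_le_iff_ne_zero.2 hk
  have k0 : (0 : ℝ) < k := by linarith
  have p := Real.pi_pos
  have e0 : arg u - π * nn k u / k = (k * arg u - π * nn k u) / k := by field_simp
  have b1 : -(π / (2 * k)) < arg u - π * nn k u / k := by
    rw [e0, ← div_div, ← neg_div]
    exact div_lt_div_of_pos_right (nn_spec k u).1 k0
  have b2 : arg u - π * nn k u / k ≤ π / (2 * k) := by
    rw [e0, ← div_div]
    exact div_le_div_of_nonneg_right (nn_spec k u).2 k0.le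
  have b3 : π / (2 * k) < π := div_lt_self p (by linarith)
  have e : arg (nrot k u) = arg u - π * nn k u / k := by
    have : nrot k u = (‖u‖ : ℝ) * exp ((arg u - π * nn k u / k : ℝ) * I) := by
      rw [nrot]
      nth_rewrite 1 [← norm_mul_exp_arg_mul_I u]
      rw [mul_assoc, ← Complex.exp_add]
      push_cast
      congr 2
      ring
    rw [this, arg_real_mul _ (norm_pos_iff.2 hu), exp_mul_I,
      arg_cos_add_sin_mul_I ⟨by linarith, by linarith⟩]
  exact ⟨e, e ▸ b1, e ▸ b2⟩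

theorem nrot_sec {k : ℕ} (hk : k ≠ 0) {u : ℂ} (hu : u ≠ 0) :
    nrot k u ≠ 0 ∧ |arg (nrot k u)| < π / k := by
  have k0 : (0 : ℝ) < k := by exact_mod_cast Nat.pos_of_ne_zero hk
  have h := (arg_nrot hk hu).2
  have : π / (2 * k) < π / k := div_lt_div_of_pos_left Real.pi_pos k0 (by linarith)
  exact ⟨by rw [← norm_ne_zero_iff, norm_nrot, norm_ne_zero_iff]; exact hu,
    abs_lt.2 ⟨by linarith [h.1], by linarith [h.2]⟩⟩

theorem jj_zero (k : ℕ) : jj k 0 = 0 := by
  rw [jj, arg_zero, Int.ceil_eq_iff]; norm_num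

theorem jj_spec (k : ℕ) (u : ℂ) :
    -(π / 2) < k * arg u - 2 * π * jj k u ∧ k * arg u - 2 * π * jj k u ≤ 3 * π / 2 := by
  have h1 := Int.ceil_lt_add_one (k * arg u / (2 * π) - 3 / 4 : ℝ)
  have h2 := Int.le_ceil (k * arg u / (2 * π) - 3 / 4 : ℝ)
  have e : k * arg u = 2 * π * (k * arg u / (2 * π)) := by field_simp
  have := Real.pi_pos
  rw [← jj] at h1 h2
  constructor <;> nlinarith

theorem nn_jj (k : ℕ) (u : ℂ) : nn k u = 2 * jj k u ∨ nn k u = 2 * jj k u + 1 := by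
  have h := nn_spec k u
  have h' := jj_spec k u
  have := Real.pi_pos
  have a : (nn k u : ℝ) < 2 * jj k u + 2 := by nlinarith
  have b : (2 * jj k u : ℝ) < nn k u + 1 := by nlinarith
  have a' : nn k u < 2 * jj k u + 2 := by exact_mod_cast a
  have b' : 2 * jj k u < nn k u + 1 := by exact_mod_cast b
  omega

theorem nn_eq_jj (k : ℕ) {u : ℂ} (hu : u ≠ 0) :
    nn k u = 2 * jj k u + if lex 0 < lex (u ^ k) then 0 else 1 := by
  have := nn_jj k u
  split_ifs with h <;> rw [← nn_even_iff k hu, Int.even_iff] at h <;> omega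

theorem jj_near (k : ℕ) {u : ℂ} (hu : u ≠ 0) : ∀ᶠ v in 𝓝 u, 2 * jj k v ≡ 2 * jj k u +
    (if ¬ lex 0 < lex (u ^ k) ∧ lex 0 < lex (v ^ k) then 2 else 0) [ZMOD 2 * k] := by
  filter_upwards [nn_near k hu, eventually_ne_nhds hu] with v h hv
  rw [nn_eq_jj k hu, nn_eq_jj k hv] at h
  by_cases a : lex 0 < lex (u ^ k) <;> by_cases b : lex 0 < lex (v ^ k) <;>
    simp only [a, b, if_true, if_false, not_true, not_false_iff, true_and, false_and,
      Int.modEq_iff_dvd] at h ⊢ <;>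
    rcases h with ⟨c, h⟩ | ⟨c, h⟩ <;> rw [mul_assoc] at h <;>
    exact ⟨c, by rw [mul_assoc]; omega⟩

variable {G : Type} [Group G] {s : Fin 3 → G}

/-- The support has no two neighbours. -/
def Sp (D : Fin 3 → Prop) : Prop := ¬ D 1 ∨ (¬ D 0 ∧ ¬ D 2)

theorem Sz_zero : Sz s 0 = 1 := by simp [Sz]

theorem Sz_add (h : Br s) {D : Fin 3 → Prop} (hD : Sp D) {M N : Fin 3 → ℤ}
    (hM : ∀ p, ¬ D p → M p = 0) (hN : ∀ p, ¬ D p → N p = 0) :
    Sz s (M + N) = Sz s M * Sz s N := by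
  rcases hD with d | ⟨d, d'⟩
  · have c : Commute (s 2 ^ M 2) (s 0 ^ N 0) := Commute.zpow_zpow h.b02.symm _ _
    simp only [Sz, Pi.add_apply, hM 1 d, hN 1 d, add_zero, zpow_zero, mul_one, zpow_add]
    rw [mul_assoc, mul_assoc, ← mul_assoc (s 0 ^ N 0), ← c.eq]
    simp only [mul_assoc]
  · simp [Sz, hM 0 d, hN 0 d, hM 2 d', hN 2 d', zpow_add]

theorem Sz_congr {m : ℤ} (hm : ∀ p, s p ^ m = 1) {M N : Fin 3 → ℤ} (h : ∀ p, M p ≡ N p [ZMOD m]) :
    Sz s M = Sz s N := by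
  have : ∀ p, s p ^ M p = s p ^ N p := fun p => by
    obtain ⟨c, hc⟩ := (h p).dvd
    rw [sub_eq_iff_eq_add'.1 hc, zpow_add, zpow_mul, hm, one_zpow, mul_one]
  simp only [Sz, this]

theorem Sz_single {M : Fin 3 → ℤ} (p : Fin 3) (h : ∀ q, q ≠ p → M q = 0) :
    Sz s M = s p ^ M p := by
  have h0 := h 0
  have h1 := h 1
  have h2 := h 2
  fin_cases p <;> simp_all [Sz]

theorem slide_Sz (h : Br s) {u : P4} {M M' : Fin 3 → ℤ} (hM : Sp fun q => M q ≠ 0)
    (h1 : ∀ q, M q ≠ 0 → ∃ p : Fin 3, u q.castSucc = p.castSucc ∧ u q.succ = p.succ ∧ M' p = M q)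
    (h2 : ∀ p, M' p ≠ 0 → ∃ q : Fin 3, u q.castSucc = p.castSucc ∧ M q ≠ 0) :
    r s u * Sz s M = Sz s M' * r s u := by
  have one : ∀ q, (∀ q', q' ≠ q → M q' = 0) → r s u * Sz s M = Sz s M' * r s u := by
    intro q hq
    by_cases e : M q = 0
    · have z : ∀ q', M q' = 0 := fun q' => by
        by_cases c : q' = q
        exacts [c ▸ e, hq _ c]
      rw [show M = 0 from funext z, show M' = 0 from funext fun p => by
        by_contra c
        obtain ⟨q, -, c⟩ := h2 p c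
        exact c (z q), Sz_zero, mul_one, one_mul]
    · obtain ⟨p, a, b, c⟩ := h1 q e
      rw [Sz_single q hq, Sz_single p, c, slide_zpow h a b]
      intro p' hp
      by_contra c
      obtain ⟨q', a', c⟩ := h2 p' c
      obtain rfl : q' = q := by_contra fun d => c (hq _ d)
      exact hp (Fin.castSucc_injective _ (a'.symm.trans a))
  rcases hM with d | ⟨d, d'⟩
  · rw [not_not] at d
    by_cases d0 : M 0 = 0
    · exact one 2 fun q => by fin_cases q <;> simp [d, d0]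
    by_cases d2 : M 2 = 0
    · exact one 0 fun q => by fin_cases q <;> simp [d, d2]
    obtain ⟨p, a, b, c⟩ := h1 0 d0
    obtain ⟨p', a', b', c'⟩ := h1 2 d2
    have k : ∀ (u : P4) (p p' : Fin 3), (u (0 : Fin 3).castSucc = p.castSucc ∧
        u (0 : Fin 3).succ = p.succ ∧ u (2 : Fin 3).castSucc = p'.castSucc ∧
        u (2 : Fin 3).succ = p'.succ) → ((p = 0 ∧ p' = 2) ∨ (p = 2 ∧ p' = 0)) ∧
        ∀ q : Fin 3, u q.castSucc = (1 : Fin 3).castSucc → q = 1 := by decide +kernel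
    obtain ⟨k1, k2⟩ := k u p p' ⟨a, b, a', b'⟩
    have z : M' 1 = 0 := by
      by_contra c
      obtain ⟨q, a, c⟩ := h2 1 c
      exact c (k2 q a ▸ d)
    rw [Sz, Sz, d, z, zpow_zero, mul_one, mul_one, ← mul_assoc, slide_zpow h a b,
      mul_assoc, slide_zpow h a' b', ← mul_assoc, ← c, ← c']
    rcases k1 with ⟨rfl, rfl⟩ | ⟨rfl, rfl⟩
    · rfl
    · rw [(Commute.zpow_zpow h.b02 _ _).eq]
  · rw [not_not] at d d'
    exact one 1 fun q => by fin_cases q <;> simp [d, d']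

/-- A product of generators chosen by bits. -/
def bits (s : Fin 3 → G) (e : Fin 3 → Bool) : G :=
  (if e 0 then s 0 else 1) * (if e 1 then s 1 else 1) * (if e 2 then s 2 else 1)

theorem bits_lt : ∀ e : Fin 3 → Bool, (¬ e 1 ∨ (¬ e 0 ∧ ¬ e 2)) → ∀ a b : Fin 4,
    ((bits sw e)⁻¹ a < (bits sw e)⁻¹ b ↔ if ∃ p : Fin 3, e p ∧ ((a = p.castSucc ∧ b = p.succ) ∨
      (b = p.castSucc ∧ a = p.succ)) then b < a else a < b) := by decide +kernel

theorem r_bits (h : Br s) (e : Fin 3 → Bool) : r s (bits sw e) = bits s e := by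
  have : ∀ e : Fin 3 → Bool, nf (wd 6 (bits sw e)) =
      nf ((if e 0 then [0] else []) ++ (if e 1 then [1] else []) ++ (if e 2 then [2] else [])) := by
    decide +kernel
  rw [r, ev_congr h (this e), ev_append, ev_append, bits]
  congr 1
  · congr 1 <;> split_ifs <;> simp
  · split_ifs <;> simp

theorem T_mul (h : Br s) {A B C : P4}
    (n : ∀ i j, A⁻¹ i < A⁻¹ j → B⁻¹ j < B⁻¹ i → C⁻¹ j < C⁻¹ i) :
    T s A C = T s A B * T s B C := by
  have e : A⁻¹ * B * (B⁻¹ * C) = A⁻¹ * C := by group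
  rw [T, T, T, ← r_mul h, e]
  intro p q hpq hu
  rw [e]
  simp only [mul_inv_rev, inv_inv, Perm.mul_apply] at hu ⊢
  exact n _ _ (by simpa using hpq) hu

theorem bits_ord {e : Fin 3 → Bool} (he : ¬ e 1 ∨ (¬ e 0 ∧ ¬ e 2)) (X : P4) (i j : Fin 4) :
    (X * bits sw e)⁻¹ i < (X * bits sw e)⁻¹ j ↔
      if ∃ p : Fin 3, e p ∧ ((i = X p.castSucc ∧ j = X p.succ) ∨
        (j = X p.castSucc ∧ i = X p.succ)) then X⁻¹ j < X⁻¹ i else X⁻¹ i < X⁻¹ j := by
  obtain ⟨a, rfl⟩ := X.surjective i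
  obtain ⟨b, rfl⟩ := X.surjective j
  rw [mul_inv_rev, Perm.mul_apply, Perm.mul_apply]
  simp only [Perm.inv_def, symm_apply_apply, EmbeddingLike.apply_eq_iff_eq]
  rw [← Perm.inv_def, bits_lt e he]

theorem bits_inv : ∀ e : Fin 3 → Bool, (¬ e 1 ∨ (¬ e 0 ∧ ¬ e 2)) → (bits sw e)⁻¹ = bits sw e := by
  decide +kernel

theorem bits_eq (e : Fin 3 → Bool) : bits s e = Sz s fun p => if e p then 1 else 0 := by
  simp only [bits, Sz]
  congr 1
  · congr 1 <;> split_ifs <;> simp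
  · split_ifs <;> simp

/-- The transport when nesting fails only at positions that are not neighbours. -/
theorem T_mul2 (h : Br s) {A B C : P4} {e : Fin 3 → Bool} (he : ¬ e 1 ∨ (¬ e 0 ∧ ¬ e 2))
    (h1 : ∀ p, e p → B⁻¹ (A p.succ) < B⁻¹ (A p.castSucc) ∧ C⁻¹ (A p.castSucc) < C⁻¹ (A p.succ))
    (n : ∀ i j, A⁻¹ i < A⁻¹ j → B⁻¹ j < B⁻¹ i →
      (¬ ∃ p : Fin 3, e p ∧ i = A p.castSucc ∧ j = A p.succ) → C⁻¹ j < C⁻¹ i) :
    T s A B * T s B C = Sz s (fun p => if e p then 2 else 0) * T s A C := by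
  have o : ∀ p : Fin 3, A⁻¹ (A p.castSucc) < A⁻¹ (A p.succ) := fun p => by
    simp
  have e1 : T s A B = T s A (A * bits sw e) * T s (A * bits sw e) B := T_mul h fun i j a b => by
    rw [bits_ord he] at b
    split_ifs at b with c
    · obtain ⟨p, c, ⟨rfl, rfl⟩ | ⟨rfl, rfl⟩⟩ := c
      exacts [(lt_asymm a (o p)).elim, (h1 p c).1]
    · exact (lt_asymm a b).elim
  have e2 : T s (A * bits sw e) C = T s (A * bits sw e) B * T s B C := T_mul h fun i j a b => by
    rw [bits_ord he] at a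
    split_ifs at a with c
    · obtain ⟨p, c, ⟨rfl, rfl⟩ | ⟨rfl, rfl⟩⟩ := c
      exacts [(lt_asymm a (o p)).elim, (lt_asymm b (h1 p c).1).elim]
    · exact n i j a b fun ⟨p, c1, c2⟩ => c ⟨p, c1, Or.inl c2⟩
  have e3 : T s (A * bits sw e) C = T s (A * bits sw e) A * T s A C := T_mul h fun i j a b => by
    rw [bits_ord he] at a
    split_ifs at a with c
    · obtain ⟨p, c, ⟨rfl, rfl⟩ | ⟨rfl, rfl⟩⟩ := c
      exacts [(lt_asymm a (o p)).elim, (h1 p c).2]
    · exact (lt_asymm a b).elim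
  have e4 : T s A (A * bits sw e) = bits s e := by rw [T, inv_mul_cancel_left, r_bits h]
  have e5 : T s (A * bits sw e) A = bits s e := by
    rw [T, mul_inv_rev, inv_mul_cancel_right, bits_inv e he, r_bits h]
  rw [e1, mul_assoc, ← e2, e3, e4, e5, ← mul_assoc, bits_eq, ← Sz_add h (D := fun p => e p) he
    (fun p c => if_neg c) fun p c => if_neg c]
  congr 2
  funext p
  simp only [Pi.add_apply]
  split_ifs <;> rfl

theorem srt_match {a a' : Cf} (h : NoTriple a') {p : Fin 3}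
    (e : a (srt a p.castSucc) = a (srt a p.succ)) (e' : a' (srt a p.castSucc) = a' (srt a p.succ)) :
    ∃ q : Fin 3, srt a p.castSucc = srt a' q.castSucc ∧ srt a p.succ = srt a' q.succ := by
  refine srt_adj h ((srt_lt' _ _ _).2 (Or.inr ⟨e', ?_⟩)) e'
  rcases (srt_lt' a (srt a p.castSucc) (srt a p.succ)).1 (by simp) with c | c
  · exact (c.ne (congrArg lex e)).elim
  · exact c.2

variable {k : ℕ} {H : Type} [Group H]

theorem sp_dd (hk : Odd k) (y : Y k) : Sp fun p => dd y p = 0 := by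
  have := (adm_dd hk y).2
  unfold Sp
  tauto

theorem jv_self (hk : Odd k) (y : Y k) (p : Fin 3) : jv y y p = 0 := by
  rw [jv]
  split_ifs with h
  · rw [(dd_eq_zero hk y p).1 h, jj_zero]
  · rfl

theorem bb_self (hk : Odd k) (L : Lab k H) (y : Y k) : L.bb y y = 1 := by
  simp [Lab.bb, Sz, jv_self hk, r_one]

theorem sg_lt_iff (hk : Odd k) {y : Y k} {i j : Fin 4} (h : y.1 i j ≠ 0) :
    (sg y)⁻¹ i < (sg y)⁻¹ j ↔ lex 0 < lex (y.1 i j ^ k) := by
  rw [sg, srt_lt_of_ne fun e => h ((pos_eq_iff hk y i j).1 e), lex_lt_sub, pos_sub]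

theorem coc (hk : Odd k) (L : Lab k H) : Coc L.bb := by
  classical
  refine ⟨bb_self hk L, fun x => ?_⟩
  filter_upwards [ev_lt x, ev_ne x] with y lt1 ne1
  have near : ∀ᶠ z in 𝓝 y, ∀ p, rt x y p ≠ 0 → rt x z p ≠ 0 ∧ 2 * jj k (rt x z p) ≡
      2 * jj k (rt x y p) + (if ¬ lex 0 < lex (rt x y p ^ k) ∧ lex 0 < lex (rt x z p ^ k)
        then 2 else 0) [ZMOD 2 * k] := by
    simp only [eventually_all]
    exact fun p h => ((cont_rt x p).tendsto y).eventually
      ((eventually_ne_nhds h).and (jj_near k h))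
  filter_upwards [ev_lt y, near] with z lt2 near
  let e : Fin 3 → Bool := fun p => decide (dd x p = 0 ∧ rt x y p ≠ 0 ∧
    ¬ lex 0 < lex (rt x y p ^ k) ∧ lex 0 < lex (rt x z p ^ k))
  let M : Fin 3 → ℤ := fun p => if rt x y p = 0 then 2 * jv x z p else 0
  have sp := sp_dd hk x
  have j0 : ∀ (x y : Y k) p, ¬ dd x p = 0 → 2 * jv x y p = 0 := fun x y p c => by
    rw [jv, if_neg c, mul_zero]
  have cs : ∀ (A : P4) (p : Fin 3), A p.castSucc ≠ A p.succ := fun A p =>
    A.injective.ne Fin.castSucc_lt_succ.ne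
  have e1 : T L.s (sg x) (sg y) * Sz L.s (fun p => 2 * jv y z p) =
      Sz L.s M * T L.s (sg x) (sg y) := by
    refine slide_Sz L.br ((sp_dd hk y).imp (fun c d => d (j0 _ _ _ c))
      fun c => ⟨fun d => d (j0 _ _ _ c.1), fun d => d (j0 _ _ _ c.2)⟩) (fun q c => ?_) fun p c => ?_
    · have d : dd y q = 0 := by_contra fun d => c (j0 _ _ _ d)
      have d1 := (dd_eq_zero' y q).1 d
      have d2 : pos x (sg y q.castSucc) = pos x (sg y q.succ) := by_contra fun a => ne1 _ _ a d1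
      obtain ⟨p, a, b⟩ := srt_match (noTriple_pos hk x) d1 d2
      change sg y _ = sg x _ at a b
      refine ⟨p, by simp [a], by simp [b], ?_⟩
      have d3 : rt x y p = 0 := by rw [rt, ← a, ← b]; exact (pos_eq_iff hk _ _ _).1 d1
      have d4 : dd x p = 0 := by rw [dd_eq_zero', ← a, ← b]; exact d2
      simp only [M, if_pos d3]
      simp only [jv, if_pos d, if_pos d4, rt, a, b]
    · have d3 : rt x y p = 0 := by_contra fun d => c (if_neg d)
      have c' : 2 * jv x z p ≠ 0 := by simpa only [M, if_pos d3] using c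
      have d4 : dd x p = 0 := by_contra fun d => c' (j0 _ _ _ d)
      have d1 := (pos_eq_iff hk _ _ _).2 d3
      obtain ⟨q, a, b⟩ := srt_match (noTriple_pos hk y) ((dd_eq_zero' x p).1 d4) d1
      change sg x _ = sg y _ at a b
      refine ⟨q, by simp [← a], ?_⟩
      have d : dd y q = 0 := by rw [dd_eq_zero', ← a, ← b]; exact d1
      simpa only [jv, if_pos d, if_pos d4, rt, a, b] using c'
  have e2 : T L.s (sg x) (sg y) * T L.s (sg y) (sg z) =
      Sz L.s (fun p => if e p then 2 else 0) * T L.s (sg x) (sg z) := by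
    refine T_mul2 L.br (sp.imp (fun c => by simp [e, c]) fun c => by simp [e, c.1, c.2])
      (fun p c => ?_) fun i j a b c => ?_
    · obtain ⟨-, c1, c2, c3⟩ := of_decide_eq_true c
      exact ⟨lt_of_le_of_ne (not_lt.1 fun d => c2 ((sg_lt_iff hk c1).1 d))
        ((sg y)⁻¹.injective.ne (cs _ p).symm), (sg_lt_iff hk (near p c1).1).2 c3⟩
    · by_cases d : pos x i = pos x j
      · obtain ⟨p, rfl, rfl⟩ := srt_adj (noTriple_pos hk x) a d
        have c1 : rt x y p ≠ 0 := fun c1 => by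
          obtain ⟨q, a, b'⟩ := srt_match (noTriple_pos hk y) d ((pos_eq_iff hk _ _ _).2 c1)
          rw [a, b'] at b
          exact absurd b (by simp [sg, Fin.castSucc_lt_succ.le])
        refine lt_of_le_of_ne (not_lt.1 fun c3 => c ⟨p, decide_eq_true ⟨(dd_eq_zero' x p).2 d, c1,
          fun c2 => lt_asymm b ((sg_lt_iff hk c1).2 c2), (sg_lt_iff hk (near p c1).1).1 c3⟩,
          rfl, rfl⟩) ((sg z)⁻¹.injective.ne (cs _ p).symm)
      · rw [sg, srt_lt_of_ne d, lex_lt] at a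
        rw [sg, srt_lt_of_ne (ne1 _ _ d).symm, lex_lt] at b
        refine srt_lt_of_re ((lt2 j i).1 (b.resolve_right fun b' => ?_))
        rcases a with a | a
        · exact ((lt1 i j).1 a).ne' b'.1
        · exact lt_asymm ((lt1 i j).2 a.2) b'.2
  have M0 : ∀ p, ¬ dd x p = 0 → M p = 0 := fun p c => by simp only [M, j0 _ _ _ c, ite_self]
  change Sz _ _ * T _ _ _ = Sz _ _ * T _ _ _ * (Sz _ _ * T _ _ _)
  rw [mul_assoc, ← mul_assoc (T _ _ _), e1, mul_assoc, e2, ← mul_assoc, ← mul_assoc,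
    ← Sz_add L.br sp (j0 x y) M0, ← Sz_add L.br sp
      (fun p c => by simp only [Pi.add_apply, j0 _ _ _ c, M0 p c, add_zero])
      (fun p c => if_neg (by simp [e, c]))]
  congr 1
  refine Sz_congr (m := 2 * k) (fun p => by exact_mod_cast L.ord p) fun p => ?_
  simp only [Pi.add_apply, M, e, decide_eq_true_eq]
  by_cases c : dd x p = 0
  · by_cases c1 : rt x y p = 0
    · simp [c1, jv, jj_zero]
    · simpa only [jv, c, c1, if_true, if_false, add_zero, true_and, Ne, not_false_iff]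
        using (near p c1).2
  · simp [jv, c]

end Pool.Agent.BP.F
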