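import Pool.Agent.Lib.MP_0c623d_al.F.Ord

/-! Block F: every label is reached by a path made of half turns. -/

namespace Pool.Agent.BP.F

open Complex Set Filter Topology

variable {k : ℕ}

theorem cn_isY {u : Fin 4 → Fin 4 → ℂ} {a : Cf} (h1 : ∀ i j, u j i = - u i j)
    (h2 : ∀ i j, u i j ^ k = a j - a i) (h3 : ∀ i j, i ≠ j → u i j ≠ 0) : IsY k u :=
  ⟨h1, fun i j l => by rw [h2, h2, h2]; ring, fun i j _ a _ _ e => h3 i j a e.1⟩

theorem cn_sort {y : Y k} {τ : P4} {B : Cf} (h : ∀ i j, pos y (τ j) - pos y (τ i) = B j - B i)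
    (hB : ∀ q : Fin 3, lex (B q.castSucc) < lex (B q.succ)) :
    sg y = τ ∧ ∀ q, dd y q = B q.succ - B q.castSucc := by
  have e : sg y = τ := srt_eq (Fin.strictMono_iff_lt_succ.2 fun q => by
    rw [lex_lt_sub, h, ← lex_lt_sub]; exact hB q)
  exact ⟨e, fun q => by rw [dd_eq, e, h]⟩

theorem cn_b0 {y : Y k} (h : dd y = d1) (i j : Fin 4) :
    pos y (sg y j) - pos y (sg y i) = b0 j - b0 i := by
  have e : cfg d1 = b0 := by
    funext i
    fin_cases i <;> simp [cfg, d1, b0] <;> norm_num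
  have h1 := congrFun (pos_sg_self y) i
  have h2 := congrFun (pos_sg_self y) j
  simp only [Function.comp, h, e] at h1 h2
  rw [h1, h2]
  ring

theorem cn_b0_ne {i j : Fin 4} (h : i ≠ j) : b0 j - b0 i ≠ 0 := by
  fin_cases i <;> fin_cases j <;> simp [b0] at h ⊢ <;> norm_num

theorem cn_base (hk : Odd k) : ∃ y0 : Y k, dd y0 = d1 := by
  let u : Fin 4 → Fin 4 → ℂ := fun i j =>
    if i < j then (b0 j - b0 i) ^ (k : ℂ)⁻¹ else if j < i then -(b0 i - b0 j) ^ (k : ℂ)⁻¹ else 0
  have h2 : ∀ i j, u i j ^ k = b0 j - b0 i := by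
    intro i j
    rcases lt_trichotomy i j with h | h | h
    · simp only [u, if_pos h]
      exact cpow_nat_inv_pow _ hk.pos.ne'
    · simp [u, h, hk.pos.ne']
    · simp only [u, if_neg h.not_gt, if_pos h]
      rw [hk.neg_pow, cpow_nat_inv_pow _ hk.pos.ne']
      ring
  have h1 : ∀ i j, u j i = - u i j := by
    intro i j
    rcases lt_trichotomy i j with h | h | h
    · simp [u, h, h.not_gt]
    · simp [u, h]
    · simp [u, h, h.not_gt]
  have h3 : ∀ i j, i ≠ j → u i j ≠ 0 := fun i j h e => by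
    have := h2 i j
    rw [e, zero_pow hk.pos.ne'] at this
    exact cn_b0_ne h this.symm
  refine ⟨⟨u, cn_isY h1 h2 h3⟩, funext fun q => ?_⟩
  rw [(cn_sort (τ := 1) (B := b0) (fun i j => by rw [pos_sub]; exact h2 i j) fun q => ?_).2 q]
  · fin_cases q <;> simp [b0, d1] <;> norm_num
  · fin_cases q <;> simp [lex_lt, b0] <;> norm_num

/-- The base configuration with the pair `p` turned about its midpoint. -/
noncomputable def cnB (p : Fin 3) (w : ℂ) : Cf :=
  ![![1 / 2 - w / 2, 1 / 2 + w / 2, 3, 7], ![0, 2 - w, 2 + w, 7], ![0, 1, 5 - 2 * w, 5 + 2 * w]] p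

/-- The pair that is turned. -/
def cnP (p : Fin 3) (i j : Fin 4) : Prop :=
  (i = p.castSucc ∧ j = p.succ) ∨ (j = p.castSucc ∧ i = p.succ)

instance (p : Fin 3) (i j : Fin 4) : Decidable (cnP p i j) := by unfold cnP; infer_instance

theorem cnB_one (p : Fin 3) : cnB p 1 = b0 := by
  funext i
  fin_cases p <;> fin_cases i <;> simp [cnB, b0] <;> norm_num

theorem cnB_cont (p : Fin 3) (i : Fin 4) : Continuous fun w => cnB p w i := by
  fin_cases p <;> fin_cases i <;> simp [cnB] <;> fun_prop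

theorem cnB_pair {p : Fin 3} {i j : Fin 4} (h : cnP p i j) (w : ℂ) :
    (b0 j - b0 i) * w = cnB p w j - cnB p w i := by
  rcases h with ⟨rfl, rfl⟩ | ⟨rfl, rfl⟩ <;> fin_cases p <;> simp [cnB, b0] <;> ring

theorem cnB_re {p : Fin 3} {i j : Fin 4} (h : ¬ cnP p i j) (hij : i ≠ j) {w : ℂ}
    (h1 : -1 ≤ w.re) (h2 : w.re ≤ 1) : 0 < ((cnB p w j - cnB p w i) * (b0 j - b0 i)).re := by
  revert h hij
  fin_cases p <;> fin_cases i <;> fin_cases j <;> simp [cnB, b0, cnP] <;> nlinarith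

/-- Logarithms of the ratios of the differences. -/
noncomputable def cnL (p : Fin 3) (t : ℝ) (i j : Fin 4) : ℂ :=
  if cnP p i j then t * I else
    log ((cnB p (exp (t * I)) j - cnB p (exp (t * I)) i) * (b0 j - b0 i)) -
      log ((b0 j - b0 i) * (b0 j - b0 i))

theorem cn_re (t : ℝ) : -1 ≤ (exp (t * I)).re ∧ (exp (t * I)).re ≤ 1 := by
  rw [exp_ofReal_mul_I_re]
  exact ⟨Real.neg_one_le_cos t, Real.cos_le_one t⟩

theorem cnL_symm (p : Fin 3) (t : ℝ) (i j : Fin 4) : cnL p t j i = cnL p t i j := by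
  have e : cnP p j i ↔ cnP p i j := or_comm
  unfold cnL
  simp only [e]
  congr 3 <;> ring

theorem cnL_zero (p : Fin 3) (i j : Fin 4) : cnL p 0 i j = 0 := by
  simp [cnL, cnB_one]

theorem cnL_exp (p : Fin 3) (t : ℝ) (i j : Fin 4) :
    (b0 j - b0 i) * exp (cnL p t i j) = cnB p (exp (t * I)) j - cnB p (exp (t * I)) i := by
  unfold cnL
  split_ifs with h
  · exact cnB_pair h _
  · by_cases hij : i = j
    · simp [hij]
    · have h0 := cn_b0_ne hij
      have h1 := cnB_re h hij (cn_re t).1 (cn_re t).2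
      rw [exp_sub, exp_log (fun e => by simp [e] at h1), exp_log (mul_ne_zero h0 h0)]
      field_simp

theorem cnL_cont (p : Fin 3) (i j : Fin 4) : Continuous fun t => cnL p t i j := by
  unfold cnL
  split_ifs with h
  · fun_prop
  · by_cases hij : i = j
    · simp [hij, continuous_const]
    · have hw : Continuous fun t : ℝ => exp (t * I) := by fun_prop
      refine Continuous.sub (Continuous.clog ?_ fun t => Or.inl ?_) continuous_const
      · exact (((cnB_cont p j).comp hw).sub ((cnB_cont p i).comp hw)).mul continuous_const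
      · exact cnB_re h hij (cn_re t).1 (cn_re t).2

theorem cn_path (hk : Odd k) {y : Y k} (h : dd y = d1) (p : Fin 3) :
    ∃ c : ℝ → Y k, Continuous c ∧ c 0 = y ∧ ∀ t i j,
      pos (c t) (sg y j) - pos (c t) (sg y i) = cnB p (exp (t * I)) j - cnB p (exp (t * I)) i := by
  have hk0 : (k : ℂ) ≠ 0 := Nat.cast_ne_zero.2 hk.pos.ne'
  let u : ℝ → Fin 4 → Fin 4 → ℂ := fun t i j =>
    y.1 i j * exp (cnL p t ((sg y)⁻¹ i) ((sg y)⁻¹ j) / k)
  have h0 : ∀ i j, y.1 i j ^ k = b0 ((sg y)⁻¹ j) - b0 ((sg y)⁻¹ i) := fun i j => by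
    rw [← cn_b0 h, ← pos_sub]
    simp
  have h2 : ∀ t i j, u t i j ^ k =
      cnB p (exp (t * I)) ((sg y)⁻¹ j) - cnB p (exp (t * I)) ((sg y)⁻¹ i) := fun t i j => by
    simp only [u]
    rw [mul_pow, h0, ← exp_nat_mul, mul_div_cancel₀ _ hk0, cnL_exp]
  have hY : ∀ t, IsY k (u t) := fun t => by
    refine cn_isY (a := fun i => cnB p (exp (t * I)) ((sg y)⁻¹ i)) (fun i j => ?_) (h2 t)
      fun i j hij => mul_ne_zero (fun e => ?_) (exp_ne_zero _)
    · simp only [u]
      rw [y.2.1 i j, cnL_symm]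
      ring
    · have := h0 i j
      rw [e, zero_pow hk.pos.ne'] at this
      exact cn_b0_ne (fun e' => hij ((sg y)⁻¹.injective e')) this.symm
  refine ⟨fun t => ⟨u t, hY t⟩, ?_, ?_, fun t i j => ?_⟩
  · refine Continuous.subtype_mk (continuous_pi fun i => continuous_pi fun j => ?_) _
    exact continuous_const.mul ((cnL_cont p _ _).div_const _).cexp
  · refine Subtype.ext ?_
    funext i j
    simp [u, cnL_zero]
  · rw [pos_sub]
    simpa using h2 t (sg y i) (sg y j)

theorem cnB_lt (p : Fin 3) {w : ℂ} (h2 : w.re ≤ 1) (h : 0 < w.re ∨ (w.re = 0 ∧ 0 < w.im))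
    (q : Fin 3) : lex (cnB p w q.castSucc) < lex (cnB p w q.succ) := by
  rcases h with h | ⟨h, h'⟩ <;> fin_cases p <;> fin_cases q <;> simp [lex_lt, cnB] <;>
    first
    | linarith
    | (left; linarith)
    | (right; constructor <;> linarith)

theorem cnB_gt (p : Fin 3) {w : ℂ} (h1 : -1 ≤ w.re) (h : w.re < 0) (q : Fin 3) :
    lex (cnB p w (sw p q.castSucc)) < lex (cnB p w (sw p q.succ)) := by
  fin_cases p <;> fin_cases q <;> simp [lex_lt, cnB, sw, Equiv.swap_apply_def] <;>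
    first
    | linarith
    | (left; linarith)

theorem cnB_end (p q : Fin 3) :
    cnB p (-1) (sw p q.succ) - cnB p (-1) (sw p q.castSucc) = d1 q := by
  fin_cases p <;> fin_cases q <;> simp [cnB, sw, Equiv.swap_apply_def, d1] <;> norm_num

variable {H : Type} [Group H]

theorem cn_bb (L : Lab k H) {y : Y k} (h : ∀ q, dd y q ≠ 0) (y' : Y k) :
    L.bb y y' = r L.s ((sg y)⁻¹ * sg y') := by
  simp [Lab.bb, Sz, jv, h]

theorem cn_step (hk : Odd k) (L : Lab k H) (hc : Coc L.bb) {y : Y k} (h : dd y = d1) (g : H)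
    (p : Fin 3) : ∃ y', dd y' = d1 ∧ Joined (⟨y, g⟩ : L.X) ⟨y', g * L.s p⟩ := by
  obtain ⟨c, c1, c2, c3⟩ := cn_path hk h p
  have pi0 := Real.pi_pos
  have hne : ∀ {B : Cf} {q : Fin 3}, lex (B q.castSucc) < lex (B q.succ) →
      B q.succ - B q.castSucc ≠ 0 := fun e => (lex_lt_iff.1 e).2
  have s1 : ∀ t, 0 ≤ t → t ≤ 1 / 2 → sg (c (Real.pi * t)) = sg y ∧
      ∀ q, dd (c (Real.pi * t)) q ≠ 0 := by
    intro t t0 t1
    have hB := cnB_lt p (w := exp ((Real.pi * t : ℝ) * I)) (cn_re _).2 (by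
      rw [exp_ofReal_mul_I_re, exp_ofReal_mul_I_im]
      rcases t1.lt_or_eq with t2 | t2
      · exact Or.inl (Real.cos_pos_of_mem_Ioo ⟨by nlinarith, by nlinarith⟩)
      · have : Real.pi * t = Real.pi / 2 := by rw [t2]; ring
        rw [this]
        simp)
    have := cn_sort (c3 (Real.pi * t)) hB
    exact ⟨this.1, fun q => by rw [this.2]; exact hne (hB q)⟩
  have s2 : ∀ t, 1 / 2 < t → t ≤ 1 → sg (c (Real.pi * t)) = sg y * sw p ∧
      (∀ q, dd (c (Real.pi * t)) q = cnB p (exp ((Real.pi * t : ℝ) * I)) (sw p q.succ) -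
        cnB p (exp ((Real.pi * t : ℝ) * I)) (sw p q.castSucc)) ∧
      ∀ q, dd (c (Real.pi * t)) q ≠ 0 := by
    intro t t0 t1
    have hB := cnB_gt p (w := exp ((Real.pi * t : ℝ) * I)) (cn_re _).1 (by
      rw [exp_ofReal_mul_I_re]
      exact Real.cos_neg_of_pi_div_two_lt_of_lt (by nlinarith) (by nlinarith))
    have := cn_sort (τ := sg y * sw p)
      (B := fun i => cnB p (exp ((Real.pi * t : ℝ) * I)) (sw p i))
      (fun i j => c3 (Real.pi * t) _ _) hB
    exact ⟨this.1, this.2, fun q => by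
      rw [this.2]
      exact hne (B := fun i => cnB p (exp ((Real.pi * t : ℝ) * I)) (sw p i)) (hB q)⟩
  refine ⟨c (Real.pi * 1), funext fun q => ?_, ?_⟩
  · rw [(s2 1 (by norm_num) le_rfl).2.1 q, mul_one, exp_pi_mul_I, cnB_end]
  · let f : ℝ → L.X := fun t => ⟨c (Real.pi * t), if t ≤ 1 / 2 then g else g * L.s p⟩
    have hf : ContinuousOn f unitInterval := by
      intro t ht
      refine (tot_tendsto hc).2 ⟨?_, ?_⟩
      · exact ((c1.comp (continuous_const.mul continuous_id)).tendsto t).mono_left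
          nhdsWithin_le_nhds
      · by_cases t1 : t ≤ 1 / 2
        · filter_upwards [self_mem_nhdsWithin] with t' ht'
          simp only [f, if_pos t1]
          rw [cn_bb L (s1 t ht.1 t1).2, (s1 t ht.1 t1).1]
          split_ifs with t2
          · rw [(s1 t' ht'.1 t2).1, inv_mul_cancel, r_one, mul_one]
          · rw [(s2 t' (not_le.1 t2) ht'.2).1, inv_mul_cancel_left, r_sw]
        · filter_upwards [self_mem_nhdsWithin,
            mem_nhdsWithin_of_mem_nhds (lt_mem_nhds (not_le.1 t1))] with t' ht' t2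
          simp only [f, if_neg t1, if_neg (not_le.2 t2)]
          rw [cn_bb L (s2 t (not_le.1 t1) ht.2).2.2, (s2 t (not_le.1 t1) ht.2).1,
            (s2 t' t2 ht'.2).1, inv_mul_cancel, r_one, mul_one]
    refine (JoinedIn.ofLine (F := univ) hf ?_ ?_ (subset_univ _)).joined
    · simp [f, c2]
    · simp only [f]
      rw [if_neg (by norm_num)]

theorem conn (hk : Odd k) (L : Lab k H) (hc : Coc L.bb)
    (hcl : Subgroup.closure (range L.s) = ⊤) :
    ∃ y0 : Y k, dd y0 = d1 ∧ ∀ g : H, ∃ y, dd y = d1 ∧ Joined (⟨y0, 1⟩ : L.X) ⟨y, g⟩ := by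
  obtain ⟨y0, h0⟩ := cn_base hk
  let S : H → Prop := fun a => ∀ (y : Y k) (g : H), dd y = d1 →
    ∃ y', dd y' = d1 ∧ Joined (⟨y, g⟩ : L.X) ⟨y', g * a⟩
  have S1 : S 1 := fun y g h => ⟨y, h, by rw [mul_one]⟩
  have Sm : ∀ a b, S a → S b → S (a * b) := fun a b ha hb y g h => by
    obtain ⟨y1, e1, j1⟩ := ha y g h
    obtain ⟨y2, e2, j2⟩ := hb y1 (g * a) e1
    exact ⟨y2, e2, by rw [← mul_assoc]; exact j1.trans j2⟩
  have Ss : ∀ p, S (L.s p) := fun p y g h => cn_step hk L hc h g p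
  have Sp : ∀ p n, S (L.s p ^ n) := fun p n => by
    induction n with
    | zero => rw [pow_zero]; exact S1
    | succ n ih => rw [pow_succ]; exact Sm _ _ ih (Ss p)
  have Sa : ∀ a, S a := fun a => by
    have ha : a ∈ Subgroup.closure (range L.s) := hcl ▸ Subgroup.mem_top a
    induction ha using Subgroup.closure_induction'' with
    | mem x hx => obtain ⟨p, rfl⟩ := hx; exact Ss p
    | inv_mem x hx =>
      obtain ⟨p, rfl⟩ := hx
      have e : (L.s p)⁻¹ = L.s p ^ (2 * k - 1) := by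
        refine (eq_inv_of_mul_eq_one_left ?_).symm
        rw [← pow_succ, Nat.sub_add_cancel (by have := hk.pos; omega), L.ord]
      rw [e]
      exact Sp p _
    | one => exact S1
    | mul x y _ _ hx hy => exact Sm _ _ hx hy
  exact ⟨y0, h0, fun g => by simpa using Sa g y0 1 h0⟩

end Pool.Agent.BP.F
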