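import Pool.Agent.Lib.MP_0c623d_al.F.Ord

/-! Block F: the end of the argument. -/

set_option autoImplicit false

namespace Pool.Agent.BP.F

open Complex Set Filter Topology Matrix

theorem loc_inj {E F : Type} [NormedAddCommGroup E] [NormedSpace ℂ E] [FiniteDimensional ℂ E]
    [NormedAddCommGroup F] [NormedSpace ℂ F] {f : E → F} {D : E →L[ℂ] F} {d : E}
    (hf : HasStrictFDerivAt f D d) (hD : ∀ v, D v = 0 → v = 0) :
    ∀ᶠ z : E × E in 𝓝 (d, d), f z.1 = f z.2 → z.1 = z.2 := by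
  obtain ⟨K, K0, hK⟩ := (D : E →ₗ[ℂ] F).exists_antilipschitzWith (LinearMap.ker_eq_bot'.2 hD)
  have K1 : (0 : ℝ) < K := K0
  filter_upwards [hf.isLittleO.def (c := 1 / (2 * K)) (by positivity)] with z hz e
  have h1 := hK.le_mul_dist (z.1 - z.2) 0
  rw [e, sub_self, zero_sub, norm_neg] at hz
  simp only [map_zero, dist_zero_right, ContinuousLinearMap.coe_coe] at h1
  have h2 : K * ‖D (z.1 - z.2)‖ ≤ ‖z.1 - z.2‖ / 2 := by
    calc _ ≤ K * (1 / (2 * K) * ‖z.1 - z.2‖) := by gcongr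
      _ = _ := by field_simp
  exact sub_eq_zero.1 (norm_le_zero_iff.1 (by linarith))

theorem om_open : IsOpen Om := by
  have : Om = ⋂ i, ⋂ j, ⋂ _ : i < j, (fun b : Cf => b j - b i) ⁻¹' slitPlane := by
    ext b
    simp [Om]
  rw [this]
  exact isOpen_iInter_of_finite fun i => isOpen_iInter_of_finite fun j =>
    isOpen_iInter_of_finite fun _ => isOpen_slitPlane.preimage (by fun_prop)

variable {k : ℕ}

theorem AN.scale (A : AN k) {b : Cf} (hb : b ∈ Om) :
    ∀ᶠ t in 𝓝 (0 : ℂ), A.W (exp t • b) = exp (t * A.del) • A.W b := by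
  have h1 : ∀ᶠ t in 𝓝 (0 : ℂ), exp t • b ∈ Om :=
    ContinuousAt.eventually_mem (f := fun t : ℂ => exp t • b) (by fun_prop)
      (om_open.mem_nhds (by simpa using hb))
  obtain ⟨ε, e0, he⟩ := Metric.eventually_nhds_iff_ball.1 h1
  have hd : ∀ t ∈ Metric.ball (0 : ℂ) ε,
      HasDerivAt (fun t : ℂ => exp (-(t * A.del)) • A.W (exp t • b)) 0 t := by
    intro t ht
    have d1 : HasDerivAt (fun t : ℂ => A.W (exp t • b))
        (fderiv ℂ A.W (exp t • b) (exp t • b)) t :=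
      (A.an _ (he t ht)).differentiableAt.hasFDerivAt.comp_hasDerivAt t
        ((hasDerivAt_exp t).smul_const b)
    rw [A.euler _ (he t ht)] at d1
    refine ((((hasDerivAt_id t).mul_const (A.del : ℂ)).neg.cexp).smul d1).congr_deriv ?_
    simp only [Pi.neg_apply, id, one_mul]
    module
  filter_upwards [Metric.ball_mem_nhds (0 : ℂ) e0] with t ht
  have := Metric.isOpen_ball.is_const_of_deriv_eq_zero (convex_ball (0 : ℂ) ε).isPreconnected
    (fun t ht => (hd t ht).differentiableAt.differentiableWithinAt) (fun t ht => (hd t ht).deriv)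
    ht (Metric.mem_ball_self e0)
  simp only [zero_mul, neg_zero, exp_zero, one_smul] at this
  rw [← this, smul_smul, ← exp_add, add_neg_cancel, exp_zero, one_smul]

theorem cfg_smul (c : ℂ) (d : E3) : cfg (c • d) = c • cfg d := by
  funext i
  fin_cases i <;> simp [cfg, mul_add]

theorem hh_smul (Hm : Mat) (w v : V) (c : ℂ) : hh Hm w (c • v) = c * hh Hm w v := by
  simp [hh, mulVec_smul]

theorem hh_sub (Hm : Mat) (w v u : V) : hh Hm w (v - u) = hh Hm w v - hh Hm w u := by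
  simp [hh, mulVec_sub]

theorem rigid (A : AN k) {d : E3} (hd : Adm d) (h0 : ∀ p, d p ≠ 0) (hO : cfg d ∈ Om) (B : Mat)
    (hB : ∀ v w, hh A.Hm (B *ᵥ v) (B *ᵥ w) = hh A.Hm v w) {P : Submodule ℂ V}
    (hP : ∀ v ∈ P, v ≠ 0 → 0 < (hh A.Hm v v).re) (hw : B *ᵥ A.G d d ∈ P) :
    ∀ᶠ ζ in 𝓝 d, B *ᵥ A.G d ζ ∈ P → ∃ c : ℂ, ζ = c • d := by
  obtain ⟨ga, ge, gp, gs⟩ := A.G_spec hd
  set G := A.G d
  let φ : V →ₗ[ℂ] ℂ :=
    { toFun := fun v => hh A.Hm (G d) v
      map_add' := fun u v => by simp [hh, mulVec_add]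
      map_smul' := fun c v => hh_smul _ _ _ _ }
  let K : Submodule ℂ V := P.comap B.mulVecLin ⊓ LinearMap.ker φ
  obtain ⟨K', hK'⟩ := K.exists_isCompl
  let Λ : V →L[ℂ] K' := LinearMap.toContinuousLinearMap (K'.projectionOnto K hK'.symm)
  have hΛ : ∀ v, Λ v = 0 ↔ v ∈ K := fun v => Submodule.projectionOnto_apply_eq_zero_iff _
  have inj := loc_inj (Λ.hasStrictFDerivAt.comp d ga.hasStrictFDerivAt) fun v hv => by
    by_contra hne
    obtain ⟨a, b⟩ := (hΛ _).1 hv
    have h1 := gs v hne b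
    rw [← hB] at h1
    by_cases hz : B *ᵥ fderiv ℂ G d v = 0
    · rw [hz] at h1
      simp [hh] at h1
    · exact lt_asymm h1 (hP _ a hz)
  have s0 : hh A.Hm (G d) (G d) ≠ 0 := fun e => by simp [e] at gp
  have hpw : ∀ ζ, pw k d ζ = ζ := fun ζ => funext fun p => if_neg (h0 p)
  have ge' : ∀ᶠ ζ in 𝓝 d, G ζ = A.W (cfg ζ) :=
    ge.mono fun ζ h => by rw [h fun p e => absurd e (h0 p), hpw]
  have hq : ContinuousAt (fun ζ => hh A.Hm (G d) (G ζ) / hh A.Hm (G d) (G d)) d :=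
    ((LinearMap.continuous_of_finiteDimensional φ).continuousAt.comp ga.continuousAt).div_const _
  have ht : Tendsto (fun ζ => log (hh A.Hm (G d) (G ζ) / hh A.Hm (G d) (G d)) / A.del)
      (𝓝 d) (𝓝 0) := by
    have := (hq.clog (by rw [div_self s0]; exact one_mem_slitPlane)).div_const (A.del : ℂ)
    simpa [ContinuousAt, div_self s0] using this
  have ht2 : Tendsto (fun ζ => exp (log (hh A.Hm (G d) (G ζ) / hh A.Hm (G d) (G d)) / A.del) • d)
      (𝓝 d) (𝓝 d) := by
    simpa using ((continuous_exp.tendsto 0).comp ht).smul_const d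
  have hne : ∀ᶠ ζ in 𝓝 d, hh A.Hm (G d) (G ζ) / hh A.Hm (G d) (G d) ≠ 0 :=
    hq.eventually_ne (by rw [div_self s0]; exact one_ne_zero)
  filter_upwards [(tendsto_id.prodMk_nhds ht2).eventually inj, ht.eventually (A.scale hO),
    ht2.eventually ge', hne] with ζ a b c e hζ
  refine ⟨_, a ?_⟩
  rw [cfg_smul, b, ← ge'.self_of_nhds, div_mul_cancel₀ _ (ofReal_ne_zero.2 A.del_ne),
    exp_log e] at c
  simp only [id]
  rw [← sub_eq_zero, ← map_sub, hΛ, c]
  refine ⟨?_, ?_⟩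
  · show B *ᵥ _ ∈ P
    rw [mulVec_sub, mulVec_smul]
    exact P.sub_mem hζ (P.smul_mem _ hw)
  · show hh A.Hm _ _ = 0
    rw [hh_sub, hh_smul, div_mul_cancel₀ _ s0, sub_self]

/-- The scaling factor with respect to `y0`. -/
noncomputable def lam (y0 y : Y k) : ℂ := pos y (sg y0 1) - pos y (sg y0 0)

/-- The configuration is similar to the base configuration, in the order of `y0`. -/
def Sim (y0 y : Y k) : Prop := ∀ i, pos y (sg y0 i) = lam y0 y * b0 i + pos y (sg y0 0)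

theorem sim_closed (y0 : Y k) : IsClosed {y | Sim y0 y} := by
  have : {y | Sim y0 y} = ⋂ i, {y | pos y (sg y0 i) = lam y0 y * b0 i + pos y (sg y0 0)} := by
    ext y
    simp [Sim]
  rw [this]
  exact isClosed_iInter fun i => isClosed_eq (cont_pos_apply _)
    ((((cont_pos_apply _).sub (cont_pos_apply _)).mul continuous_const).add (cont_pos_apply _))

theorem sim_self {y0 : Y k} (h : dd y0 = d1) : Sim y0 y0 ∧ lam y0 y0 = 1 := by
  have e : ∀ i, pos y0 (sg y0 i) = b0 i + pos y0 (sg y0 0) := fun i => by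
    have := congrFun (pos_sg_self y0) i
    rw [h] at this
    refine this.trans ?_
    fin_cases i <;> simp [cfg, d1, b0] <;> norm_num
  have e1 : lam y0 y0 = 1 := by
    rw [lam, e 1]
    simp [b0]
  exact ⟨fun i => by rw [e1, one_mul]; exact e i, e1⟩

theorem Sim.ne (hk : Odd k) {y0 y : Y k} (h : Sim y0 y) : lam y0 y ≠ 0 := fun e =>
  noTriple_pos hk y (sg y0 0) (sg y0 1) (sg y0 2) ((sg y0).injective.ne (by decide))
    ((sg y0).injective.ne (by decide)) ((sg y0).injective.ne (by decide))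
    ⟨by rw [h 1, e]; simp, by rw [h 1, h 2, e]; simp⟩

theorem b0_sub : ∀ p q : Fin 4, p < q → ∃ t : ℝ, 0 < t ∧ b0 q - b0 p = t := by
  intro p q h
  refine ⟨(b0 q).re - (b0 p).re, ?_, ?_⟩
  · fin_cases p <;> fin_cases q <;> simp [b0] at h ⊢
    norm_num
  · fin_cases p <;> fin_cases q <;> simp [b0]

theorem LexNN.mul_pos {c : ℂ} (h : LexNN c) {t : ℝ} (ht : 0 < t) : LexNN (c * t) := by
  rcases h with h | h
  · left
    simpa using _root_.mul_pos h ht
  · right
    simpa [h.1] using mul_nonneg h.2 ht.le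

theorem lexNN_neg {c : ℂ} (h : ¬ LexNN c) : LexNN (-c) := by
  simp only [LexNN, not_or, not_lt, not_and, not_le, neg_re, neg_im] at h ⊢
  rcases h.1.lt_or_eq with e | e
  · left
    linarith
  · right
    exact ⟨by linarith, by linarith [h.2 e]⟩

theorem Sim.sub {y0 y : Y k} (h : Sim y0 y) (p q : Fin 4) :
    pos y (sg y0 q) - pos y (sg y0 p) = lam y0 y * (b0 q - b0 p) := by
  rw [h p, h q]
  ring

theorem Sim.sg_pos (hk : Odd k) {y0 y : Y k} (h : Sim y0 y) (hl : LexNN (lam y0 y)) :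
    sg y = sg y0 := srt_eq fun p q hpq => by
  obtain ⟨t, t0, e⟩ := b0_sub p q hpq
  rw [lex_lt_iff, h.sub, e]
  exact ⟨hl.mul_pos t0, mul_ne_zero (h.ne hk) (ofReal_ne_zero.2 t0.ne')⟩

theorem Sim.sg_neg (hk : Odd k) {y0 y : Y k} (h : Sim y0 y) (hl : ¬ LexNN (lam y0 y)) :
    sg y = sg y0 * Fin.revPerm := srt_eq fun p q hpq => by
  obtain ⟨t, t0, e⟩ := b0_sub q.rev p.rev (Fin.rev_lt_rev.2 hpq)
  rw [lex_lt_iff]
  simp only [Equiv.Perm.mul_apply, Fin.revPerm_apply]
  rw [h.sub, ← neg_sub, e, mul_neg, ← neg_mul]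
  exact ⟨(lexNN_neg hl).mul_pos t0,
    mul_ne_zero (neg_ne_zero.2 (h.ne hk)) (ofReal_ne_zero.2 t0.ne')⟩

theorem Sim.inj (hk : Odd k) {y0 y : Y k} (h : Sim y0 y) : Function.Injective (pos y) := by
  intro i j e
  obtain ⟨p, rfl⟩ := (sg y0).surjective i
  obtain ⟨q, rfl⟩ := (sg y0).surjective j
  have h1 := h.sub p q
  rw [e, sub_self, eq_comm, mul_eq_zero, or_iff_right (h.ne hk)] at h1
  rcases lt_trichotomy p q with c | c | c
  · obtain ⟨t, t0, e⟩ := b0_sub p q c
    exact absurd (e.symm.trans h1) (ofReal_ne_zero.2 t0.ne')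
  · rw [c]
  · obtain ⟨t, t0, e⟩ := b0_sub q p c
    rw [← neg_sub, h1, neg_zero] at e
    exact absurd e.symm (ofReal_ne_zero.2 t0.ne')

theorem Sim.dd_ne (hk : Odd k) {y0 y : Y k} (h : Sim y0 y) (p : Fin 3) : dd y p ≠ 0 := fun e =>
  Fin.castSucc_lt_succ.ne ((sg y).injective (h.inj hk ((dd_eq_zero' y p).1 e)))

theorem Sim.om (hk : Odd k) {y0 y : Y k} (h : Sim y0 y) : cfg (dd y) ∈ Om := by
  intro i j hij
  have e : cfg (dd y) j - cfg (dd y) i = pos y (sg y j) - pos y (sg y i) := by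
    have a := congrFun (pos_sg_self y) i
    have b := congrFun (pos_sg_self y) j
    simp only [Function.comp] at a b
    rw [a, b]
    ring
  rw [e]
  exact (sg_lexNN y hij.le).slit
    (sub_ne_zero.2 fun e => hij.ne' ((sg y).injective (h.inj hk e)))

theorem Sim.of_zeta (hk : Odd k) {y0 y y' : Y k} (h : Sim y0 y) {c : ℂ}
    (e : zeta y y' = c • dd y) : Sim y0 y' := by
  have hpw : pw k (dd y) (zeta y y') = c • dd y := by
    rw [← e]
    exact funext fun p => if_neg (h.dd_ne hk p)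
  have e1 : ∀ i j, pos y' j - pos y' i = c * (pos y j - pos y i) := by
    intro i j
    obtain ⟨p, rfl⟩ := (sg y).surjective i
    obtain ⟨q, rfl⟩ := (sg y).surjective j
    have a1 := congrFun (pos_sg y y') p
    have a2 := congrFun (pos_sg y y') q
    have a3 := congrFun (pos_sg_self y) p
    have a4 := congrFun (pos_sg_self y) q
    simp only [Function.comp, hpw, cfg_smul, Pi.smul_apply, smul_eq_mul] at a1 a2 a3 a4
    rw [a1, a2, a3, a4]
    ring
  intro i
  have e2 : lam y0 y' = c * lam y0 y := e1 _ _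
  rw [← sub_eq_iff_eq_add, e1, h.sub, e2]
  simp [b0, mul_assoc]

variable {H : Type} [Group H]

open Classical in
/-- The normalised label. -/
noncomputable def lbl (L : Lab k H) (y0 : Y k) (x : L.X) : H :=
  if LexNN (lam y0 x.x) then x.g else x.g * (Dl L.s)⁻¹

theorem lbl_step (hk : Odd k) (L : Lab k H) {y0 : Y k} {x x' : L.X} (h : Sim y0 x.x)
    (h' : Sim y0 x'.x) (e : x'.g = x.g * L.bb x.x x'.x) :
    lbl L y0 x' ∈ Subgroup.zpowers (Dl L.s ^ 2) ↔ lbl L y0 x ∈ Subgroup.zpowers (Dl L.s ^ 2) := by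
  have e1 : L.bb x.x x'.x = r L.s ((sg x.x)⁻¹ * sg x'.x) := by
    simp [Lab.bb, Sz, jv, h.dd_ne hk]
  rw [e1] at e
  unfold lbl
  split_ifs with a b b
  · rw [e, h.sg_pos hk b, h'.sg_pos hk a, inv_mul_cancel, r_one, mul_one]
  · have : (sg y0 * Fin.revPerm)⁻¹ * sg y0 = Fin.revPerm := by
      rw [_root_.mul_inv_rev, inv_mul_cancel_right]
      rfl
    rw [e, h.sg_neg hk b, h'.sg_pos hk a, this, ← Dl,
      show x.g * Dl L.s = x.g * (Dl L.s)⁻¹ * Dl L.s ^ 2 by group]
    exact Subgroup.mul_mem_cancel_right _ (Subgroup.mem_zpowers _)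
  · rw [e, h.sg_pos hk b, h'.sg_neg hk a, inv_mul_cancel_left, ← Dl, mul_inv_cancel_right]
  · rw [e, h.sg_neg hk b, h'.sg_neg hk a, inv_mul_cancel, r_one, mul_one]

theorem endg (hk : Odd k) (A : AN k) (L : Lab k H) (ρ : H →* Matˣ) (hc : Coc L.bb)
    (hU : A.Uni ρ) (hL : A.Loc L ρ) {P N : Submodule ℂ V} (hS : Split A.Hm P N) (y0 y1 : Y k)
    (g : H) (h0 : dd y0 = d1) (h1 : dd y1 = d1)
    (hj : JoinedIn {x : L.X | A.dev L ρ x ∈ P} ⟨y0, 1⟩ ⟨y1, g⟩) :
    g ∈ Subgroup.zpowers ((L.s 0 * L.s 1 * L.s 2) ^ 4) := by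
  obtain ⟨c, hcP⟩ := hj
  have cx : Continuous fun t => (c t).x := (tot_x_cont hc).comp c.continuous
  have S1 : ∀ t, Sim y0 (c t).x := by
    have : IsClopen {t | Sim y0 (c t).x} := by
      refine ⟨(sim_closed y0).preimage cx, isOpen_iff_mem_nhds.2 fun t ht => ?_⟩
      have hz : Tendsto (fun u => zeta (c t).x (c u).x) (𝓝 t) (𝓝 (dd (c t).x)) := by
        rw [← zeta_self hk]
        exact ((cont_zeta _).comp cx).tendsto t
      filter_upwards [hz.eventually (rigid A (adm_dd hk _) (Sim.dd_ne hk ht) (Sim.om hk ht)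
        (ρ (c t).g) (hU _) hS.2.2.1 (hcP t)), (c.continuous.tendsto t).eventually (tot_ev hc _),
        (cx.tendsto t).eventually (hL _)] with u a b e
      have := hcP u
      rw [mem_ofPred_eq, AN.dev, b, map_mul, Units.val_mul, ← mulVec_mulVec, e] at this
      obtain ⟨μ, hμ⟩ := a this
      exact Sim.of_zeta hk ht hμ
    have e := this.eq_univ ⟨0, by simpa using (sim_self h0).1⟩
    exact fun t => (eq_univ_iff_forall.1 e) t
  have S2 : IsLocallyConstant fun t => lbl L y0 (c t) ∈ Subgroup.zpowers (Dl L.s ^ 2) := by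
    rw [IsLocallyConstant.iff_eventually_eq]
    intro t
    filter_upwards [(c.continuous.tendsto t).eventually (tot_ev hc _)] with u b
    exact propext (lbl_step hk L (S1 t) (S1 u) b)
  have e := S2.apply_eq_of_preconnectedSpace 0 1
  have s1 := S1 1
  simp only [Path.source, Path.target] at e s1
  have l0 : LexNN (lam y0 y0) := by
    rw [(sim_self h0).2]
    exact Or.inl (by simp)
  have l1 : LexNN (lam y0 y1) := by
    by_contra hn
    have a := dd_eq y1 0
    have b := dd_eq y1 2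
    rw [h1, s1.sg_neg hk hn] at a b
    simp only [Equiv.Perm.mul_apply, s1.sub] at a b
    simp [d1, b0, Fin.rev] at a b
    have : (15 : ℂ) = 0 := by linear_combination 4 * b - a
    norm_num at this
  simp only [lbl, l0, l1, if_true] at e
  rw [← Dl_sq L.br, ← e]
  exact one_mem _

end Pool.Agent.BP.F
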