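import Pool.Agent.Lib.MP_0c623d_al.F.Rot
import Pool.Agent.Lib.MP_0c623d_al.F.Ord

/-! Block F: the Euler field at the centre of a chart, and the charts of the developing map. -/

namespace Pool.Agent.BP.F

open Complex Set Filter Topology Matrix

variable {k : ℕ} {H : Type} [Group H]

/-- The weighted Euler field in chart coordinates. -/
noncomputable def eu (k : ℕ) (d0 ζ : E3) : E3 := fun p => if d0 p = 0 then ζ p / k else ζ p

theorem continuous_eu (d0 : E3) : Continuous (eu k d0) := by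
  refine continuous_pi fun q => ?_
  unfold eu
  by_cases h : d0 q = 0
  · simp only [h, if_true]; fun_prop
  · simp only [h, if_false]; fun_prop

theorem fderiv_pw_eu (hk : k ≠ 0) (d0 ζ : E3) : fderiv ℂ (pw k d0) ζ (eu k d0 ζ) = pw k d0 ζ := by
  have l : HasDerivAt (fun s : ℂ => ζ + s • eu k d0 ζ) (eu k d0 ζ) 0 := by
    simpa using ((hasDerivAt_id (0 : ℂ)).smul_const (eu k d0 ζ)).const_add ζ
  have a : HasFDerivAt (pw k d0) (fderiv ℂ (pw k d0) ζ) (ζ + (0 : ℂ) • eu k d0 ζ) := by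
    simpa using (analytic_pw (k := k) d0 ζ).differentiableAt.hasFDerivAt
  refine (a.comp_hasDerivAt (0 : ℂ) l).unique (hasDerivAt_pi.2 fun p => ?_)
  have lp := hasDerivAt_pi.1 l p
  by_cases h : d0 p = 0
  · have hk' : (k : ℂ) ≠ 0 := Nat.cast_ne_zero.2 hk
    have := lp.fun_pow k
    simp only [Function.comp, pw, h, if_true]
    convert this using 1
    · rfl
    obtain ⟨j, rfl⟩ := Nat.exists_eq_succ_of_ne_zero hk
    simp only [eu, h, if_true, zero_smul, add_zero, Nat.succ_eq_add_one,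
      Nat.add_sub_cancel, pow_succ]
    field_simp
  · simp only [Function.comp, pw, h, if_false]
    simpa only [eu, h, if_false] using lp

/-- On the principal sector the derivative of the chart function is that of `W`. -/
theorem chart_fderiv (hk : k ≠ 0) (A : AN k) {d0 : E3} (hd : Adm d0) {G : E3 → V}
    (hG : IsChart k A.Hm A.W d0 G) :
    ∀ᶠ ζ in 𝓝 d0, Sect k d0 ζ → G ζ = A.W (cfg (pw k d0 ζ)) ∧ ∀ v, fderiv ℂ G ζ v =
      fderiv ℂ A.W (cfg (pw k d0 ζ)) (cfg (fderiv ℂ (pw k d0) ζ v)) := by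
  filter_upwards [hG.2.1.eventually_nhds, om_ev hk hd] with ζ h1 h2 hs
  refine ⟨h1.self_of_nhds hs, fun v => ?_⟩
  have e : G =ᶠ[𝓝 ζ] fun ζ => A.W (cfgL (pw k d0 ζ)) := by
    filter_upwards [h1, (isOpen_sect hk d0).mem_nhds hs] with z a b using a b
  have d := (A.an _ (h2 hs)).differentiableAt.hasFDerivAt.comp ζ
    (cfgL.hasFDerivAt.comp ζ (analytic_pw (k := k) d0 ζ).differentiableAt.hasFDerivAt)
  rw [e.fderiv_eq]
  exact congrArg (fun L : E3 →L[ℂ] V => L v) d.fderiv

theorem euler_chart (hk : k ≠ 0) (A : AN k) {d0 : E3} (hd : Adm d0) {G : E3 → V}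
    (hG : IsChart k A.Hm A.W d0 G) : fderiv ℂ G d0 (eu k d0 d0) = (A.del : ℂ) • G d0 := by
  have c1 : ContinuousAt (fun ζ => fderiv ℂ G ζ (eu k d0 ζ)) d0 :=
    hG.1.fderiv.continuousAt.clm_apply (continuous_eu d0).continuousAt
  have c2 : ContinuousAt (fun ζ => (A.del : ℂ) • G ζ) d0 := hG.1.continuousAt.const_smul (A.del : ℂ)
  refine tendsto_nhds_unique_of_eventuallyEq (c1.tendsto.comp (ray_tendsto (k := k) d0))
    (c2.tendsto.comp (ray_tendsto (k := k) d0)) ?_
  filter_upwards [(ray_tendsto (k := k) d0).eventually ((chart_fderiv hk A hd hG).and (om_ev hk hd)),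
    self_mem_nhdsWithin] with ε h hε
  have s := ray_sect hk d0 hε
  simp only [Function.comp]
  rw [(h.1 s).2, fderiv_pw_eu hk, A.euler _ (h.2 s), (h.1 s).1]

theorem euler_centre (hk : k ≠ 0) (A : AN k) {d0 : E3} (hd : Adm d0) {G : E3 → V}
    (hG : IsChart k A.Hm A.W d0 G) : ∃ v, fderiv ℂ G d0 v = G d0 := by
  refine ⟨(A.del : ℂ)⁻¹ • eu k d0 d0, ?_⟩
  rw [map_smul, euler_chart hk A hd hG, smul_smul,
    inv_mul_cancel₀ (ofReal_ne_zero.2 A.del_ne), one_smul]

theorem fderiv_mulVec (B : Mat) {G : E3 → V} {x : E3} (h : DifferentiableAt ℂ G x) (v : E3) :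
    fderiv ℂ (fun ζ => B *ᵥ G ζ) x v = B *ᵥ fderiv ℂ G x v :=
  congrArg (fun L : E3 →L[ℂ] V => L v)
    ((LinearMap.toContinuousLinearMap (Matrix.toLin' B)).hasFDerivAt.comp x h.hasFDerivAt).fderiv

/-- The developing map in the chart at a point. -/
theorem dev_ev (A : AN k) (L : Lab k H) (ρ : H →* Matˣ) (hc : Coc L.bb) (hL : A.Loc L ρ)
    (x : L.X) : ∀ᶠ y in 𝓝 x, A.dev L ρ y = (ρ x.g : Mat) *ᵥ A.G (dd x.x) (zeta x.x y.x) := by
  filter_upwards [tot_ev hc x, ((tot_x_cont hc).tendsto x).eventually (hL x.x)] with y a b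
  rw [AN.dev, a, ← b, mulVec_mulVec, map_mul, Units.val_mul]

theorem charted (hk : Odd k) (A : AN k) (L : Lab k H) (ρ : H →* Matˣ) (hc : Coc L.bb)
    (hX : L.ChartX) (hU : A.Uni ρ) (hL : A.Loc L ρ) : Charted A.Hm (A.dev L ρ) := by
  intro x
  obtain ⟨e, e1, e2, -⟩ := hX x
  have hd := adm_dd hk x.x
  have hG := A.G_spec hd
  have ex : e x = dd x.x := by rw [e2, zeta_self hk]
  have f := fderiv_mulVec (ρ x.g : Mat) hG.1.differentiableAt
  refine ⟨e, fun ζ => (ρ x.g : Mat) *ᵥ A.G (dd x.x) ζ, e1, ?_, ?_, ?_, ?_⟩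
  · rw [ex]; exact analytic_mulVec _ hG.1
  · simpa only [e2] using dev_ev A L ρ hc hL x
  · rw [ex]
    refine ⟨by simpa only [hU x.g] using hG.2.2.1, fun v hv h => ?_⟩
    rw [f, hU x.g] at h ⊢
    exact hG.2.2.2 v hv h
  · rw [ex]
    obtain ⟨v, hv⟩ := euler_centre hk.pos.ne' A hd hG
    exact ⟨v, by rw [f, hv]⟩

/-- The wall matrices to the power `2 * k` fix the values of `W` on an open set. -/
theorem ord_ev (hk : k ≠ 0) (A : AN k) (p : Fin 3) :
    ∃ b ∈ Om, ∀ᶠ b' in 𝓝 b, (A.R p ^ (2 * k) - 1) *ᵥ A.W b' = 0 := by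
  set d0 : E3 := fun q => if q = p then 0 else 1 with hd0
  have z : ∀ q, d0 q = 0 ↔ q = p := fun q => by by_cases h : q = p <;> simp [hd0, h]
  have hd : Adm d0 := by
    refine ⟨fun q => ?_, fun h => ?_, fun h => ?_⟩
    · by_cases h : q = p <;> simp [hd0, h, LexNN]
    · exact absurd (((z 0).1 h.1).trans ((z 1).1 h.2).symm) (by decide)
    · exact absurd (((z 1).1 h.1).trans ((z 2).1 h.2).symm) (by decide)
  have hG := A.G_spec hd
  have m := rot_main hk A hd hG (fun q => if q = p then 2 * k else 0) fun q => by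
    by_cases h : q = p
    · exact Or.inl ((z q).2 h)
    · simp [h]
  have s2 : ∀ q, sw q ^ (2 * k) = 1 := fun q => by
    rw [pow_mul, sq, sw, Equiv.swap_mul_self, one_pow]
  have m1 : ∀ᶠ ζ in 𝓝 d0, Sect k d0 ζ → cfg (pw k d0 ζ) ∈ Om ∧
      (A.R p ^ (2 * k) - 1) *ᵥ A.W (cfg (pw k d0 ζ)) = 0 := by
    filter_upwards [m, hG.2.1, om_ev hk hd] with ζ a b c hs
    have := a fun q hq => by simpa [(z q).1 hq, om_pow_two hk] using hs p ((z p).2 rfl)
    refine ⟨c hs, ?_⟩
    rw [sub_mulVec, one_mulVec, sub_eq_zero]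
    conv_rhs => rw [← b hs, this]
    fin_cases p <;> simp [s2]
  obtain ⟨ε, h1, hε⟩ := (((ray_tendsto (k := k) d0).eventually m1.eventually_nhds).and
    self_mem_nhdsWithin).exists
  have s := ray_sect hk d0 hε
  set ζ1 := ray k d0 ε
  let Z : Cf → E3 := fun b q =>
    if d0 q = 0 then (b q.succ - b q.castSucc) ^ ((k : ℂ)⁻¹) else b q.succ - b q.castSucc
  have Z1 : Z (cfg (pw k d0 ζ1)) = ζ1 := by
    funext q
    simp only [Z, cfg_sub, pw]
    by_cases h : d0 q = 0
    · simp only [h, if_true]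
      have := abs_lt.1 (s q h).2
      exact pow_cpow_nat_inv hk this.1 this.2.le
    · simp only [h, if_false]
  have Z2 : ContinuousAt Z (cfg (pw k d0 ζ1)) := by
    refine continuousAt_pi.2 fun q => ?_
    simp only [Z]
    by_cases h : d0 q = 0
    · simp only [h, if_true]
      refine ContinuousAt.cpow (by fun_prop) continuousAt_const ?_
      rw [cfg_sub]
      simpa [pw, h] using sec_pow_slit hk (s q h).1 (s q h).2
    · simp only [h, if_false]; fun_prop
  have Z3 : ∀ b : Cf, b = fun i => cfg (pw k d0 (Z b)) i + b 0 := fun b => by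
    have : pw k d0 (Z b) = fun q => b q.succ - b q.castSucc := by
      funext q
      simp only [Z, pw]
      by_cases h : d0 q = 0
      · simp only [h, if_true]
        exact cpow_nat_inv_pow _ hk
      · simp only [h, if_false]
    rw [this]
    funext i
    fin_cases i <;> simp [cfg]
  refine ⟨_, (h1.self_of_nhds s).1, ?_⟩
  have t : Tendsto Z (𝓝 (cfg (pw k d0 ζ1))) (𝓝 ζ1) := by simpa only [ContinuousAt, Z1] using Z2
  filter_upwards [t.eventually h1, t.eventually ((isOpen_sect hk d0).mem_nhds s)] with b a c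
  rw [Z3 b, A.transl _ (a c).1]
  exact (a c).2

end Pool.Agent.BP.F
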