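import Mathlib

/-! Path lifting for local homeomorphisms and the inequalities of the graph argument. -/

set_option autoImplicit false

namespace Pool.Agent.BP.F.Gr

open Set Filter Topology
open scoped InnerProductSpace

/-- A path lifts through a local homeomorphism as soon as incomplete lifts have limits. -/
theorem lift_ex {Z B : Type*} [TopologicalSpace Z] [T2Space Z] [TopologicalSpace B] [T2Space B]
    {p : Z → B} (hp : IsLocalHomeomorph p) {γ : ℝ → B} (hγ : Continuous γ) {z0 : Z}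
    (h0 : p z0 = γ 0)
    (hlim : ∀ T ∈ Ioc (0 : ℝ) 1, ∀ c : ℝ → Z, ContinuousOn c (Ico 0 T) → c 0 = z0 →
      (∀ s ∈ Ico 0 T, p (c s) = γ s) → ∃ z, Tendsto c (𝓝[<] T) (𝓝 z)) :
    ∃ c : ℝ → Z, ContinuousOn c (Icc 0 1) ∧ c 0 = z0 ∧ ∀ s ∈ Icc (0 : ℝ) 1, p (c s) = γ s := by
  classical
  have : Nonempty Z := ⟨z0⟩
  let L : ℝ → (ℝ → Z) → Prop := fun T c =>
    ContinuousOn c (Icc 0 T) ∧ c 0 = z0 ∧ ∀ s ∈ Icc 0 T, p (c s) = γ s
  let S : Set ℝ := {T | T ∈ Icc (0 : ℝ) 1 ∧ ∃ c, L T c}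
  have sep : IsSeparatedMap p := T2Space.isSeparatedMap p
  have S0 : (0 : ℝ) ∈ S := ⟨⟨le_rfl, zero_le_one⟩, fun _ => z0, continuousOn_const, rfl,
    fun s hs => by rw [le_antisymm hs.2 hs.1, h0]⟩
  have Sb : BddAbove S := ⟨1, fun T hT => hT.1.2⟩
  have mono : ∀ T T' c, T' ≤ T → L T c → L T' c := fun T T' c h hc =>
    ⟨hc.1.mono (Icc_subset_Icc_right h), hc.2.1, fun s hs => hc.2.2 s ⟨hs.1, hs.2.trans h⟩⟩
  have uniq : ∀ T c c', 0 ≤ T → L T c → L T c' → EqOn c c' (Icc 0 T) := fun T c c' hT h h' =>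
    sep.eqOn_of_comp_eqOn hp.isLocallyInjective isPreconnected_Icc h.1 h'.1
      (fun s hs => (h.2.2 s hs).trans (h'.2.2 s hs).symm) ⟨le_rfl, hT⟩ (h.2.1.trans h'.2.1.symm)
  set T0 := sSup S with hT0
  have T0n : 0 ≤ T0 := le_csSup Sb S0
  have T01 : T0 ≤ 1 := csSup_le ⟨0, S0⟩ fun T hT => hT.1.2
  have below : ∀ T, T < T0 → ∃ c, L T c := fun T hT => by
    obtain ⟨T', hT', h⟩ := exists_lt_of_lt_csSup ⟨0, S0⟩ hT
    obtain ⟨c, hc⟩ := hT'.2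
    exact ⟨c, mono _ _ _ h.le hc⟩
  have atT0 : ∃ c, L T0 c := by
    rcases T0n.eq_or_lt with h | h
    · rw [← h]; exact S0.2
    choose! cc hcc using below
    let c : ℝ → Z := fun s => cc s s
    have hc : ∀ T, T < T0 → EqOn c (cc T) (Icc 0 T) := fun T hT s hs =>
      uniq s _ _ hs.1 (hcc s (hs.2.trans_lt hT)) (mono _ _ _ hs.2 (hcc T hT)) ⟨hs.1, le_rfl⟩
    have cc1 : ContinuousOn c (Ico 0 T0) := fun s hs => by
      obtain ⟨T, h1, h2⟩ := exists_between hs.2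
      have : ContinuousWithinAt c (Icc 0 T) s :=
        ((hcc T h2).1.congr (hc T h2)) s ⟨hs.1, h1.le⟩
      refine this.mono_of_mem_nhdsWithin ?_
      exact mem_of_superset (inter_mem_nhdsWithin _ (Iio_mem_nhds h1))
        fun u hu => ⟨hu.1.1, le_of_lt hu.2⟩
    have c0 : c 0 = z0 := (hcc 0 h).2.1
    have cl : ∀ s ∈ Ico 0 T0, p (c s) = γ s := fun s hs => (hcc s hs.2).2.2 s ⟨hs.1, le_rfl⟩
    obtain ⟨z, hz⟩ := hlim T0 ⟨h, T01⟩ c cc1 c0 cl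
    have pz : p z = γ T0 := by
      refine tendsto_nhds_unique ((hp.continuous.tendsto z).comp hz) ?_
      refine ((hγ.tendsto T0).mono_left nhdsWithin_le_nhds).congr' ?_
      filter_upwards [Ico_mem_nhdsLT h] with s hs using (cl s hs).symm
    refine ⟨Function.update c T0 z, ?_, ?_, fun s hs => ?_⟩
    · rw [continuousOn_update_iff, Icc_sdiff_right]
      exact ⟨cc1, fun _ => hz.mono_left (nhdsWithin_mono _ fun u hu => hu.2)⟩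
    · rw [Function.update_of_ne h.ne, c0]
    · rcases hs.2.eq_or_lt with e | e
      · rw [e, Function.update_self, pz]
      · rw [Function.update_of_ne e.ne, cl s ⟨hs.1, e⟩]
  obtain ⟨c, hc⟩ := atT0
  rcases T01.eq_or_lt with h | h
  · rw [h] at hc; exact ⟨c, hc⟩
  exfalso
  obtain ⟨e, he, hpe⟩ := hp (c T0)
  have h1 : γ T0 ∈ e.target := by
    rw [← hc.2.2 T0 ⟨T0n, le_rfl⟩, hpe]; exact e.map_source he
  have h2 : ∀ᶠ s in 𝓝 T0, γ s ∈ e.target := hγ.continuousAt (e.open_target.mem_nhds h1)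
  obtain ⟨T1, hT1, hsub⟩ := (mem_nhdsGE_iff_exists_Icc_subset).1
    ((h2.and (Iio_mem_nhds h)).filter_mono (nhdsWithin_le_nhds (s := Ici T0)))
  let c' : ℝ → Z := fun s => if s ≤ T0 then c s else e.symm (γ s)
  have a1 : EqOn c' c (Icc 0 T0) := fun s hs => if_pos hs.2
  have a2 : EqOn c' (fun s => e.symm (γ s)) (Icc T0 T1) := fun s hs => by
    rcases hs.1.eq_or_lt with h3 | h3
    · show (if s ≤ T0 then c s else e.symm (γ s)) = e.symm (γ s)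
      rw [if_pos h3.ge, ← h3, ← hc.2.2 T0 ⟨T0n, le_rfl⟩, hpe, e.left_inv he]
    · exact if_neg (not_le.2 h3)
  have : T1 ∈ S := by
    refine ⟨⟨T0n.trans hT1.le, le_of_lt (hsub ⟨hT1.le, le_rfl⟩).2⟩, c', ?_, ?_, fun s hs => ?_⟩
    · rw [← Icc_union_Icc_eq_Icc T0n hT1.le]
      exact (hc.1.congr a1).union_of_isClosed
        ((e.continuousOn_symm.comp hγ.continuousOn fun s hs => (hsub hs).1).congr a2)
        isClosed_Icc isClosed_Icc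
    · rw [a1 ⟨le_rfl, T0n⟩, hc.2.1]
    · rcases le_total s T0 with h3 | h3
      · rw [a1 ⟨hs.1, h3⟩, hc.2.2 s ⟨hs.1, h3⟩]
      · rw [a2 ⟨h3, hs.2⟩, hpe]; exact e.right_inv (hsub ⟨h3, hs.2⟩).1
  exact absurd (le_csSup Sb this) (not_le.2 hT1)

section Alg

variable {P : Type*} [NormedAddCommGroup P] [InnerProductSpace ℂ P]

theorem bessel {p a t : P} (h : ⟪p, t⟫_ℂ = 0) :
    ‖p‖ ^ 2 * ‖⟪a, t⟫_ℂ‖ ^ 2 ≤ (‖p‖ ^ 2 * ‖a‖ ^ 2 - ‖⟪p, a⟫_ℂ‖ ^ 2) * ‖t‖ ^ 2 := by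
  rcases eq_or_ne p 0 with rfl | hp
  · simp
  have hp' : 0 < ‖p‖ := norm_pos_iff.2 hp
  set k : P := ((‖p‖ ^ 2 : ℝ) : ℂ) • a - ⟪p, a⟫_ℂ • p with hk
  have h1 : ⟪k, t⟫_ℂ = ((‖p‖ ^ 2 : ℝ) : ℂ) * ⟪a, t⟫_ℂ := by
    rw [hk, inner_sub_left, inner_smul_left, inner_smul_left, h, Complex.conj_ofReal]; ring
  have h2 : ‖k‖ ^ 2 = ‖p‖ ^ 2 * (‖p‖ ^ 2 * ‖a‖ ^ 2 - ‖⟪p, a⟫_ℂ‖ ^ 2) := by
    rw [hk, @norm_sub_sq ℂ, inner_smul_left, inner_smul_right, norm_smul, norm_smul,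
      Complex.conj_ofReal, ← inner_conj_symm a p, Complex.mul_conj, Complex.normSq_eq_norm_sq]
    simp only [Complex.norm_real, Real.norm_eq_abs, abs_pow, abs_norm, ← Complex.ofReal_mul,
      RCLike.re_to_complex, Complex.ofReal_re]
    ring
  have h3 : ‖⟪k, t⟫_ℂ‖ ^ 2 ≤ ‖k‖ ^ 2 * ‖t‖ ^ 2 := by
    rw [← mul_pow]; exact pow_le_pow_left₀ (norm_nonneg _) (norm_inner_le_norm _ _) 2
  rw [h1, h2, norm_mul, Complex.norm_real, Real.norm_eq_abs, abs_pow, abs_norm] at h3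
  have h4 : 0 < ‖p‖ ^ 2 := by positivity
  refine le_of_mul_le_mul_left ?_ h4
  nlinarith

theorem speed (n ε : ℝ) (hn : 0 ≤ n) (hε : 0 < ε) : ∃ K, 0 ≤ K ∧ ∀ κ τ A q : ℝ, 0 ≤ κ → κ ≤ A →
    0 ≤ τ → κ ^ 2 + ε ≤ q → q * (τ ^ 2 - n ^ 2) ≤ (κ * τ + n ^ 2) ^ 2 → τ ≤ K * A + K := by
  set c := 2 * n ^ 4 / ε + n ^ 2 + n ^ 4 + ε * n ^ 2 with hc
  have c0 : 0 ≤ c := by positivity
  refine ⟨n + √(2 * c / ε), by positivity, fun κ τ A q h1 h2 h3 h4 h5 => ?_⟩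
  have s0 : 0 ≤ √(2 * c / ε) := Real.sqrt_nonneg _
  have hA : 0 ≤ A := h1.trans h2
  rcases le_total τ n with h | h
  · nlinarith [mul_nonneg (add_nonneg hn s0) hA]
  have h6 : (κ ^ 2 + ε) * (τ ^ 2 - n ^ 2) ≤ (κ * τ + n ^ 2) ^ 2 :=
    le_trans (mul_le_mul_of_nonneg_right h4 (by nlinarith)) h5
  have h7 : 2 * κ * τ * n ^ 2 ≤ ε / 2 * τ ^ 2 + κ ^ 2 * (2 * n ^ 4 / ε) := by
    have : 0 ≤ (ε * τ - 2 * κ * n ^ 2) ^ 2 / (2 * ε) := by positivity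
    have e : (ε * τ - 2 * κ * n ^ 2) ^ 2 / (2 * ε) =
        ε / 2 * τ ^ 2 + κ ^ 2 * (2 * n ^ 4 / ε) - 2 * κ * τ * n ^ 2 := by field_simp; ring
    linarith
  have h8 : ε / 2 * τ ^ 2 ≤ c * (1 + κ ^ 2) := by
    have a1 : 0 ≤ 2 * n ^ 4 / ε := by positivity
    have a2 : 0 ≤ κ ^ 2 * (n ^ 4 + ε * n ^ 2) := by positivity
    have a3 : 0 ≤ n ^ 2 := by positivity
    rw [hc]; nlinarith
  have h9 : τ ^ 2 ≤ (√(2 * c / ε) * (A + 1)) ^ 2 := by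
    rw [mul_pow, Real.sq_sqrt (by positivity), div_mul_eq_mul_div, le_div_iff₀ hε]
    have : 1 + κ ^ 2 ≤ (A + 1) ^ 2 := by nlinarith
    nlinarith [mul_le_mul_of_nonneg_left this c0]
  have := abs_le_of_sq_le_sq' h9 (by positivity)
  nlinarith [mul_nonneg hn hA]

end Alg

end Pool.Agent.BP.F.Gr
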