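import Pool.Agent.Lib.MP_0c623d_al.F.GraphA

/-! The graph argument for a map into `P × N` with the form `|a|^2 - |b|^2`. -/

set_option autoImplicit false

namespace Pool.Agent.BP.F.Gr

open Set Filter Topology
open scoped InnerProductSpace unitInterval

variable {X : Type} [TopologicalSpace X] {E W P N : Type}
  [NormedAddCommGroup E] [NormedSpace ℂ E] [NormedAddCommGroup W] [NormedSpace ℂ W]
  [NormedAddCommGroup P] [InnerProductSpace ℂ P] [NormedAddCommGroup N] [InnerProductSpace ℂ N]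

/-- The reverse Cauchy-Schwarz inequality. -/
def RCS (al : W →L[ℂ] P) (be : W →L[ℂ] N) (w v : W) : Prop :=
  (‖al w‖ ^ 2 - ‖be w‖ ^ 2) * (‖al v‖ ^ 2 - ‖be v‖ ^ 2) ≤
    ‖⟪al w, al v⟫_ℂ - ⟪be w, be v⟫_ℂ‖ ^ 2

variable (E) in
/-- Charts in which `w` is a positive immersion with the reverse Cauchy-Schwarz inequality. -/
def Cht (al : W →L[ℂ] P) (be : W →L[ℂ] N) (w : X → W) : Prop :=
  ∀ x, ∃ (e : OpenPartialHomeomorph X E) (G : E → W) (D : E →L[ℂ] W), x ∈ e.source ∧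
    HasStrictFDerivAt G D (e x) ∧ (∀ᶠ y in 𝓝 x, w y = G (e y)) ∧ ‖be (w x)‖ < ‖al (w x)‖ ∧
    Function.Injective D ∧ ∀ v, RCS al be (w x) (D v)

/-- Curves whose image has bounded speed and stays in the positive cone converge. -/
def Cpl (al : W →L[ℂ] P) (be : W →L[ℂ] N) (w : X → W) : Prop :=
  ∀ (c : ℝ → X) (T M ε : ℝ), 0 < T → 0 < ε → ContinuousOn c (Ico 0 T) →
    (∀ t ∈ Ico 0 T, ∃ v, HasDerivWithinAt (fun t => w (c t)) v (Ici t) t ∧ ‖v‖ ≤ M) →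
    (∀ t ∈ Ico 0 T, ε ≤ ‖al (w (c t))‖ ^ 2 - ‖be (w (c t))‖ ^ 2) →
    ∃ x, Tendsto c (𝓝[<] T) (𝓝 x)

/-- The map that is lifted. -/
noncomputable def Phi (al : W →L[ℂ] P) (be : W →L[ℂ] N) (w : X → W)
    (z : X × (P →L[ℂ] ℂ)) : N × ℂ × (P →L[ℂ] ℂ) := (be (w z.1), z.2 (al (w z.1)), z.2)

/-- Its domain. -/
def Dom (al : W →L[ℂ] P) (be : W →L[ℂ] N) (w : X → W) : Set (X × (P →L[ℂ] ℂ)) :=
  {z | ‖z.2‖ * ‖be (w z.1)‖ < ‖z.2 (al (w z.1))‖}

variable {al : W →L[ℂ] P} {be : W →L[ℂ] N} {w : X → W}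

theorem Cht.cont (h : Cht E al be w) : Continuous w := by
  refine continuous_iff_continuousAt.2 fun x => ?_
  obtain ⟨e, G, D, hx, hG, hw, -⟩ := h x
  exact (hG.continuousAt.comp (e.continuousAt hx)).congr (hw.mono fun y hy => hy.symm)

variable [FiniteDimensional ℂ E] [FiniteDimensional ℂ W] [FiniteDimensional ℂ P]
  [FiniteDimensional ℂ N]

omit [FiniteDimensional ℂ E] [FiniteDimensional ℂ W] [FiniteDimensional ℂ N] in
theorem ker_triv {l : P →L[ℂ] ℂ} {u v : W} (hd : ‖l‖ * ‖be u‖ < ‖l (al u)‖)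
    (hr : RCS al be u v) (h1 : be v = 0) (h2 : l (al v) = 0) : al v = 0 := by
  have : CompleteSpace P := FiniteDimensional.complete ℂ P
  set p := (InnerProductSpace.toDual ℂ P).symm l with hp
  have e : ∀ y, ⟪p, y⟫_ℂ = l y := fun y => InnerProductSpace.toDual_symm_apply
  have n : ‖p‖ = ‖l‖ := (InnerProductSpace.toDual ℂ P).symm.norm_map l
  have b := bessel (a := al u) ((e _).trans h2)
  rw [RCS, h1] at hr
  simp only [norm_zero, inner_zero_right, sub_zero, ne_eq, OfNat.ofNat_ne_zero,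
    not_false_eq_true, zero_pow] at hr
  rw [e, n] at b
  have h3 : (‖l‖ * ‖be u‖) ^ 2 < ‖l (al u)‖ ^ 2 := pow_lt_pow_left₀ hd (by positivity) two_ne_zero
  by_contra h
  have h4 : 0 < ‖al v‖ ^ 2 := pow_pos (norm_pos_iff.2 h) 2
  have h5 := mul_le_mul_of_nonneg_left hr (sq_nonneg ‖l‖)
  nlinarith [mul_pos (sub_pos.2 h3) h4]

theorem loc (hd : Module.finrank ℂ E = Module.finrank ℂ N + 1)
    (hi : ∀ v, al v = 0 → be v = 0 → v = 0) (h : Cht E al be w) {z : X × (P →L[ℂ] ℂ)}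
    (hz : z ∈ Dom al be w) :
    ∃ e : OpenPartialHomeomorph (X × (P →L[ℂ] ℂ)) (N × ℂ × (P →L[ℂ] ℂ)), z ∈ e.source ∧
      EqOn (Phi al be w) e e.source ∧ ∃ L : (N × ℂ × (P →L[ℂ] ℂ)) →L[ℂ] W,
        HasFDerivAt (fun y => w (e.symm y).1) L (Phi al be w z) ∧
        ∀ n : N, be (L (n, 0, 0)) = n ∧ z.2 (al (L (n, 0, 0))) = 0 ∧
          RCS al be (w z.1) (L (n, 0, 0)) := by
  have : CompleteSpace E := FiniteDimensional.complete ℂ E
  have : CompleteSpace (P →L[ℂ] ℂ) := FiniteDimensional.complete ℂ _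
  obtain ⟨x, l⟩ := z
  obtain ⟨e, G, D, hx, hG, hw, -, hD, hr⟩ := h x
  have w0 : w x = G (e x) := hw.self_of_nhds
  let F : E × (P →L[ℂ] ℂ) → N × ℂ × (P →L[ℂ] ℂ) := fun y => (be (G y.1), y.2 (al (G y.1)), y.2)
  let F' : (E × (P →L[ℂ] ℂ)) →L[ℂ] (N × ℂ × (P →L[ℂ] ℂ)) :=
    (be.comp (D.comp (.fst ℂ _ _))).prod
      ((l.comp (al.comp (D.comp (.fst ℂ _ _))) +
        (ContinuousLinearMap.snd ℂ E (P →L[ℂ] ℂ)).flip (al (G (e x)))).prod (.snd ℂ _ _))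
  have hG1 : HasStrictFDerivAt (fun y : E × (P →L[ℂ] ℂ) => G y.1) (D.comp (.fst ℂ _ _))
      (e x, l) := HasStrictFDerivAt.comp (e x, l) hG hasStrictFDerivAt_fst
  have hF : HasStrictFDerivAt F F' (e x, l) :=
    (be.hasStrictFDerivAt.comp _ hG1).prodMk
      ((hasStrictFDerivAt_snd.clm_apply (al.hasStrictFDerivAt.comp _ hG1)).prodMk
        hasStrictFDerivAt_snd)
  have F'a : ∀ v q, F' (v, q) = (be (D v), l (al (D v)) + q (al (G (e x))), q) := fun v q => rfl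
  have inj : Function.Injective F' := by
    refine (injective_iff_map_eq_zero F').2 fun ⟨v, q⟩ hv => ?_
    rw [F'a, Prod.mk_eq_zero, Prod.mk_eq_zero] at hv
    obtain ⟨h1, h2, rfl⟩ := hv
    rw [zero_apply, add_zero] at h2
    have := hi _ (ker_triv hz (hr v) h1 h2) h1
    rw [hD (this.trans (map_zero D).symm)]
    rfl
  let Fe : (E × (P →L[ℂ] ℂ)) ≃L[ℂ] (N × ℂ × (P →L[ℂ] ℂ)) :=
    (LinearMap.linearEquivOfInjective (F' : (E × (P →L[ℂ] ℂ)) →ₗ[ℂ] (N × ℂ × (P →L[ℂ] ℂ))) inj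
      (by simp only [Module.finrank_prod, hd, Module.finrank_self]; ring)).toContinuousLinearEquiv
  have hFe : HasStrictFDerivAt F (Fe : (E × (P →L[ℂ] ℂ)) →L[ℂ] (N × ℂ × (P →L[ℂ] ℂ))) (e x, l) := by
    have : (Fe : (E × (P →L[ℂ] ℂ)) →L[ℂ] (N × ℂ × (P →L[ℂ] ℂ))) = F' :=
      ContinuousLinearMap.ext fun _ => rfl
    rw [this]; exact hF
  let e0 := e.prod (OpenPartialHomeomorph.refl (P →L[ℂ] ℂ))
  let e1 := hFe.toOpenPartialHomeomorph F
  let U : Set (X × (P →L[ℂ] ℂ)) := {z | w z.1 = G (e z.1)}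
  have hU : U ∈ 𝓝 (x, l) := (continuous_fst.tendsto (x, l)).eventually hw
  have hP : Phi al be w (x, l) = F (e x, l) := by simp only [Phi, F, w0]
  refine ⟨(e0.trans e1).restr U, ⟨⟨⟨hx, trivial⟩, hFe.mem_toOpenPartialHomeomorph_source⟩,
    mem_interior_iff_mem_nhds.2 hU⟩, fun z hz => ?_, D.comp ((ContinuousLinearMap.fst ℂ _ _).comp
      (Fe.symm : (N × ℂ × (P →L[ℂ] ℂ)) →L[ℂ] (E × (P →L[ℂ] ℂ)))), ?_, fun n => ?_⟩
  · have : w z.1 = G (e z.1) := interior_subset (s := U) hz.2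
    show (be (w z.1), z.2 (al (w z.1)), z.2) = (be (G (e z.1)), z.2 (al (G (e z.1))), z.2)
    rw [this]
  · rw [hP]
    have h1 := hFe.to_localInverse.hasFDerivAt
    have h2 : hFe.localInverse F Fe (e x, l) (F (e x, l)) = (e x, l) :=
      hFe.localInverse_apply_image
    have h3 := HasFDerivAt.comp (F (e x, l)) (h2.symm ▸ hG1.hasFDerivAt) h1
    refine h3.congr_of_eventuallyEq ?_
    have t1 : Tendsto (fun y => (hFe.localInverse F Fe (e x, l) y).1) (𝓝 (F (e x, l))) (𝓝 (e x)) :=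
      (continuous_fst.tendsto _).comp hFe.localInverse_tendsto
    have t2 := (e.tendsto_symm hx).comp t1
    filter_upwards [t1.eventually (e.open_target.mem_nhds (e.map_source hx)), t2.eventually hw]
      with y a b
    exact b.trans (congrArg G (e.right_inv a))
  · have h1 : F' (Fe.symm (n, 0, 0)) = (n, 0, 0) := Fe.apply_symm_apply _
    generalize hy : Fe.symm (n, 0, 0) = y at h1
    obtain ⟨v, q⟩ := y
    rw [F'a, Prod.mk.injEq, Prod.mk.injEq] at h1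
    obtain ⟨h1, h2, rfl⟩ := h1
    rw [zero_apply, add_zero] at h2
    have : (D.comp ((ContinuousLinearMap.fst ℂ _ _).comp
      (Fe.symm : (N × ℂ × (P →L[ℂ] ℂ)) →L[ℂ] (E × (P →L[ℂ] ℂ))))) (n, 0, 0) = D v := by
      show D (Fe.symm (n, 0, 0)).1 = D v
      rw [hy]
    rw [this]
    exact ⟨h1, h2, hr v⟩

/-- Radial paths lift. -/
theorem radial [T2Space X] (hd : Module.finrank ℂ E = Module.finrank ℂ N + 1)
    (hi : ∀ v, al v = 0 → be v = 0 → v = 0) (h : Cht E al be w) (hc : Cpl al be w)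
    (hp : IsLocalHomeomorph fun z : Dom al be w => Phi al be w z) (x : X)
    (hx : (x, innerSL ℂ (al (w x))) ∈ Dom al be w) :
    ∃ c : ℝ → Dom al be w, ContinuousOn c (Icc 0 1) ∧ c 0 = ⟨_, hx⟩ ∧ ∀ s ∈ Icc (0 : ℝ) 1,
      Phi al be w (c s) = (((1 - s : ℝ) : ℂ) • be (w x), ⟪al (w x), al (w x)⟫_ℂ,
        innerSL ℂ (al (w x))) := by
  set p := al (w x) with hpd
  set b := be (w x) with hbd
  have hb : ‖b‖ < ‖p‖ := by obtain ⟨e, G, D, -, -, -, h1, -⟩ := h x; exact h1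
  have hp0 : 0 < ‖p‖ := (norm_nonneg _).trans_lt hb
  have pp : ‖⟪p, p⟫_ℂ‖ = ‖p‖ ^ 2 := by rw [inner_self_eq_norm_sq_to_K]; simp
  let γ : ℝ → N × ℂ × (P →L[ℂ] ℂ) := fun s => (((1 - s : ℝ) : ℂ) • b, ⟪p, p⟫_ℂ, innerSL ℂ p)
  have γd : ∀ s, HasDerivAt γ (-b, 0, 0) s := fun s => by
    refine HasDerivAt.prodMk ?_ ((hasDerivAt_const _ _).prodMk (hasDerivAt_const _ _))
    simpa using (((hasDerivAt_id s).const_sub 1).ofReal_comp).smul_const b
  have γc : Continuous γ := continuous_iff_continuousAt.2 fun s => (γd s).continuousAt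
  refine lift_ex (γ := γ) hp γc (by simp [γ, Phi, hpd, hbd]) fun T hT c c1 c0 c2 => ?_
  have cb : ∀ s ∈ Ico 0 T, be (w (c s).1.1) = ((1 - s : ℝ) : ℂ) • b := fun s hs =>
    congrArg Prod.fst (c2 s hs)
  have cl : ∀ s ∈ Ico 0 T, (c s).1.2 = innerSL ℂ p := fun s hs => congrArg (·.2.2) (c2 s hs)
  have ca : ∀ s ∈ Ico 0 T, ⟪p, al (w (c s).1.1)⟫_ℂ = ⟪p, p⟫_ℂ := fun s hs => by
    have : (c s).1.2 (al (w (c s).1.1)) = ⟪p, p⟫_ℂ := congrArg (·.2.1) (c2 s hs)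
    rwa [cl s hs] at this
  have nb : ∀ s : ℝ, 0 ≤ s → s ≤ 1 → ‖((1 - s : ℝ) : ℂ) • b‖ ≤ ‖b‖ := fun s h1 h2 => by
    rw [norm_smul, Complex.norm_real, Real.norm_eq_abs, abs_of_nonneg (by linarith)]
    nlinarith [norm_nonneg b]
  have cb' : ∀ s ∈ Ico 0 T, ‖be (w (c s).1.1)‖ ≤ ‖b‖ := fun s hs => by
    rw [cb s hs]; exact nb s hs.1 (hs.2.le.trans hT.2)
  have ca' : ∀ s ∈ Ico 0 T, ‖p‖ ≤ ‖al (w (c s).1.1)‖ := fun s hs => by
    have := norm_inner_le_norm (𝕜 := ℂ) p (al (w (c s).1.1))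
    rw [ca s hs, pp, sq] at this
    exact le_of_mul_le_mul_left this hp0
  have hε : 0 < ‖p‖ ^ 2 - ‖b‖ ^ 2 := sub_pos.2 (pow_lt_pow_left₀ hb (norm_nonneg _) two_ne_zero)
  obtain ⟨K, hK, sp⟩ := speed ‖b‖ _ (norm_nonneg _) hε
  have c3 : ContinuousOn (fun s => (c s).1) (Ico 0 T) := continuous_subtype_val.comp_continuousOn c1
  have der : ∀ s ∈ Ico 0 T, ∃ v, HasDerivWithinAt (fun t => w (c t).1.1) v (Ici s) s ∧
      be v = -b ∧ ‖al v‖ ≤ K * ‖al (w (c s).1.1)‖ + K := fun s hs => by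
    obtain ⟨e, he, heq, L, hL, hn⟩ := loc hd hi h (c s).2
    obtain ⟨h1, h2, h3⟩ := hn (-b)
    refine ⟨L (-b, 0, 0), ?_, h1, ?_⟩
    · rw [show Phi al be w (c s).1 = γ s from c2 s hs] at hL
      have h4 := ((hL.restrictScalars ℝ).comp_hasDerivAt s (γd s)).hasDerivWithinAt (s := Ici s)
      have hm : Ico 0 T ∈ 𝓝[≥] s := mem_of_superset (Ico_mem_nhdsGE hs.2)
        (Ico_subset_Ico_left hs.1)
      have h5 : ∀ᶠ t in 𝓝[≥] s, (c t).1 ∈ e.source :=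
        ((c3 s hs).mono_of_mem_nhdsWithin hm).eventually (e.open_source.mem_nhds he)
      have h6 : ∀ᶠ t in 𝓝[≥] s, w (c t).1.1 = w (e.symm (γ t)).1 := by
        filter_upwards [h5, hm] with t a a'
        rw [← show Phi al be w (c t).1 = γ t from c2 t a', heq a, e.left_inv a]
      exact h4.congr_of_eventuallyEq h6 (h6.self_of_nhdsWithin self_mem_Ici)
    · rw [cl s hs] at h2
      set a := al (w (c s).1.1)
      set t := al (L (-b, 0, 0))
      have k1 := bessel (a := a) (show ⟪p, t⟫_ℂ = 0 from h2)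
      rw [ca s hs, pp] at k1
      have k0 : 0 ≤ ‖a‖ ^ 2 - ‖p‖ ^ 2 :=
        sub_nonneg.2 (pow_le_pow_left₀ (norm_nonneg _) (ca' s hs) 2)
      have k2 : ‖⟪a, t⟫_ℂ‖ ≤ √(‖a‖ ^ 2 - ‖p‖ ^ 2) * ‖t‖ := by
        refine abs_le_of_sq_le_sq' ?_ (by positivity) |>.2
        rw [mul_pow, Real.sq_sqrt k0]
        refine le_of_mul_le_mul_left ?_ (pow_pos hp0 2)
        linarith
      have k3 : ‖⟪be (w (c s).1.1), -b⟫_ℂ‖ ≤ ‖b‖ ^ 2 := by
        refine (norm_inner_le_norm _ _).trans ?_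
        rw [norm_neg, sq]
        exact mul_le_mul_of_nonneg_right (cb' s hs) (norm_nonneg _)
      refine sp √(‖a‖ ^ 2 - ‖p‖ ^ 2) ‖t‖ ‖a‖ (‖a‖ ^ 2 - ‖be (w (c s).1.1)‖ ^ 2) (Real.sqrt_nonneg _)
        (Real.sqrt_le_iff.2 ⟨norm_nonneg _, by nlinarith [sq_nonneg ‖p‖]⟩) (norm_nonneg _) ?_ ?_
      · rw [Real.sq_sqrt k0]
        linarith [pow_le_pow_left₀ (norm_nonneg _) (cb' s hs) 2]
      · rw [RCS, h1, norm_neg] at h3
        refine h3.trans (pow_le_pow_left₀ (norm_nonneg _) ((norm_sub_le _ _).trans ?_) 2)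
        exact add_le_add k2 k3
  choose! v v1 v2 v3 using der
  have wc : ContinuousOn (fun t => w (c t).1.1) (Ico 0 T) :=
    h.cont.comp_continuousOn (continuous_fst.comp_continuousOn c3)
  have gr : ∀ s ∈ Ico 0 T, ‖al (w (c s).1.1)‖ ≤ gronwallBound ‖p‖ K K 1 := fun s hs => by
    have := norm_le_gronwallBound_of_norm_deriv_right_le (f := fun t => al (w (c t).1.1))
      (f' := fun t => al (v t)) (δ := ‖p‖) (K := K) (ε := K) (a := 0) (b := s)
      (al.continuous.comp_continuousOn (wc.mono fun t ht => ⟨ht.1, ht.2.trans_lt hs.2⟩))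
      (fun t ht => (al.restrictScalars ℝ).hasFDerivAt.comp_hasDerivWithinAt t
        (v1 t ⟨ht.1, ht.2.trans hs.2⟩)) (by simp only [c0]; exact le_rfl)
      (fun t ht => v3 t ⟨ht.1, ht.2.trans hs.2⟩) s ⟨hs.1, le_rfl⟩
    refine this.trans (gronwallBound_mono hp0.le hK hK ?_)
    linarith [hs.2, hT.2]
  obtain ⟨C, -, hC⟩ := LinearMap.exists_antilipschitzWith ((al.prod be : W →L[ℂ] P × N) :
    W →ₗ[ℂ] P × N) (LinearMap.ker_eq_bot'.2 fun u hu =>
      hi u (congrArg Prod.fst hu) (congrArg Prod.snd hu))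
  obtain ⟨y, hy⟩ := hc (fun t => (c t).1.1) T
    (C * max (K * gronwallBound ‖p‖ K K 1 + K) ‖b‖) _ hT.1 hε
    (continuous_fst.comp_continuousOn c3) (fun s hs => ⟨v s, v1 s hs, by
      refine (hC.le_mul_norm (map_zero _) (v s)).trans (mul_le_mul_of_nonneg_left ?_ C.2)
      show max ‖al (v s)‖ ‖be (v s)‖ ≤ _
      rw [v2 s hs, norm_neg]
      exact max_le_max ((v3 s hs).trans (by gcongr; exact gr s hs)) le_rfl⟩)
    (fun s hs => sub_le_sub (pow_le_pow_left₀ (norm_nonneg _) (ca' s hs) 2)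
      (pow_le_pow_left₀ (norm_nonneg _) (cb' s hs) 2))
  have hm := Ico_mem_nhdsLT hT.1
  have tw := (h.cont.tendsto y).comp hy
  have y1 : ‖be (w y)‖ ≤ ‖b‖ := le_of_tendsto ((be.continuous.tendsto _).comp tw).norm
    (mem_of_superset hm cb')
  have y2 : ⟪p, al (w y)⟫_ℂ = ⟪p, p⟫_ℂ := tendsto_nhds_unique
    (((innerSL ℂ p).continuous.tendsto _).comp ((al.continuous.tendsto _).comp tw))
    (tendsto_const_nhds.congr' (mem_of_superset hm fun s hs => (ca s hs).symm))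
  refine ⟨⟨(y, innerSL ℂ p), ?_⟩, tendsto_subtype_rng.2 ?_⟩
  · show ‖innerSL ℂ p‖ * ‖be (w y)‖ < ‖⟪p, al (w y)⟫_ℂ‖
    rw [innerSL_apply_norm, y2, pp, sq]
    exact mul_lt_mul_of_pos_left (y1.trans_lt hb) hp0
  · exact hy.prodMk_nhds (tendsto_const_nhds.congr' (mem_of_superset hm fun s hs => (cl s hs).symm))

/-- The graph theorem. -/
theorem graph [T2Space X] (hd : Module.finrank ℂ E = Module.finrank ℂ N + 1)
    (hi : ∀ v, al v = 0 → be v = 0 → v = 0) (h : Cht E al be w) (hc : Cpl al be w) {x0 x1 : X}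
    (h0 : be (w x0) = 0) (h1 : be (w x1) = 0) (hj : Joined x0 x1) :
    JoinedIn {x | be (w x) = 0} x0 x1 := by
  have wc := h.cont
  have ho : IsOpen (Dom al be w) := isOpen_lt (by fun_prop) (by fun_prop)
  have hp : IsLocalHomeomorph fun z : Dom al be w => Phi al be w z :=
    isLocalHomeomorph_iff_isLocalHomeomorphOn_univ.2
      ((IsLocalHomeomorphOn.mk (Phi al be w) _ fun z hz => by
        obtain ⟨e, a, b, -⟩ := loc hd hi h hz
        exact ⟨e, a, b⟩).comp ho.isOpenEmbedding_subtypeVal.isLocalHomeomorph.isLocalHomeomorphOn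
          fun z _ => z.2)
  have hx : ∀ x, (x, innerSL ℂ (al (w x))) ∈ Dom al be w := fun x => by
    obtain ⟨e, G, D, -, -, -, h1, -⟩ := h x
    show ‖innerSL ℂ (al (w x))‖ * ‖be (w x)‖ < ‖⟪al (w x), al (w x)⟫_ℂ‖
    rw [innerSL_apply_norm, inner_self_eq_norm_sq_to_K]
    simpa [sq] using mul_lt_mul_of_pos_left h1 ((norm_nonneg _).trans_lt h1)
  choose c c1 c0 c2 using fun x => radial hd hi h hc hp x (hx x)
  have sep : IsSeparatedMap fun z : Dom al be w => Phi al be w z := T2Space.isSeparatedMap _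
  have fix : ∀ x, be (w x) = 0 → c x 1 = ⟨_, hx x⟩ := fun x hb =>
    sep.eqOn_of_comp_eqOn hp.isLocallyInjective isPreconnected_Icc (c1 x)
      (continuousOn_const (c := (⟨_, hx x⟩ : Dom al be w)))
      (fun s hs => (c2 x s hs).trans (by simp [Phi, hb])) ⟨le_rfl, zero_le_one⟩ (c0 x)
      ⟨zero_le_one, le_rfl⟩
  obtain ⟨δ⟩ := hj
  have hg := hp.continuous_lift sep (A := I)
    ⟨fun y => ((((1 - y.1 : ℝ) : ℂ)) • be (w (δ y.2)), ⟪al (w (δ y.2)), al (w (δ y.2))⟫_ℂ,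
      innerSL ℂ (al (w (δ y.2)))), by fun_prop⟩ (g := fun y => c (δ y.2) y.1)
    (funext fun y => c2 _ _ y.1.2)
    (by simp only [Icc.coe_zero, c0]; fun_prop)
    (fun a => (c1 (δ a)).domRestrict)
  refine ⟨⟨⟨fun u => (c (δ u) 1).1.1, ?_⟩, by simp [fix x0 h0], by simp [fix x1 h1]⟩, fun u => ?_⟩
  · exact continuous_fst.comp (continuous_subtype_val.comp (hg.comp (.prodMk_right 1)))
  · simpa [Phi] using congrArg Prod.fst (c2 (δ u) 1 ⟨zero_le_one, le_rfl⟩)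

end Pool.Agent.BP.F.Gr
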