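import Pool.Agent.Lib.MP_0c623d_al.F.Eul
import Pool.Agent.Lib.MP_0c623d_al.F.Wall

/-! Block F: the developing map is given by the chart function near every point. -/

namespace Pool.Agent.BP.F

open Complex Set Filter Topology Matrix

variable {k : ℕ} {H : Type} [Group H]

open Classical in
/-- Is `u ^ k` lexicographically negative. -/
noncomputable def ngt (k : ℕ) (u : ℂ) : Bool := decide (¬ LexNN (u ^ k))

theorem sec_turn (hk : k ≠ 0) {u : ℂ} (h0 : u ≠ 0) :
    om k ^ (2 * jj k u + if ngt k u then 1 else 0) * u ≠ 0 ∧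
      |arg (om k ^ (2 * jj k u + if ngt k u then 1 else 0) * u)| < Real.pi / k := by
  have hk' : (0 : ℝ) < k := by exact_mod_cast Nat.pos_of_ne_zero hk
  have hk'' : (k : ℂ) ≠ 0 := Nat.cast_ne_zero.2 hk
  have pp := Real.pi_pos
  have r0 : 0 < ‖u‖ := norm_pos_iff.2 h0
  set j := jj k u with hj
  set φ : ℝ := k * arg u - 2 * Real.pi * j with hφ
  have b1 : -(Real.pi / 2) < φ := by
    have := Int.ceil_lt_add_one ((k : ℝ) * arg u / (2 * Real.pi) - 3 / 4)
    change ((jj k u : ℤ) : ℝ) < _ at this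
    rw [← hj] at this
    have h2 : (j : ℝ) - 1 / 4 < k * arg u / (2 * Real.pi) := by linarith
    rw [lt_div_iff₀ (by positivity)] at h2
    nlinarith
  have b2 : φ ≤ Real.pi + Real.pi / 2 := by
    have := Int.le_ceil ((k : ℝ) * arg u / (2 * Real.pi) - 3 / 4)
    change _ ≤ ((jj k u : ℤ) : ℝ) at this
    rw [← hj] at this
    have h2 : k * arg u / (2 * Real.pi) ≤ (j : ℝ) + 3 / 4 := by linarith
    rw [div_le_iff₀ (by positivity)] at h2
    nlinarith
  have e1 : u ^ k = ((‖u‖ ^ k : ℝ) : ℂ) * exp ((φ : ℂ) * I) := by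
    conv_lhs => rw [← norm_mul_exp_arg_mul_I u]
    rw [mul_pow, ← Complex.exp_nat_mul]
    have : (k : ℂ) * (arg u * I) = φ * I + j * (2 * Real.pi * I) := by
      rw [hφ]; push_cast; ring
    rw [this, Complex.exp_add, exp_int_mul_two_pi_mul_I]
    push_cast
    ring
  have e2 : ∀ e : ℤ, om k ^ (2 * j + e) * u =
      (‖u‖ : ℂ) * exp ((((φ - e * Real.pi) / k : ℝ) : ℂ) * I) := fun e => by
    conv_lhs => rw [← norm_mul_exp_arg_mul_I u]
    rw [om, ← Complex.exp_int_mul, mul_left_comm, ← Complex.exp_add]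
    congr 2
    rw [hφ]
    push_cast
    field_simp
    ring
  have rk : 0 < ‖u‖ ^ k := pow_pos r0 k
  rw [e2]
  refine ray_sec hk r0 ?_
  rw [abs_div, abs_of_pos hk']
  refine div_lt_div_of_pos_right ?_ hk'
  by_cases h : LexNN (u ^ k)
  · simp only [ngt, h, not_true, decide_false, Bool.false_eq_true, if_false, Int.cast_zero,
      zero_mul, sub_zero]
    refine abs_lt.2 ⟨by linarith, lt_of_not_ge fun g => ?_⟩
    have c1 : Real.cos φ ≤ 0 := Real.cos_nonpos_of_pi_div_two_le_of_le (by linarith) b2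
    have c2 : Real.sin φ ≤ 0 := by
      have := Real.sin_nonneg_of_nonneg_of_le_pi (x := φ - Real.pi) (by linarith) (by linarith)
      rw [Real.sin_sub_pi] at this
      linarith
    rw [e1] at h
    simp only [LexNN, re_ofReal_mul, im_ofReal_mul, exp_ofReal_mul_I_re, exp_ofReal_mul_I_im] at h
    rcases h with h | ⟨h, h'⟩
    · nlinarith
    · have c3 : Real.cos φ = 0 := (mul_eq_zero.1 h).resolve_left rk.ne'
      have c4 : Real.sin φ = 0 := le_antisymm c2 (by nlinarith)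
      have := Real.sin_sq_add_cos_sq φ
      rw [c3, c4] at this
      norm_num at this
  · simp only [ngt, h, not_false_iff, decide_true, if_true, Int.cast_one, one_mul]
    refine abs_lt.2 ⟨lt_of_not_ge fun g => h ?_, by linarith⟩
    rw [e1]
    left
    rw [re_ofReal_mul, exp_ofReal_mul_I_re]
    exact mul_pos rk (Real.cos_pos_of_mem_Ioo ⟨b1, by linarith⟩)

theorem pow_toNat_mod {G : Type} [Group G] {x : G} {m : ℕ} (hm : m ≠ 0) (h : x ^ m = 1) (N : ℤ) :
    x ^ (N % m).toNat = x ^ N := by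
  rw [← _root_.zpow_natCast, Int.toNat_of_nonneg (Int.emod_nonneg _ (by exact_mod_cast hm))]
  conv_rhs => rw [← Int.emod_add_mul_ediv N m, _root_.zpow_add, _root_.zpow_mul, _root_.zpow_natCast, h, _root_.one_zpow,
    mul_one]

theorem om_toNat_mod (hk : k ≠ 0) (N : ℤ) : om k ^ (N % (2 * k : ℕ)).toNat = om k ^ N := by
  have hm : 2 * k ≠ 0 := by omega
  rw [← _root_.zpow_natCast, Int.toNat_of_nonneg (Int.emod_nonneg _ (by exact_mod_cast hm))]
  conv_rhs => rw [← Int.emod_add_mul_ediv N (2 * k : ℕ), zpow_add₀ om_ne, _root_.zpow_mul, _root_.zpow_natCast,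
    om_pow_two hk, _root_.one_zpow, mul_one]

/-- Product of the selected generators. -/
def sel {G : Type} [Group G] (s : Fin 3 → G) (f : Fin 3 → Bool) : G :=
  (if f 0 then s 0 else 1) * (if f 1 then s 1 else 1) * (if f 2 then s 2 else 1)

/-- No two neighbouring positions are selected. -/
def NAdj (f : Fin 3 → Bool) : Prop := ¬ (f 0 = true ∧ f 1 = true) ∧ ¬ (f 1 = true ∧ f 2 = true)

instance (f : Fin 3 → Bool) : Decidable (NAdj f) := by unfold NAdj; infer_instance

theorem sel_cases : ∀ f : Fin 3 → Bool, NAdj f → ∀ x y : Fin 4, x < y →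
    (sel sw f x < sel sw f y ∧
      ∀ p : Fin 3, sel sw f x = p.castSucc → sel sw f y = p.succ → f p = false) ∨
    ∃ p : Fin 3, f p = true ∧ sel sw f x = p.succ ∧ sel sw f y = p.castSucc := by
  decide +kernel

theorem sel_nest : ∀ f : Fin 3 → Bool, NAdj f → ∀ v : P4,
    (∀ p : Fin 3, f p = true → v⁻¹ p.succ < v⁻¹ p.castSucc) →
    Nest (sel sw f) ((sel sw f)⁻¹ * v) := by
  decide +kernel

theorem r_sel {G : Type} [Group G] {s : Fin 3 → G} (hs : Br s) {f : Fin 3 → Bool} (hf : NAdj f) :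
    r s (sel sw f) = sel s f := by
  obtain ⟨h1, h2⟩ := hf
  unfold sel
  cases a : f 0 <;> cases b : f 1 <;> cases c : f 2 <;> simp_all [r_one, r_sw]
  rw [r_mul_sw hs (by decide +kernel), r_sw]

theorem Sz_sel {G : Type} [Group G] {s : Fin 3 → G} (hs : s 0 * s 2 = s 2 * s 0)
    (j : Fin 3 → ℤ) (f : Fin 3 → Bool)
    (h : (j 1 = 0 ∧ f 1 = false) ∨ (j 0 = 0 ∧ f 0 = false ∧ j 2 = 0 ∧ f 2 = false)) :
    Sz s (fun p => 2 * j p + if f p then 1 else 0) = Sz s (fun p => 2 * j p) * sel s f := by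
  have c : Commute (s 0) (s 2) := hs
  unfold Sz sel
  rcases h with ⟨a, b⟩ | ⟨a, b, c, d⟩
  · simp only [a, b, mul_zero, Bool.false_eq_true, if_false, add_zero, _root_.zpow_zero, mul_one,
      _root_.zpow_add]
    cases f 0 <;> cases f 2 <;>
      simp [mul_assoc, ← mul_assoc (s 0), (c.zpow_right _).eq]
  · simp only [a, b, c, d, mul_zero, Bool.false_eq_true, if_false, add_zero, _root_.zpow_zero, mul_one,
      one_mul, _root_.zpow_add]
    cases f 1 <;> simp

/-- No collision. -/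
def Conf (y : Y k) : Prop := ∀ i j, i ≠ j → y.1 i j ≠ 0

theorem G_conf (hk : Odd k) (A : AN k) {y : Y k} (h : Conf y) :
    cfg (dd y) ∈ Om ∧ A.G (dd y) (dd y) = A.W (cfg (dd y)) := by
  have n : ∀ p, dd y p ≠ 0 := fun p e =>
    h _ _ ((sg y).injective.ne Fin.castSucc_lt_succ.ne) ((dd_eq_zero hk y p).1 e)
  have s : Sect k (dd y) (dd y) := fun p e => (n p e).elim
  have a := (om_ev hk.pos.ne' (adm_dd hk y)).self_of_nhds s
  have b := (A.G_spec (adm_dd hk y)).2.1.self_of_nhds s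
  rw [pw_self hk.pos.ne'] at a b
  exact ⟨a, b⟩

theorem loc_conf (hk : Odd k) (A : AN k) (L : Lab k H) (ρ : H →* Matˣ) (hR : A.Rep L.s ρ)
    (y : Y k) : ∀ᶠ y' in 𝓝 y, Conf y' →
      (ρ (L.bb y y') : Mat) *ᵥ A.G (dd y') (dd y') = A.G (dd y) (zeta y y') := by
  have k0 : k ≠ 0 := hk.pos.ne'
  have hm : 2 * k ≠ 0 := by omega
  have hd := adm_dd hk y
  have hG := A.G_spec hd
  have t : Tendsto (zeta y) (𝓝 y) (𝓝 (dd y)) := by
    simpa only [ContinuousAt, zeta_self hk] using (cont_zeta y).continuousAt (x := y)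
  have m : ∀ᶠ ζ in 𝓝 (dd y), ∀ n : Fin 3 → Fin (2 * k), (∀ p, dd y p = 0 ∨ (n p : ℕ) = 0) →
      Sect k (dd y) (fun p => om k ^ (n p : ℕ) * ζ p) →
      A.G (dd y) ζ = (A.R 0 ^ (n 0 : ℕ) * A.R 1 ^ (n 1 : ℕ) * A.R 2 ^ (n 2 : ℕ)) *ᵥ
        A.W (cfg (pw k (dd y) ζ) ∘
          (sw 0 ^ (n 0 : ℕ) * sw 1 ^ (n 1 : ℕ) * sw 2 ^ (n 2 : ℕ) : P4)) := by
    refine eventually_all.2 fun n => ?_
    by_cases hn : ∀ p, dd y p = 0 ∨ (n p : ℕ) = 0
    · exact (rot_main k0 A hd hG (fun p => n p) hn).mono fun ζ a _ => a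
    · exact Eventually.of_forall fun ζ a => (hn a).elim
  filter_upwards [t.eventually m, ev_lt y] with y' hm' hl hc
  set f : Fin 3 → Bool := fun p => decide (dd y p = 0) && ngt k (rt y y' p) with hf
  set N : Fin 3 → ℤ := fun p => 2 * jv y y' p + if f p then 1 else 0 with hN
  have f1 : ∀ p, dd y p ≠ 0 → jv y y' p = 0 ∧ f p = false := fun p h => by simp [jv, hf, h]
  have f2 : ∀ p, f p = true → dd y p = 0 ∧ ¬ LexNN (rt y y' p ^ k) := fun p h => by
    simpa [hf, ngt] using h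
  have f3 : ∀ p, f p = false → dd y p = 0 → LexNN (rt y y' p ^ k) := fun p h e => by
    simpa [hf, ngt, e] using h
  have na : NAdj f := ⟨fun h => hd.2.1 ⟨(f2 0 h.1).1, (f2 1 h.2).1⟩,
    fun h => hd.2.2 ⟨(f2 1 h.1).1, (f2 2 h.2).1⟩⟩
  have sp : (jv y y' 1 = 0 ∧ f 1 = false) ∨
      (jv y y' 0 = 0 ∧ f 0 = false ∧ jv y y' 2 = 0 ∧ f 2 = false) := by
    by_cases h : dd y 1 = 0
    · have a := f1 0 fun e => hd.2.1 ⟨e, h⟩
      have b := f1 2 fun e => hd.2.2 ⟨h, e⟩
      exact Or.inr ⟨a.1, a.2, b.1, b.2⟩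
    · exact Or.inl (f1 1 h)
  have lt : ∀ p, (N p % (2 * k : ℕ)).toNat < 2 * k := fun p => by
    have h1 := Int.emod_nonneg (N p) (b := (2 * k : ℕ)) (by exact_mod_cast hm)
    have h2 := Int.emod_lt_of_pos (N p) (b := (2 * k : ℕ)) (by omega)
    omega
  have key := hm' (fun p => ⟨_, lt p⟩) (fun p => by
    by_cases h : dd y p = 0
    · exact Or.inl h
    · simp [hN, (f1 p h).1, (f1 p h).2]) (fun p h => by
    have := sec_turn k0 (u := rt y y' p)
      (hc _ _ ((sg y).injective.ne Fin.castSucc_lt_succ.ne))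
    simpa only [om_toNat_mod k0, hN, jv, hf, zeta, h, if_true, decide_true, Bool.true_and]
      using this)
  have s2 : ∀ q, sw q ^ (2 * k) = 1 := fun q => by rw [pow_mul, sq, sw_sw, one_pow]
  have s3 : ∀ (q : Fin 3) (j : ℤ), sw q ^ (2 * j) = 1 := fun q j => by
    rw [_root_.zpow_mul, zpow_two, sw_sw, _root_.one_zpow]
  have e1 : (sw 0 ^ (N 0 % (2 * k : ℕ)).toNat * sw 1 ^ (N 1 % (2 * k : ℕ)).toNat *
      sw 2 ^ (N 2 % (2 * k : ℕ)).toNat : P4) = sel sw f := by
    rw [pow_toNat_mod hm (s2 0), pow_toNat_mod hm (s2 1), pow_toNat_mod hm (s2 2)]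
    have := Sz_sel (s := sw) br_sw.b02 (jv y y') f sp
    simpa only [Sz, s3, one_mul] using this
  have e2 : A.R 0 ^ (N 0 % (2 * k : ℕ)).toNat * A.R 1 ^ (N 1 % (2 * k : ℕ)).toNat *
      A.R 2 ^ (N 2 % (2 * k : ℕ)).toNat =
        (ρ (Sz L.s (fun p => 2 * jv y y' p) * sel L.s f) : Mat) := by
    rw [← Sz_sel L.br.b02 (jv y y') f sp, ← hR 0, ← hR 1, ← hR 2]
    simp only [← Units.val_pow_eq_pow_val, ← map_pow, ← Units.val_mul, ← map_mul,
      pow_toNat_mod hm (L.ord _)]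
    rfl
  simp only [e1, e2] at key
  set σ := sg y with hσ
  set σ' := sg y' with hσ'
  set τ := sel sw f with hτ
  have ps : ∀ x, cfg (pw k (dd y) (zeta y y')) x = pos y' (σ x) - pos y' (σ 0) := fun x =>
    eq_sub_of_add_eq (congrFun (pos_sg y y') x).symm
  have ne' : ∀ i j, i ≠ j → pos y' i ≠ pos y' j := fun i j h e => hc i j h ((pos_eq_iff hk _ _ _).1 e)
  have ord : ∀ i j, i ≠ j → (σ'⁻¹ i < σ'⁻¹ j ↔ LexNN (pos y' j - pos y' i)) := fun i j h => by
    rw [hσ', sg, srt_lt]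
    exact ⟨fun a => a.elim And.left fun b => (ne' i j h b.1).elim,
      fun a => Or.inl ⟨a, sub_ne_zero.2 (ne' i j h).symm⟩⟩
  have cs : ∀ p : Fin 3, σ p.castSucc ≠ σ p.succ := fun p =>
    σ.injective.ne Fin.castSucc_lt_succ.ne
  have inv : ∀ p : Fin 3, f p = true → σ'⁻¹ (σ p.succ) < σ'⁻¹ (σ p.castSucc) := fun p h => by
    refine lt_of_le_of_ne (not_lt.1 fun a => (f2 p h).2 ?_) (σ'⁻¹.injective.ne (cs p).symm)
    rw [rt_pow]
    exact (ord _ _ (cs p)).1 a
  have nest := sel_nest f na (σ⁻¹ * σ') fun p h => by simpa using inv p h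
  have w := wlift A L.br hR (cfg (pw k (dd y) (zeta y y')) ∘ τ) (τ⁻¹ * (σ⁻¹ * σ'))
    (fun x z hxz h => by
      have h' : σ'⁻¹ (σ (τ z)) < σ'⁻¹ (σ (τ x)) := by simpa using h
      have nz : σ (τ x) ≠ σ (τ z) := σ.injective.ne (τ.injective.ne hxz.ne)
      simp only [Function.comp, ps, sub_im, sub_lt_sub_iff_right]
      rcases sel_cases f na x z hxz with ⟨a, b⟩ | ⟨p, a, b, c⟩
      · by_cases e : pos y (σ (τ x)) = pos y (σ (τ z))
        · obtain ⟨p, p1, p2⟩ := srt_adj (noTriple_pos hk y) (i := σ (τ x)) (j := σ (τ z))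
            (by change σ⁻¹ _ < σ⁻¹ _; simpa using a) e
          have q1 : τ x = p.castSucc := σ.injective p1
          have q2 : τ z = p.succ := σ.injective p2
          have := f3 p (b p q1 q2) ((dd_eq_zero' y p).2 (by rw [← hσ, ← q1, ← q2]; exact e))
          rw [rt_pow, ← hσ, ← q1, ← q2] at this
          exact absurd ((ord _ _ nz).2 this) (not_lt.2 h'.le)
        · rcases sg_lexNN y a.le with g | ⟨g, g'⟩
          · have := (hl (σ (τ x)) (σ (τ z))).1 (by simpa using g)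
            exact absurd (srt_lt_of_re this) (not_lt.2 h'.le)
          · refine (hl (σ (τ x)) (σ (τ z))).2 (lt_of_le_of_ne (by simpa using g') fun c => e ?_)
            rw [sub_re, sub_eq_zero] at g
            exact Complex.ext g.symm c
      · have := inv p a
        rw [← b, ← c] at this
        exact absurd this (not_lt.2 h'.le))
    (fun x z hxz h => by
      have h' : σ'⁻¹ (σ (τ x)) < σ'⁻¹ (σ (τ z)) := by simpa using h
      have nz : σ (τ x) ≠ σ (τ z) := σ.injective.ne (τ.injective.ne hxz.ne)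
      simp only [Function.comp, ps, sub_sub_sub_cancel_right]
      exact lex_slit ((ord _ _ nz).1 h') (sub_ne_zero.2 (ne' _ _ nz).symm))
  have e3 : (cfg (pw k (dd y) (zeta y y')) ∘ τ) ∘ (τ⁻¹ * (σ⁻¹ * σ') : P4) =
      fun i => cfg (dd y') i + (pos y' (σ' 0) - pos y' (σ 0)) := by
    funext i
    have := congrFun (pos_sg_self y') i
    simp only [Function.comp, ← hσ'] at this
    simp only [Function.comp, ps, Equiv.Perm.mul_apply, Equiv.Perm.coe_inv,
      Equiv.apply_symm_apply, this]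
    ring
  have g := G_conf hk A hc
  rw [e3, A.transl _ g.1, ← g.2] at w
  rw [key, w, mulVec_mulVec, ← Units.val_mul, ← map_mul, mul_assoc, ← r_sel L.br na,
    ← r_mul L.br nest, mul_inv_cancel_left]
  rfl

theorem conf_dense (hk : Odd k) (hY : ChartY k) (y : Y k) :
    ∃ f : ℝ → Y k, Tendsto f (𝓝[>] 0) (𝓝 y) ∧ ∀ᶠ ε in 𝓝[>] 0, Conf (f ε) := by
  obtain ⟨e, e1, e2⟩ := hY y
  have ey : e y = dd y := by rw [e2, zeta_self hk]
  have t := ray_tendsto (k := k) (dd y)
  refine ⟨fun ε => e.symm (ray k (dd y) ε), ?_, ?_⟩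
  · have := (e.tendsto_symm e1)
    rw [ey] at this
    exact this.comp t
  · filter_upwards [t.eventually (e.open_target.mem_nhds (ey ▸ e.map_source e1)),
      self_mem_nhdsWithin] with ε a hε
    have z : zeta y (e.symm (ray k (dd y) ε)) = ray k (dd y) ε := by rw [← e2, e.right_inv a]
    have c := cfg_mem_Ch (ray_re hk.pos.ne' (adm_dd hk y) hε)
    have ps := pos_sg y (e.symm (ray k (dd y) ε))
    rw [z] at ps
    intro i j hij h
    have h' := (pos_eq_iff hk _ _ _).2 h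
    obtain ⟨i, rfl⟩ := (sg y).surjective i
    obtain ⟨j, rfl⟩ := (sg y).surjective j
    have h2 : cfg (pw k (dd y) (ray k (dd y) ε)) i = cfg (pw k (dd y) (ray k (dd y) ε)) j :=
      add_right_cancel ((congrFun ps i).symm.trans (h'.trans (congrFun ps j)))
    rcases lt_trichotomy i j with g | g | g
    · exact (c i j g).ne (congrArg re h2)
    · exact hij (congrArg _ g)
    · exact (c j i g).ne' (congrArg re h2)

theorem loc (hk : Odd k) (A : AN k) (L : Lab k H) (ρ : H →* Matˣ) (hR : A.Rep L.s ρ)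
    (hc : Coc L.bb) (hY : ChartY k) : A.Loc L ρ := by
  intro y
  have t : ∀ y : Y k, Tendsto (zeta y) (𝓝 y) (𝓝 (dd y)) := fun y => by
    simpa only [ContinuousAt, zeta_self hk] using (cont_zeta y).continuousAt (x := y)
  filter_upwards [(loc_conf hk A L ρ hR y).eventually_nhds, hc.2 y,
    (t y).eventually (A.G_spec (adm_dd hk y)).1.eventually_analyticAt] with y' a b c
  obtain ⟨f, f1, f2⟩ := conf_dense hk hY y'
  have l1 : Tendsto (fun ε => (ρ (L.bb y y') : Mat) *ᵥ A.G (dd y') (zeta y' (f ε))) (𝓝[>] 0)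
      (𝓝 ((ρ (L.bb y y') : Mat) *ᵥ A.G (dd y') (dd y'))) :=
    ((analytic_mulVec _ (A.G_spec (adm_dd hk y')).1).continuousAt.tendsto.comp (t y')).comp f1
  have l2 : Tendsto (fun ε => A.G (dd y) (zeta y (f ε))) (𝓝[>] 0)
      (𝓝 (A.G (dd y) (zeta y y'))) :=
    (c.continuousAt.tendsto.comp ((cont_zeta y).tendsto y')).comp f1
  refine tendsto_nhds_unique_of_eventuallyEq l1 l2 ?_
  filter_upwards [f1.eventually a, f1.eventually b, f1.eventually (loc_conf hk A L ρ hR y'), f2]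
    with ε a' b' c' d'
  rw [← a' d', ← c' d', b', mulVec_mulVec, map_mul, Units.val_mul]

theorem relStmt : RelStmt := fun k hk A => by
  refine ⟨rel01 A, rel12 A, rel02 A, fun p => ?_⟩
  obtain ⟨b, hb, h⟩ := ord_ev hk.pos.ne' A p
  exact sub_eq_zero.1 (mat_zero A _ hb h)

end Pool.Agent.BP.F
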