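import Pool.Agent.Lib.MP_0c623d_al.F.Main1
import Pool.Agent.Lib.MP_0c623d_al.F.Graph

/-! Block F: the frozen statement from the analytic data. -/

namespace Pool.Agent.BP.F

theorem mainStmt : MainStmt := main_of_graph graph

theorem top (hA : ∀ k : ℕ, Odd k → 61 ≤ k → Nonempty (AN k)) :
    ¬ (∀ n : ℕ, 2 ≤ n → ∃ M : ℕ, ∀ m : ℕ, M ≤ m →
      ∃ g : FreeGroup (Fin n) ⧸ Subgroup.normalClosure
          {x : FreeGroup (Fin n) | ∃ b : FreeGroupBasis (Fin n) (FreeGroup (Fin n)),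
            ∃ i : Fin n, x = (b i) ^ m},
        g ≠ 1 ∧
        ∀ H : Subgroup (FreeGroup (Fin n) ⧸ Subgroup.normalClosure
          {x : FreeGroup (Fin n) | ∃ b : FreeGroupBasis (Fin n) (FreeGroup (Fin n)),
            ∃ i : Fin n, x = (b i) ^ m}),
          H.index ≠ 0 → g ∈ H) :=
  final_of mainStmt fun M => ⟨M + 10, by omega, hA _ ⟨3 * (M + 10) + 1, by ring⟩ (by omega)⟩

end Pool.Agent.BP.F
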