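import Pool.Agent.Lib.MP_0c623d_al.F.Loc
import Pool.Agent.Lib.MP_0c623d_al.F.Coc
import Pool.Agent.Lib.MP_0c623d_al.F.Chart
import Pool.Agent.Lib.MP_0c623d_al.F.Conn
import Pool.Agent.Lib.MP_0c623d_al.F.End
import Pool.Agent.Lib.MP_0c623d_al.F.Split
import Pool.Agent.Lib.MP_0c623d_al.G.EndB

/-! Block F: assembly, from the graph theorem and completeness. -/

namespace Pool.Agent.BP.F

open Complex Set Filter Topology Matrix

/-- Statement of the completeness of the developing map. -/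
def ComplStmt : Prop :=
  ∀ (k : ℕ), Odd k → ∀ (A : AN k) (H : Type) [Group H] (L : Lab k H) (ρ : H →* Matˣ),
    Coc L.bb → ChartY k → L.ChartX → A.Uni ρ → A.Loc L ρ → Compl A.Hm (A.dev L ρ)

theorem main_of (hG : GraphStmt) (hC : ComplStmt) : MainStmt := by
  intro k hk A H _ L hcl ρ hR g hg
  have hc := coc hk L
  have hY := chartY hk
  have hX := chartX hc hY
  have hU := uni A hcl hR
  have hL := loc hk A L ρ hR hc hY
  obtain ⟨P, N, hS, hP⟩ := split A
  obtain ⟨y0, h0, hj⟩ := conn hk L hc hcl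
  obtain ⟨y, h1, hj⟩ := hj g
  have := tot_t2 hc
  refine endg hk A L ρ hc hU hL hS y0 y g h0 h1 (hG A.Hm A.herm L.X (A.dev L ρ)
    (charted hk A L ρ hc hX hU hL) (hC k hk A H L ρ hc hY hX hU hL) P N hS _ _ ?_ ?_ hj)
  · simpa [AN.dev, h0] using hP
  · simpa [AN.dev, h1, hg] using hP

/-- The wall matrices as units. -/
noncomputable def AN.Ru {k : ℕ} (hk : Odd k) (A : AN k) (p : Fin 3) : Matˣ :=
  Units.ofPowEqOne (A.R p) (2 * k) ((relStmt k hk A).2.2.2 p) (by have := hk.pos; omega)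

theorem sep_of (hM : MainStmt) {k : ℕ} (hk : Odd k) (A : AN k) : G.Sep (2 * k) := by
  have rl := relStmt k hk A
  have br : G.Braid (A.Ru hk 0) (A.Ru hk 1) (A.Ru hk 2) :=
    ⟨Units.ext rl.1, Units.ext rl.2.1, Units.ext rl.2.2.1⟩
  have od : A.Ru hk 0 ^ (2 * k) = 1 := Units.ext (by
    rw [Units.val_pow_eq_pow_val]; exact rl.2.2.2 0)
  have gb := G.genB_braid (2 * k)
  let L : Lab k (G.Bm (2 * k)) := ⟨G.genB (2 * k), ⟨gb.ab, gb.bc, gb.ac⟩, G.genB_pow_all _⟩
  refine G.sep_of_matrix ((Units.coeHom Mat).comp (G.liftB br od)) fun g hg => ?_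
  refine hM k hk A _ L (G.genB_closure _) (G.liftB br od) (fun p => ?_) g (Units.ext hg)
  change ((G.liftB br od (G.genB _ p) : Matˣ) : Mat) = _
  rw [G.liftB_gen]
  fin_cases p <;> rfl

/-- The frozen statement follows from the analytic data for infinitely many `k = 6 j + 3`. -/
theorem final_of (hM : MainStmt) (h : ∀ M : ℕ, ∃ j, M ≤ j ∧ Nonempty (AN (6 * j + 3))) :
    ¬ (∀ n : ℕ, 2 ≤ n → ∃ M : ℕ, ∀ m : ℕ, M ≤ m →
      ∃ g : FreeGroup (Fin n) ⧸ Subgroup.normalClosure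
          {x : FreeGroup (Fin n) | ∃ b : FreeGroupBasis (Fin n) (FreeGroup (Fin n)),
            ∃ i : Fin n, x = (b i) ^ m},
        g ≠ 1 ∧
        ∀ H : Subgroup (FreeGroup (Fin n) ⧸ Subgroup.normalClosure
          {x : FreeGroup (Fin n) | ∃ b : FreeGroupBasis (Fin n) (FreeGroup (Fin n)),
            ∃ i : Fin n, x = (b i) ^ m}),
          H.index ≠ 0 → g ∈ H) := by
  refine G.finalB fun M => ?_
  obtain ⟨j, hj, ⟨A⟩⟩ := h M
  exact ⟨2 * (6 * j + 3), by omega, ⟨2 * j + 1, by ring⟩, sep_of hM ⟨3 * j + 1, by ring⟩ A⟩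

end Pool.Agent.BP.F
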