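import Mathlib

set_option autoImplicit false

/-!
The positive lift of permutations of four letters to a group with three braided elements, and
the transport between the orders of four points in two directions.
-/

namespace Pool.Agent.BP.F

open Equiv

/-- Permutations of four letters. -/
abbrev P4 := Perm (Fin 4)

/-- The braid relations. -/
structure Br {G : Type*} [Group G] (s : Fin 3 → G) : Prop where
  b01 : s 0 * s 1 * s 0 = s 1 * s 0 * s 1
  b12 : s 1 * s 2 * s 1 = s 2 * s 1 * s 2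
  b02 : s 0 * s 2 = s 2 * s 0

/-- The adjacent transpositions. -/
def sw (i : Fin 3) : P4 := swap i.castSucc i.succ

/-- A reduced word, by bubble sort. -/
def wd : ℕ → P4 → List (Fin 3)
  | 0, _ => []
  | n + 1, u =>
    if u 1 < u 0 then wd n (u * sw 0) ++ [0] else
    if u 2 < u 1 then wd n (u * sw 1) ++ [1] else
    if u 3 < u 2 then wd n (u * sw 2) ++ [2] else []

/-- One rewriting step. -/
def step : List (Fin 3) → List (Fin 3)
  | 2 :: 0 :: t => 0 :: 2 :: t
  | 1 :: 0 :: 1 :: t => 0 :: 1 :: 0 :: t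
  | 2 :: 1 :: 2 :: t => 1 :: 2 :: 1 :: t
  | 2 :: 1 :: 0 :: 2 :: t => 1 :: 2 :: 1 :: 0 :: t
  | a :: t => a :: step t
  | [] => []

/-- The normal form. -/
def nf (l : List (Fin 3)) : List (Fin 3) := step^[30] l

/-- The pairs inverted by `u` are inverted by `u * v`. -/
def Nest (u v : P4) : Prop := ∀ p q : Fin 4, p < q → u⁻¹ q < u⁻¹ p → (u * v)⁻¹ q < (u * v)⁻¹ p

instance (u v : P4) : Decidable (Nest u v) := by unfold Nest; infer_instance

theorem nest_nf : ∀ u v : P4, Nest u v → nf (wd 6 u ++ wd 6 v) = nf (wd 6 (u * v)) := by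
  decide +kernel

variable {G : Type*} [Group G] {s : Fin 3 → G}

/-- The value of a word. -/
def ev (s : Fin 3 → G) (l : List (Fin 3)) : G := (l.map s).prod

@[simp] theorem ev_nil : ev s [] = 1 := rfl

@[simp] theorem ev_cons (a : Fin 3) (l : List (Fin 3)) : ev s (a :: l) = s a * ev s l := by
  simp [ev]

theorem ev_append (l l' : List (Fin 3)) : ev s (l ++ l') = ev s l * ev s l' := by simp [ev]

theorem ev_step (h : Br s) (l : List (Fin 3)) : ev s (step l) = ev s l := by
  fun_induction step l with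
  | case1 t => simp only [ev_cons, ← mul_assoc, h.b02]
  | case2 t => simp only [ev_cons, ← mul_assoc, h.b01]
  | case3 t => simp only [ev_cons, ← mul_assoc, h.b12]
  | case4 t =>
    simp only [ev_cons, ← mul_assoc, h.b12]
    rw [mul_assoc _ (s 0) (s 2), h.b02, ← mul_assoc]
  | case5 a t _ _ _ _ ih => simp only [ev_cons, ih]
  | case6 => rfl

theorem ev_nf (h : Br s) (l : List (Fin 3)) : ev s (nf l) = ev s l := by
  have : ∀ n l, ev s (step^[n] l) = ev s l := by
    intro n
    induction n with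
    | zero => intro l; rfl
    | succ n ih => intro l; rw [Function.iterate_succ_apply, ih, ev_step h]
  exact this 30 l

theorem ev_congr (h : Br s) {l l' : List (Fin 3)} (e : nf l = nf l') : ev s l = ev s l' := by
  rw [← ev_nf h l, e, ev_nf h]

/-- The positive lift. -/
def r (s : Fin 3 → G) (u : P4) : G := ev s (wd 6 u)

theorem r_mul (h : Br s) {u v : P4} (n : Nest u v) : r s (u * v) = r s u * r s v := by
  rw [r, r, r, ← ev_append]
  exact (ev_congr h (nest_nf u v n)).symm

theorem r_one : r s 1 = 1 := by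
  have : wd 6 1 = [] := by decide +kernel
  rw [r, this, ev_nil]

theorem r_sw (i : Fin 3) : r s (sw i) = s i := by
  have : ∀ i, wd 6 (sw i) = [i] := by decide +kernel
  rw [r, this, ev_cons, ev_nil, mul_one]

theorem map_ev {H : Type*} [Group H] (f : G →* H) (l : List (Fin 3)) :
    f (ev s l) = ev (fun i => f (s i)) l := by
  induction l with
  | nil => simp
  | cons a l ih => simp [ih]

theorem map_r {H : Type*} [Group H] (f : G →* H) (u : P4) :
    f (r s u) = r (fun i => f (s i)) u := map_ev f _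

theorem br_sw : Br sw := ⟨by decide +kernel, by decide +kernel, by decide +kernel⟩

theorem r_perm : ∀ u : P4, r sw u = u := by decide +kernel

theorem nest_sw : ∀ (u : P4) (i : Fin 3), u i.castSucc < u i.succ → Nest u (sw i) := by
  decide +kernel

theorem sw_nest : ∀ (u : P4) (i : Fin 3), u⁻¹ i.castSucc < u⁻¹ i.succ → Nest (sw i) u := by
  decide +kernel

theorem r_mul_sw (h : Br s) {u : P4} {i : Fin 3} (hu : u i.castSucc < u i.succ) :
    r s (u * sw i) = r s u * s i := by rw [r_mul h (nest_sw u i hu), r_sw]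

theorem r_sw_mul (h : Br s) {u : P4} {i : Fin 3} (hu : u⁻¹ i.castSucc < u⁻¹ i.succ) :
    r s (sw i * u) = s i * r s u := by rw [r_mul h (sw_nest u i hu), r_sw]

theorem exists_desc : ∀ u : P4, u ≠ 1 → ∃ i : Fin 3, (u * sw i) i.castSucc < (u * sw i) i.succ ∧
    (wd 6 (u * sw i)).length < (wd 6 u).length := by decide +kernel

/-- An adjacent pair that is carried in order to an adjacent pair. -/
theorem slide (h : Br s) {u : P4} {p q : Fin 3} (h1 : u q.castSucc = p.castSucc)
    (h2 : u q.succ = p.succ) : r s u * s q = s p * r s u := by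
  have e : u * sw q = sw p * u := by
    rw [sw, sw, ← h1, ← h2, Equiv.swap_apply_apply]; group
  rw [← r_mul_sw h (by rw [h1, h2]; exact Fin.castSucc_lt_succ), e, r_sw_mul h]
  rw [← h1, ← h2]
  simp

theorem slide_zpow (h : Br s) {u : P4} {p q : Fin 3} (h1 : u q.castSucc = p.castSucc)
    (h2 : u q.succ = p.succ) (n : ℤ) : r s u * s q ^ n = s p ^ n * r s u :=
  SemiconjBy.zpow_right (slide h h1 h2) n

/-- The half twist. -/
def Dl (s : Fin 3 → G) : G := r s Fin.revPerm

theorem Dl_eq (h : Br s) : Dl s = s 0 * s 1 * s 2 * s 0 * s 1 * s 0 := by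
  have : ev s (wd 6 Fin.revPerm) = ev s [0, 1, 2, 0, 1, 0] := ev_congr h (by decide +kernel)
  rw [Dl, r, this]
  simp only [ev_cons, ev_nil, mul_one, mul_assoc]

theorem nest_rev : ∀ u : P4, Nest u (u⁻¹ * Fin.revPerm) := by decide +kernel

theorem r_compl (h : Br s) (u : P4) : r s u * r s (u⁻¹ * Fin.revPerm) = Dl s := by
  rw [← r_mul h (nest_rev u), mul_inv_cancel_left, Dl]

theorem Dl_s (h : Br s) (i : Fin 3) : Dl s * s i = s i.rev * Dl s := by
  have : ∀ i : Fin 3, nf (wd 6 Fin.revPerm ++ [i]) = nf (i.rev :: wd 6 Fin.revPerm) := by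
    decide +kernel
  have e := ev_congr h (this i)
  rwa [ev_append, ev_cons, ev_cons, ev_nil, mul_one] at e

theorem Dl_sq (h : Br s) : Dl s ^ 2 = (s 0 * s 1 * s 2) ^ 4 := by
  have e : Dl s = s 1 * s 2 * s 1 * (s 0 * s 1 * s 2) := by
    have : ev s (wd 6 Fin.revPerm) = ev s [1, 2, 1, 0, 1, 2] := ev_congr h (by decide +kernel)
    rw [Dl, r, this]
    simp only [ev_cons, ev_nil, mul_one, mul_assoc]
  have e2 : s 0 * (s 2 * s 1 * s 2) = s 2 * s 0 * s 1 * s 2 := by
    rw [← h.b02]; simp only [mul_assoc]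
  calc Dl s ^ 2 = s 0 * s 1 * s 2 * s 0 * s 1 * (s 0 * (s 1 * s 2 * s 1)) * (s 0 * s 1 * s 2) := by
        rw [sq]
        nth_rewrite 1 [Dl_eq h]
        rw [e]
        simp only [mul_assoc]
    _ = _ := by
        rw [h.b12, e2]
        simp only [mul_assoc, pow_succ, pow_zero, one_mul]

theorem Dl_sq_comm (h : Br s) (i : Fin 3) : Dl s ^ 2 * s i = s i * Dl s ^ 2 := by
  rw [sq, mul_assoc, Dl_s h, ← mul_assoc, Dl_s h, Fin.rev_rev, mul_assoc]

/-- The height of a point in the direction `l`. -/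
def pl (l : ℝ) (z : ℂ) : ℝ := z.re + l * z.im

/-- The permutation lists the points in increasing order in the direction `l`. -/
def Srt (a : Fin 4 → ℂ) (l : ℝ) (σ : P4) : Prop := StrictMono fun p => pl l (a (σ p))

theorem Srt.lt_iff {a : Fin 4 → ℂ} {l : ℝ} {σ : P4} (h : Srt a l σ) (i j : Fin 4) :
    σ⁻¹ i < σ⁻¹ j ↔ pl l (a i) < pl l (a j) := by
  have := h.lt_iff_lt (a := σ⁻¹ i) (b := σ⁻¹ j)
  simpa using this.symm

theorem Srt.unique {a : Fin 4 → ℂ} {l : ℝ} {σ τ : P4} (h : Srt a l σ) (h' : Srt a l τ) :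
    σ = τ := by
  have : StrictMono (fun p => σ⁻¹ (τ p)) := fun p q hpq => (h.lt_iff _ _).2 (h' hpq)
  have e : ∀ p, σ⁻¹ (τ p) = p := fun p =>
    congrFun ((this.range_inj strictMono_id).1 (by
      rw [Set.range_id]
      exact (σ⁻¹ * τ).surjective.range_eq)) p
  ext p
  have := congrArg σ (e p)
  simp only [Perm.coe_inv, apply_symm_apply] at this
  rw [this]

theorem nest_of_srt {a : Fin 4 → ℂ} {l l' l'' : ℝ} {σ σ' σ'' : P4} (h1 : l ≤ l') (h2 : l' ≤ l'')
    (h : Srt a l σ) (h' : Srt a l' σ') (h'' : Srt a l'' σ'') :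
    Nest (σ⁻¹ * σ') (σ'⁻¹ * σ'') := by
  intro p q hpq hu
  have e : σ⁻¹ * σ' * (σ'⁻¹ * σ'') = σ⁻¹ * σ'' := by group
  rw [e]
  simp only [mul_inv_rev, inv_inv, Perm.mul_apply] at hu ⊢
  rw [h'.lt_iff] at hu
  rw [h''.lt_iff]
  have h0 : pl l (a (σ p)) < pl l (a (σ q)) := h hpq
  simp only [pl] at hu h0 ⊢
  have hd : 0 < (a (σ p)).im - (a (σ q)).im := by
    by_contra hc
    nlinarith [mul_nonneg (sub_nonneg.2 h1) (neg_nonneg.2 (not_lt.1 hc))]
  nlinarith [mul_nonneg (sub_nonneg.2 h2) hd.le]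

/-- The transport between two orders. -/
def T (s : Fin 3 → G) (σ σ' : P4) : G := r s (σ⁻¹ * σ')

theorem T_self (σ : P4) : T s σ σ = 1 := by rw [T, inv_mul_cancel, r_one]

theorem T_cocycle (hs : Br s) {a : Fin 4 → ℂ} {l l' l'' : ℝ} {σ σ' σ'' : P4} (h1 : l ≤ l')
    (h2 : l' ≤ l'') (h : Srt a l σ) (h' : Srt a l' σ') (h'' : Srt a l'' σ'') :
    T s σ σ'' = T s σ σ' * T s σ' σ'' := by
  rw [T, T, T, ← r_mul hs (nest_of_srt h1 h2 h h' h'')]
  congr 1
  group

end Pool.Agent.BP.F
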